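import Pool.Agent.TH133.Defs
import Pool.Agent.TH133.Tens

/-!
# Products with curves and the conjectures (B) and (D) of Murre: definitions
-/

open CategoryTheory AlgebraicGeometry

universe u v w

namespace Pool.Agent.Y107

open Pool.Agent.H914 Pool.Agent.H914.VarClass Pool.Agent.H914.VarClass.Obj Pool.Agent.W492.BB
  Pool.Agent.W550.Corr Pool.Agent.TH133

variable {k : Type u} [Field k] {𝒱 : VarClass k}

/-- `T` is a curve and `c` a zero-cycle of degree one on `T`. -/
structure IsPointedCurve (C : TheoryData.{u, v, 0} 𝒱 ℚ) (T : 𝒱.Obj) (c : C.A T) : Prop where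
  dim : T.dim = 1
  mem : C.Deg 1 c
  deg : HasDegree C c 1

/-- The Chow-Kunneth decomposition `c × T`, `Δ - c × T - T × c`, `T × c` of the curve `T`. -/
noncomputable def curveCK (C : TheoryData.{u, v, 0} 𝒱 ℚ) (T : 𝒱.Obj) (c : C.A T) :
    ℕ → C.A (T.prod T)
  | 0 => C.ext c 1
  | 1 => dg C T - C.ext c 1 - C.ext 1 c
  | 2 => C.ext 1 c
  | _ => 0

/-- The product of the decompositions `π` of `X` and `ρ` of `Z`. -/
noncomputable def prodDec (C : TheoryData.{u, v, 0} 𝒱 ℚ) {X Z : 𝒱.Obj} (π : ℕ → C.A (X.prod X))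
    (ρ : ℕ → C.A (Z.prod Z)) : ℕ → C.A ((X.prod Z).prod (X.prod Z)) :=
  fun n => ∑ i ∈ Finset.range (n + 1), tens C (π i) (ρ (n - i))

/-- Murre's condition (B) for the decomposition `π` of `X`: `π i` acts as zero on `CH^j(X)` for
`i > 2 j`. -/
def SatB (C : TheoryData.{u, v, 0} 𝒱 ℚ) {X : 𝒱.Obj} (π : ℕ → C.A (X.prod X)) : Prop :=
  ∀ (j i : ℕ) (x : C.A X), C.Deg j x → 2 * j < i → C.act (π i) x = 0

/-- The vertical classes in `CH^j(X × T)`, `T` a curve: the sums of classes `y × w` with
`y ∈ CH^(j-1)(X)` and `w ∈ CH^1(T)`. Over an algebraically closed field they are the kernel of the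
restriction to the generic fibre, so that `CH^j(X × T)` modulo the vertical classes is the Chow
group `CH^j` of `X` over the function field of `T`. -/
noncomputable def vertical (C : TheoryData.{u, v, 0} 𝒱 ℚ) (X T : 𝒱.Obj) (j : ℕ) : Submodule ℚ (C.A (X.prod T)) :=
  Submodule.span ℚ {x | ∃ (y : C.A X) (w : C.A T), C.Deg ((j : ℤ) - 1) y ∧ C.Deg 1 w ∧
    x = C.ext y w}

/-- A class `z ∈ CH^j(X × T)`, `T` a curve, which restricts to zero on all fibres `X × {t}` is
vertical. This holds over an algebraically closed field of infinite transcendence degree over its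
prime field (a universal domain). -/
def FibrewiseZero (C : TheoryData.{u, v, 0} 𝒱 ℚ) : Prop :=
  ∀ (X T : 𝒱.Obj) (j : ℕ) (z : C.A (X.prod T)), T.dim = 1 → C.Deg j z →
    (∀ w : C.A T, C.Deg 1 w → C.act (tp C z) w = 0) → z ∈ vertical C X T j

end Pool.Agent.Y107
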