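import Pool.Agent.Y107.CurveDefs

/-!
# Products with curves and the conjectures (B) and (D) of Murre: definitions
-/

open CategoryTheory AlgebraicGeometry

universe u v w

namespace Pool.Agent.Y107

open Pool.Agent.H914 Pool.Agent.H914.VarClass Pool.Agent.H914.VarClass.Obj Pool.Agent.W492.BB
  Pool.Agent.W550.Corr Pool.Agent.TH133

variable {k : Type u} [Field k] {𝒱 : VarClass k}

/-- The algebraic part of Murre's condition (D) for the decomposition `π` of `X`: `π (2 j)` acts as
zero on the algebraically trivial classes in `CH^j(X)`. -/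
def SatDalg (C : TheoryData.{u, v, 0} 𝒱 ℚ) {X : 𝒱.Obj} (π : ℕ → C.A (X.prod X)) : Prop :=
  ∀ (j : ℕ) (x : C.A X), x ∈ algPower C X 1 j → C.act (π (2 * j)) x = 0

/-- `CurveProd C r X π`: the variety `X` is a product of `r ≥ 1` curves and `π` is a product of
decompositions `curveCK` of these curves. -/
inductive CurveProd (C : TheoryData.{u, v, 0} 𝒱 ℚ) : ℕ → (X : 𝒱.Obj) →
    (ℕ → C.A (X.prod X)) → Prop
  | one (T : 𝒱.Obj) (c : C.A T) (h : IsPointedCurve C T c) : CurveProd C 1 T (curveCK C T c)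
  | mul (r : ℕ) (X : 𝒱.Obj) (π : ℕ → C.A (X.prod X)) (T : 𝒱.Obj) (c : C.A T)
      (hX : CurveProd C r X π) (h : IsPointedCurve C T c) :
      CurveProd C (r + 1) (X.prod T) (prodDec C π (curveCK C T c))

/-- (B) for the products of `X` with all curves. -/
def ProductsB (C : TheoryData.{u, v, 0} 𝒱 ℚ) {X : 𝒱.Obj} (π : ℕ → C.A (X.prod X)) : Prop :=
  ∀ (T : 𝒱.Obj) (c : C.A T), IsPointedCurve C T c → SatB C (prodDec C π (curveCK C T c))

/-- For all curves `T` and all classes `z` in `CH^j(X × T)`, modulo vertical classes (that is, in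
the Chow group of `X` over the function field of `T`) the class `z` is killed by `π i` for `i > 2 j`,
and `π (2 j)` maps it to the constant class `π (2 j)_* z_c`, where `z_c` is the restriction of `z` to
the fibre over `c`. -/
def GenericB (C : TheoryData.{u, v, 0} 𝒱 ℚ) {X : 𝒱.Obj} (π : ℕ → C.A (X.prod X)) : Prop :=
  ∀ (T : 𝒱.Obj) (c : C.A T), IsPointedCurve C T c → ∀ (j : ℕ) (z : C.A (X.prod T)), C.Deg j z →
    (∀ i, 2 * j < i → C.act (tens C (π i) (dg C T)) z ∈ vertical C X T j) ∧
    C.act (tens C (π (2 * j)) (dg C T)) z - C.ext (C.act (π (2 * j)) (C.act (tp C z) c)) 1 ∈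
      vertical C X T j

/-- (B) for all products of `r` curves. -/
def CurvesB (C : TheoryData.{u, v, 0} 𝒱 ℚ) (r : ℕ) : Prop :=
  ∀ (X : 𝒱.Obj) (π : ℕ → C.A (X.prod X)), CurveProd C r X π → SatB C π

/-- The algebraic part of (D) for all products of `r` curves. -/
def CurvesDalg (C : TheoryData.{u, v, 0} 𝒱 ℚ) (r : ℕ) : Prop :=
  ∀ (X : 𝒱.Obj) (π : ℕ → C.A (X.prod X)), CurveProd C r X π → SatDalg C π

end Pool.Agent.Y107
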