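import Pool.Agent.Y107.CurveDefs

/-!
# Products with curves and the conjectures (B) and (D) of Murre: definitions
-/

open CategoryTheory AlgebraicGeometry

universe u v w

namespace Pool.Agent.Y107

open Pool.Agent.H914 Pool.Agent.H914.VarClass Pool.Agent.H914.VarClass.Obj Pool.Agent.W492.BB
  Pool.Agent.W550.Corr Pool.Agent.TH133

variable {k : Type u} [Field k] {𝒱 : VarClass k}

/-- (B) for all products `X × T_1 × ⋯ × T_r` of `X` with `r` curves. -/
noncomputable def BTimes (C : TheoryData.{u, v, 0} 𝒱 ℚ) : ℕ → (X : 𝒱.Obj) → (ℕ → C.A (X.prod X)) → Prop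
  | 0, _, π => SatB C π
  | r + 1, X, π => ∀ (T : 𝒱.Obj) (c : C.A T), IsPointedCurve C T c →
      BTimes C r (X.prod T) (prodDec C π (curveCK C T c))

end Pool.Agent.Y107
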