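import Pool.Agent.TH133.Ext
import Pool.Agent.Y107.CurveDefs1
import Pool.Agent.Y107.CurveDefs2

/-!
# Products with curves: the calculus
-/

open CategoryTheory AlgebraicGeometry

universe u v w

namespace Pool.Agent.Y107

open Pool.Agent.H914 Pool.Agent.H914.VarClass Pool.Agent.H914.VarClass.Obj Pool.Agent.W492.BB
  Pool.Agent.W550.Corr Pool.Agent.TH133

set_option linter.unusedSectionVars false

variable {k : Type u} [Field k] {𝒱 : VarClass k}

section chow

variable {C : TheoryData.{u, v, 0} 𝒱 ℚ} [hC : IsChowProj C] {X Y Z W T : 𝒱.Obj}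

include hC

/-- The degree as a property of multiples. -/
lemma one_hasDegree_zero (hT : T.dim = 1) : HasDegree C (1 : C.A T) 0 := by
  intro Y
  rw [zero_smul]
  have h1 : C.push (snd T Y) (C.pull (fst T Y) (1 : C.A T)) = 0 := by
    have h2 := C.push_mem (snd T Y) (C.pull_mem (fst T Y) (C.one_mem T))
    rw [C.gr_neg Y _ (by rw [dim_prod]; push_cast; omega)] at h2
    exact (Submodule.mem_bot _).1 h2
  have h1' : C.push (fst Y T) (C.pull (snd Y T) (1 : C.A T)) = 0 := by
    have h2 := C.push_mem (fst Y T) (C.pull_mem (snd Y T) (C.one_mem T))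
    rw [C.gr_neg Y _ (by rw [dim_prod]; push_cast; omega)] at h2
    exact (Submodule.mem_bot _).1 h2
  exact ⟨h1, h1'⟩

lemma mul_self_zero (hT : T.dim = 1) {c c' : C.A T} (h : c ∈ C.gr T 1) (h' : c' ∈ C.gr T 1) :
    c * c' = 0 := hC.gr_top T 2 _ (C.mul_mem h h') (by omega)

/-- Evaluation of the transform of a correspondence. -/
lemma act_tp_tens (Γ : C.A (X.prod X)) (Δ : C.A (T.prod T)) (z : C.A (X.prod T)) (w : C.A T) :
    C.act (tp C (C.act (tens C Γ Δ) z)) w = C.act Γ (C.act (tp C z) (C.act (tp C Δ) w)) := by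
  rw [act_tens C (ch_comm C), tp_comp C (ch_comm C), tp_comp C (ch_comm C), tp_tp, C.act_comp,
    C.act_comp]

lemma comp_ext_right (A : C.A (X.prod Y)) (v : C.A Y) (α : C.A Z) :
    C.comp A (C.ext v α) = C.ext (C.act (tp C A) v) α := by
  have e1 : t23 X Y Z ≫ fst Y Z = fst (X.prod Y) Z ≫ snd X Y := t23_fst
  have e3 : t23 X Y Z ≫ snd Y Z = t13 X Y Z ≫ snd X Z := by rw [t23_snd, t13_snd]
  have h2 : C.pull (t23 X Y Z) (C.ext v α) * C.pull (fst (X.prod Y) Z) A =
      C.pull (fst (X.prod Y) Z) (A * C.pull (snd X Y) v) *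
        C.pull (t13 X Y Z) (C.pull (snd X Z) α) := by
    simp only [TheoryData.ext, map_mul]
    rw [← C.pull_comp (t23 X Y Z), ← C.pull_comp (t23 X Y Z), ← C.pull_comp (t13 X Y Z),
      e1, e3, C.pull_comp (fst (X.prod Y) Z) (snd X Y)]
    generalize C.pull (fst (X.prod Y) Z) (C.pull (snd X Y) v) = a
    generalize C.pull (t13 X Y Z ≫ snd X Z) α = b
    generalize C.pull (fst (X.prod Y) Z) A = c
    rw [ch_comm C (a * b) c, mul_assoc]
  rw [TheoryData.comp, h2, C.proj_right]
  change C.push (prodMap (fst X Y) (𝟙 Z)) _ * _ = _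
  rw [← C.base_fst, TheoryData.ext, act_tp]

/-- `π ⊗ (1 × c)` -/
lemma act_tens_ext_right (Γ : C.A (X.prod X)) (v α : C.A T) (z : C.A (X.prod T)) :
    C.act (tens C Γ (C.ext v α)) z = C.ext (C.act Γ (C.act (tp C z) v)) α := by
  rw [act_tens C (ch_comm C), comp_ext_right, tp_comp C (ch_comm C), tp_tp, C.act_comp]

lemma act_mem_curve (hT : T.dim = 1) {j i : ℤ} {z : C.A (X.prod T)} (hz : z ∈ C.gr (X.prod T) j)
    {w : C.A T} (hw : w ∈ C.gr T i) : C.act (tp C z) w ∈ C.gr X (j + i - 1) := by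
  have h1 : tp C z ∈ C.gr (T.prod X) (T.dim + (j - 1)) := by
    have := tp_mem C hz
    rw [hT]
    push_cast
    rwa [show (1 : ℤ) + (j - 1) = j by ring]
  have := act_mem' C h1 hw
  rwa [show i + (j - 1) = j + i - 1 by ring] at this

lemma ext_one_eq_zero {c : C.A T} (hc : HasDegree C c 1) {y : C.A X}
    (h : C.ext y (1 : C.A T) = 0) : y = 0 := by
  rw [TheoryData.ext, map_one, mul_one] at h
  have h1 : C.push (fst X T) (C.pull (fst X T) y * C.pull (snd X T) c) = y := by
    rw [C.proj_left, (hc X).2, one_smul, mul_one]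
  rw [← h1, h, zero_mul, map_zero]

end chow

section rho

variable (C : TheoryData.{u, v, 0} 𝒱 ℚ) (T : 𝒱.Obj) (c : C.A T)

lemma rho0 : curveCK C T c 0 = C.ext c 1 := rfl
lemma rho1 : curveCK C T c 1 = dg C T - C.ext c 1 - C.ext 1 c := rfl
lemma rho2 : curveCK C T c 2 = C.ext 1 c := rfl
lemma rho3 (n : ℕ) (hn : 3 ≤ n) : curveCK C T c n = 0 := by
  obtain ⟨m, rfl⟩ := Nat.exists_eq_add_of_le hn
  rw [show 3 + m = m + 3 by omega]
  rfl

end rho

section curve

variable {C : TheoryData.{u, v, 0} 𝒱 ℚ} [hC : IsChowProj C] {X T : 𝒱.Obj} {c : C.A T}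
  (hc : IsPointedCurve C T c)

include hC

lemma exists_pointed (T : 𝒱.Obj) (hT : T.dim = 1) : ∃ c, IsPointedCurve C T c := by
  obtain ⟨c, h1, h2, h3⟩ := exists_deg_one C T
  refine ⟨c, hT, ?_, fun Y => ⟨?_, ?_⟩⟩
  · rw [hT] at h1
    exact h1
  · rw [one_smul]; exact h3 Y
  · rw [one_smul]; exact h2 Y

include hc

lemma ext_c_one_mem : C.ext c (1 : C.A T) ∈ C.gr (T.prod T) T.dim := by
  have := ext_mem' (C := C) (X := T) (Y := T) hc.mem (C.one_mem T)
  rw [hc.dim]
  simpa using this

lemma ext_one_c_mem : C.ext (1 : C.A T) c ∈ C.gr (T.prod T) T.dim := by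
  have := ext_mem' (C := C) (X := T) (Y := T) (C.one_mem T) hc.mem
  rw [hc.dim]
  simpa using this

lemma comp_c1_c1 : C.comp (C.ext c (1 : C.A T)) (C.ext c (1 : C.A T)) = C.ext c 1 := by
  have h := comp_ext_ext (C := C) (X := T) (Y := T) (Z := T) (v := c) (α := (1 : C.A T)) (v' := c)
    (α' := (1 : C.A T)) (q := 1) (by rw [one_mul]; exact hc.deg)
  rw [h, one_smul]

lemma comp_1c_1c : C.comp (C.ext (1 : C.A T) c) (C.ext (1 : C.A T) c) = C.ext 1 c := by
  have h := comp_ext_ext (C := C) (X := T) (Y := T) (Z := T) (v := (1 : C.A T)) (α := c)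
    (v' := (1 : C.A T)) (α' := c) (q := 1) (by rw [mul_one]; exact hc.deg)
  rw [h, one_smul]

lemma comp_c1_1c : C.comp (C.ext c (1 : C.A T)) (C.ext (1 : C.A T) c) = 0 := by
  have h := comp_ext_ext (C := C) (X := T) (Y := T) (Z := T) (v := c) (α := (1 : C.A T))
    (v' := (1 : C.A T)) (α' := c) (q := 0) (by rw [mul_one]; exact one_hasDegree_zero hc.dim)
  rw [h, zero_smul]

lemma comp_1c_c1 : C.comp (C.ext (1 : C.A T) c) (C.ext c (1 : C.A T)) = 0 := by
  have h := comp_ext_ext (C := C) (X := T) (Y := T) (Z := T) (v := (1 : C.A T)) (α := c)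
    (v' := c) (α' := (1 : C.A T)) (q := 0)
    (by rw [mul_self_zero hc.dim hc.mem hc.mem]; exact hasDegree_zero)
  rw [h, zero_smul]

lemma act_rho0_one : C.act (curveCK C T c 0) (1 : C.A T) = 1 := by
  have h := act_ext' (C := C) (X := T) (Y := T) (v := c) (x := (1 : C.A T)) (α := (1 : C.A T))
    (q := 1) (by rw [mul_one]; exact hc.deg)
  rw [rho0, h, one_smul]

lemma act_rho2_one : C.act (curveCK C T c 2) (1 : C.A T) = 0 := by
  have h := act_ext' (C := C) (X := T) (Y := T) (v := (1 : C.A T)) (x := (1 : C.A T)) (α := c)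
    (q := 0) (by rw [mul_one]; exact one_hasDegree_zero hc.dim)
  rw [rho2, h, zero_smul]

lemma act_rho1_one : C.act (curveCK C T c 1) (1 : C.A T) = 0 := by
  have h0 := act_rho0_one hc
  have h2 := act_rho2_one hc
  rw [rho0] at h0
  rw [rho2] at h2
  rw [rho1, C.act_sub, C.act_sub, act_dg, h0, h2]
  simp

lemma act_rho0_w {w : C.A T} (hw : w ∈ C.gr T 1) : C.act (curveCK C T c 0) w = 0 := by
  have h := act_ext' (C := C) (X := T) (Y := T) (v := c) (x := w) (α := (1 : C.A T)) (q := 0)
    (by rw [mul_self_zero hc.dim hc.mem hw]; exact hasDegree_zero)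
  rw [rho0, h, zero_smul]

lemma act_rho2_w {w : C.A T} {q : ℚ} (hq : HasDegree C w q) :
    C.act (curveCK C T c 2) w = q • c := by
  have h := act_ext' (C := C) (X := T) (Y := T) (v := (1 : C.A T)) (x := w) (α := c) (q := q)
    (by rw [one_mul]; exact hq)
  rw [rho2, h]

lemma act_rho1_w {w : C.A T} (hw : w ∈ C.gr T 1) {q : ℚ} (hq : HasDegree C w q) :
    C.act (curveCK C T c 1) w = w - q • c := by
  have h0 := act_rho0_w hc hw
  have h2 := act_rho2_w hc hq
  rw [rho0] at h0
  rw [rho2] at h2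
  rw [rho1, C.act_sub, C.act_sub, act_dg, h0, h2, sub_zero]

omit hc in
lemma hasDegree_sub {a b : C.A X} {q r : ℚ} (ha : HasDegree C a q) (hb : HasDegree C b r) :
    HasDegree C (a - b) (q - r) := by
  intro Y
  rw [map_sub, map_sub, map_sub, map_sub, (ha Y).1, (ha Y).2, (hb Y).1, (hb Y).2, sub_smul]
  exact ⟨rfl, rfl⟩

omit hc in
lemma hasDegree_smul {a : C.A X} {q : ℚ} (r : ℚ) (ha : HasDegree C a q) :
    HasDegree C (r • a) (r * q) := by
  intro Y
  rw [map_smul, map_smul, map_smul, map_smul, (ha Y).1, (ha Y).2, mul_smul]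
  exact ⟨rfl, rfl⟩

lemma rho1_w_mem {w : C.A T} (hw : w ∈ C.gr T 1) :
    C.act (curveCK C T c 1) w ∈ C.gr T 1 ∧ HasDegree C (C.act (curveCK C T c 1) w) 0 := by
  obtain ⟨q, hq⟩ := exists_hasDegree (C := C) (x := w) (by rw [hc.dim]; exact hw)
  rw [act_rho1_w hc hw hq]
  refine ⟨Submodule.sub_mem _ hw (Submodule.smul_mem _ _ hc.mem), ?_⟩
  have := hasDegree_sub hq (hasDegree_smul q hc.deg)
  rwa [mul_one, sub_self] at this

omit hc in
lemma tp_rho0 : tp C (curveCK C T c 0) = curveCK C T c 2 := by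
  rw [rho0, rho2, tp_ext]

omit hc in
lemma tp_rho2 : tp C (curveCK C T c 2) = curveCK C T c 0 := by
  rw [rho0, rho2, tp_ext]

omit hc in
lemma tp_rho1 : tp C (curveCK C T c 1) = curveCK C T c 1 := by
  rw [rho1, tp_sub, tp_sub, tp_dg, tp_ext, tp_ext, sub_right_comm]

variable {K : Type w} [Field K] {H : WeilTheoryData.{u, v, w} C K} [hH : IsWeilProj H]

include hH

lemma push_pull_H {w : C.A T} {q : ℚ} (hq : HasDegree C w q) :
    H.push (snd T T) (H.pull (fst T T) (H.cl w)) = H.cl (q • (1 : C.A T)) := by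
  rw [← H.cl_pull, ← H.cl_push, (hq T).1]

/-- **The decomposition of a curve is a Chow-Kunneth decomposition.** -/
theorem isCK_curve : IsCK H T (curveCK C T c) := by
  have hdim := hc.dim
  let P : ℕ → Cor C T := curveCK C T c
  have P0 : P 0 = (C.ext c (1 : C.A T) : C.A (T.prod T)) := rfl
  have P1 : P 1 = 1 - P 0 - P 2 := rfl
  have P2 : P 2 = (C.ext (1 : C.A T) c : C.A (T.prod T)) := rfl
  have P3 : ∀ n, 3 ≤ n → P n = 0 := by
    intro n hn
    obtain ⟨m, rfl⟩ := Nat.exists_eq_add_of_le hn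
    rw [show 3 + m = m + 3 by omega]
    rfl
  have h00 : P 0 * P 0 = P 0 := comp_c1_c1 hc
  have h22 : P 2 * P 2 = P 2 := comp_1c_1c hc
  have h02 : P 0 * P 2 = 0 := comp_1c_c1 hc
  have h20 : P 2 * P 0 = 0 := comp_c1_1c hc
  have hmem : ∀ i, P i ∈ cor0 C T := by
    intro i
    rcases Nat.lt_or_ge i 3 with h | h
    · interval_cases i
      · exact ext_c_one_mem hc
      · rw [P1]
        exact (cor0 C T).sub_mem ((cor0 C T).sub_mem (cor0 C T).one_mem (ext_c_one_mem hc))
          (ext_one_c_mem hc)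
      · exact ext_one_c_mem hc
    · rw [P3 i h]
      exact (cor0 C T).zero_mem
  have hsum : ∑ i ∈ Finset.range (2 * T.dim + 1), P i = 1 := by
    rw [hdim]
    simp only [Finset.sum_range_succ, Finset.sum_range_zero, P1]
    abel
  have hmul : ∀ i j, P i * P j = if i = j then P i else 0 := by
    intro i j
    rcases Nat.lt_or_ge i 3 with h | h
    · rcases Nat.lt_or_ge j 3 with h' | h'
      · interval_cases i <;> interval_cases j <;>
          simp [P1, mul_sub, sub_mul, h00, h22, h02, h20]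
      · rw [P3 j h', mul_zero, if_neg (by omega)]
    · rw [P3 i h, zero_mul]
      split_ifs <;> rfl
  -- the action on cohomology
  have hcl : ∀ a : H.A T, ∀ m : ℤ, a ∈ H.gr T m → actH C T H (P 0) a = if m = 0 then a else 0 := by
    intro a m ha
    have h1 : actH C T H (P 0) a = H.push (snd T T) (H.pull (fst T T) (H.cl c * a)) := by
      rw [actH_apply, P0, TheoryData.act_apply, TheoryData.ext, map_one, mul_one, H.cl_pull,
        ← map_mul (H.pull (fst T T))]
    rw [h1]
    split_ifs with h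
    · rw [h] at ha
      obtain ⟨κ, rfl⟩ := hH.gr_zero T a ha
      rw [mul_smul_comm, mul_one, map_smul, map_smul, push_pull_H hc hc.deg, one_smul, map_one]
    · by_cases ha0 : a = 0
      · rw [ha0, mul_zero, map_zero, map_zero]
      have hm := nonneg_of_mem H ha ha0
      have h2 := H.mul_mem (H.cl_mem hc.mem) ha
      rw [gr_top H (by omega)] at h2
      rw [(Submodule.mem_bot _).1 h2, map_zero, map_zero]
  have hcl2 : ∀ a : H.A T, ∀ m : ℤ, a ∈ H.gr T m → actH C T H (P 2) a = if m = 2 then a else 0 := by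
    intro a m ha
    have h1 : actH C T H (P 2) a = H.cl c * H.push (snd T T) (H.pull (fst T T) a) := by
      rw [actH_apply, P2, TheoryData.act_apply, TheoryData.ext, map_one, one_mul, H.cl_pull,
        H.proj_left]
    have h3 : H.push (snd T T) (H.pull (fst T T) a) ∈ H.gr T (m - 2) := by
      have h4 := H.push_mem (snd T T) (H.pull_mem (fst T T) ha)
      rw [dim_prod, hdim] at h4
      have e9 : m + 2 * (((1 : ℕ) : ℤ) - ((1 + 1 : ℕ) : ℤ)) = m - 2 := by push_cast; ring
      rwa [e9] at h4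
    rw [h1]
    split_ifs with h
    · subst h
      rw [sub_self] at h3
      obtain ⟨κ, hκ⟩ := hH.gr_zero T _ h3
      rw [hκ, mul_smul_comm, mul_one, ← sub_eq_zero]
      apply H.nondeg
      have h5 : H.tr T (κ • H.cl c) = H.tr T a := by
        have e1 : κ • H.cl c = H.push (snd T T) (H.pull (fst T T) a * H.pull (snd T T) (H.cl c)) := by
          rw [H.proj_right, hκ, smul_mul_assoc, one_mul]
        have e2 : H.push (fst T T) (H.pull (snd T T) (H.cl c)) = 1 := by
          rw [← H.cl_pull, ← H.cl_push, (hc.deg T).2, one_smul, map_one]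
        rw [e1, H.tr_push, ← H.tr_push (fst T T), H.proj_left, e2, mul_one]
      have h6 : H.tr T ∘ₗ LinearMap.mulLeft K (κ • H.cl c - a) = 0 := by
        apply ext_gr H
        intro i b hb
        rw [LinearMap.comp_apply, LinearMap.mulLeft_apply, LinearMap.zero_apply]
        have h7 : κ • H.cl c - a ∈ H.gr T 2 :=
          Submodule.sub_mem _ (Submodule.smul_mem _ _ (H.cl_mem hc.mem)) ha
        by_cases hi : i = 0
        · subst hi
          obtain ⟨μ, rfl⟩ := hH.gr_zero T b hb
          rw [mul_smul_comm, mul_one, map_smul, map_sub, h5, sub_self, smul_zero]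
        · exact tr_zero H (H.mul_mem h7 hb) (by rw [hdim]; omega)
      exact fun b => LinearMap.congr_fun h6 b
    · by_cases hm : m < 2
      · rw [H.gr_neg T _ (by omega)] at h3
        rw [(Submodule.mem_bot _).1 h3, mul_zero]
      · rw [gr_top H (by omega)] at ha
        rw [(Submodule.mem_bot _).1 ha, map_zero, map_zero, mul_zero]
  apply isCK_of (P := P) hmem (fun i hi => P3 i (by omega)) hmul hsum
  intro i m a ha
  rcases Nat.lt_or_ge i 3 with h | h
  · interval_cases i
    · exact hcl a m ha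
    · rw [P1, map_sub, map_sub, LinearMap.sub_apply, LinearMap.sub_apply, map_one, hcl a m ha,
        hcl2 a m ha, Module.End.one_apply]
      by_cases ha0 : a = 0
      · subst ha0
        split_ifs <;> simp
      have hm := nonneg_of_mem H ha ha0
      have hm2 : m ≤ 2 := by
        by_contra hcon
        rw [gr_top H (by omega)] at ha
        exact ha0 ((Submodule.mem_bot _).1 ha)
      obtain rfl | rfl | rfl : m = 0 ∨ m = 1 ∨ m = 2 := by omega
      · simp
      · simp
      · simp
    · exact hcl2 a m ha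
  · rw [P3 i h, map_zero, LinearMap.zero_apply]
    split_ifs with hm
    · rw [gr_top H (by omega)] at ha
      exact ((Submodule.mem_bot _).1 ha).symm
    · rfl

end curve

end Pool.Agent.Y107
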