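import Pool.Agent.Y107.CurveLem

/-!
# Products with curves and the conjectures (B) and (D) of Murre
-/

open CategoryTheory AlgebraicGeometry

universe u v w

namespace Pool.Agent.Y107

open Pool.Agent.H914 Pool.Agent.H914.VarClass Pool.Agent.H914.VarClass.Obj Pool.Agent.W492.BB
  Pool.Agent.W550.Corr Pool.Agent.TH133

set_option linter.unusedSectionVars false

variable {k : Type u} [Field k] {𝒱 : VarClass k} {C : TheoryData.{u, v, 0} 𝒱 ℚ}
  [hC : IsChowProj C] {X Y T : 𝒱.Obj}

/-! ### Algebraically trivial classes -/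

lemma curveCycle_pos {s : ℕ} {Y : 𝒱.Obj} {y : C.A Y} (h : CurveCycle C s Y y) : 1 ≤ s := by
  cases h <;> omega

lemma curveCycle_one {Y : 𝒱.Obj} {y : C.A Y} (h : CurveCycle C 1 Y y) :
    Y.dim = 1 ∧ C.Deg 1 y ∧ HasDegree C y 0 := by
  cases h with
  | one _ _ hT hc hd => exact ⟨hT, hc, hd⟩
  | cons s T Y c y hT hc hd hy => exact absurd (curveCycle_pos hy) (by omega)

include hC

lemma curveCycle_mem {s : ℕ} {Y : 𝒱.Obj} {y : C.A Y} (h : CurveCycle C s Y y) :
    y ∈ C.gr Y Y.dim := by
  induction h with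
  | one T c hT hc hd =>
    rw [hT]
    exact hc
  | cons s T Y c y hT hc hd hy ih =>
    have := ext_mem' (C := C) (X := T) (Y := Y) hc ih
    rw [dim_prod, hT]
    push_cast
    exact this

/-- `A^s CH^j(X)` is contained in `CH^j(X)`. -/
lemma algPower_le (X : 𝒱.Obj) (s j : ℕ) : algPower C X s j ≤ C.gr X j := by
  rw [algPower, Submodule.span_le]
  rintro z ⟨Y, y, Γ, hy, hΓ, rfl⟩
  have h1 := curveCycle_mem hy
  have h2 : Γ ∈ C.gr (Y.prod X) (Y.dim + ((j : ℤ) - Y.dim)) := by
    rw [add_sub_cancel]; exact hΓ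
  have := act_mem' C h2 h1
  rwa [add_sub_cancel] at this

/-- Correspondences preserve the powers of algebraic equivalence. -/
lemma act_algPower {s j j' : ℕ} {Δ : C.A (X.prod Y)} (hΔ : Δ ∈ C.gr (X.prod Y) (X.dim + ((j' : ℤ) - j)))
    {x : C.A X} (hx : x ∈ algPower C X s j) : C.act Δ x ∈ algPower C Y s j' := by
  rw [algPower] at hx
  induction hx using Submodule.span_induction with
  | mem x hx =>
    obtain ⟨Z, y, Γ, hy, hΓ, rfl⟩ := hx
    rw [← C.act_comp]
    refine Submodule.subset_span ⟨Z, y, C.comp Γ Δ, hy, ?_, rfl⟩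
    have h2 : Γ ∈ C.gr (Z.prod X) (Z.dim + ((j : ℤ) - Z.dim)) := by
      rw [add_sub_cancel]; exact hΓ
    have := comp_mem C h2 hΔ
    have e : (Z.dim : ℤ) + (((j : ℤ) - Z.dim) + ((j' : ℤ) - j)) = j' := by ring
    rwa [e] at this
  | zero => rw [TheoryData.act_map_zero]; exact Submodule.zero_mem _
  | add x y _ _ h1 h2 => rw [act_map_add]; exact Submodule.add_mem _ h1 h2
  | smul q x _ h => rw [act_map_smul]; exact Submodule.smul_mem _ _ h

lemma cograph_fst_mem (X T : 𝒱.Obj) :
    C.cograph (fst X T) ∈ C.gr (X.prod (X.prod T)) X.dim := by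
  have h := C.push_mem (Obj.lift (fst X T) (𝟙 (X.prod T))) (C.one_mem (X.prod T))
  have e1 : (0 : ℤ) + 1 * (((X.prod (X.prod T)).dim : ℤ) - ((X.prod T).dim : ℤ)) = X.dim := by
    rw [dim_prod X (X.prod T)]; push_cast; ring
  rwa [e1] at h

lemma ext_one_algPower {s j : ℕ} {x : C.A X} (hx : x ∈ algPower C X s j) :
    C.ext x (1 : C.A T) ∈ algPower C (X.prod T) s j := by
  have h1 : C.ext x (1 : C.A T) = C.act (C.cograph (fst X T)) x := by
    rw [C.act_cograph, TheoryData.ext, map_one, mul_one]
  rw [h1]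
  refine act_algPower (j := j) (j' := j) ?_ hx
  rw [sub_self, add_zero]
  exact cograph_fst_mem X T

/-! ### The components of the product decomposition -/

variable {K : Type w} [Field K] {H : WeilTheoryData.{u, v, w} C K} [hH : IsWeilProj H]

include hH

/-- A class is killed by the `n`-th projector of the product decomposition if and only if it is killed
by all `π i ⊗ ρ m` with `i + m = n`. -/
lemma act_prodDec_iff {π : ℕ → C.A (X.prod X)} {ρ : ℕ → C.A (T.prod T)} (hπ : IsCK H X π)
    (hρ : IsCK H T ρ) (n : ℕ) (z : C.A (X.prod T)) :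
    C.act (prodDec C π ρ n) z = 0 ↔ ∀ i m, i + m = n → C.act (tens C (π i) (ρ m)) z = 0 := by
  constructor
  · rintro h i m rfl
    have h1 : C.comp (prodDec C π ρ (i + m)) (tens C (π i) (ρ m)) = tens C (π i) (ρ m) := by
      unfold prodDec
      rw [sum_comp, Finset.sum_eq_single i]
      · rw [tens_comp', hπ.idem, Nat.add_sub_cancel_left, hρ.idem]
      · intro l _ hl
        rw [tens_comp', hπ.orth l i hl, tens_zero_left]
      · intro h2
        exact absurd (Finset.mem_range.2 (by omega)) h2
    rw [← h1, C.act_comp, h, TheoryData.act_map_zero]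
  · intro h
    unfold prodDec
    rw [act_sum]
    refine Finset.sum_eq_zero fun i hi => ?_
    rw [Finset.mem_range] at hi
    exact h i (n - i) (by omega)

lemma satB_prodDec_iff {π : ℕ → C.A (X.prod X)} {ρ : ℕ → C.A (T.prod T)} (hπ : IsCK H X π)
    (hρ : IsCK H T ρ) : SatB C (prodDec C π ρ) ↔ ∀ (j i m : ℕ) (z : C.A (X.prod T)), C.Deg j z →
      2 * j < i + m → C.act (tens C (π i) (ρ m)) z = 0 := by
  constructor
  · intro h j i m z hz hj
    exact (act_prodDec_iff hπ hρ (i + m) z).1 (h j (i + m) z hz hj) i m rfl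
  · intro h j n z hz hj
    rw [act_prodDec_iff hπ hρ]
    rintro i m rfl
    exact h j i m z hz hj

/-! ### From the product to `X` -/

lemma act_tens_ext_one (π : ℕ → C.A (X.prod X)) {c : C.A T} (hc : IsPointedCurve C T c) (i : ℕ)
    (x : C.A X) : C.act (tens C (π i) (curveCK C T c 0)) (C.ext x 1) = C.ext (C.act (π i) x) 1 := by
  rw [act_tens_ext C (π i) (curveCK C T c 0) (fun f c => ch_comm C _ _), act_rho0_one hc]

/-- (B) for `X × T` gives (B) for `X`. -/
lemma satB_of_prod {π : ℕ → C.A (X.prod X)} (hπ : IsCK H X π) {c : C.A T}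
    (hc : IsPointedCurve C T c) (h : SatB C (prodDec C π (curveCK C T c))) : SatB C π := by
  intro j i x hx hj
  have h1 := (satB_prodDec_iff hπ (isCK_curve (H := H) hc)).1 h j i 0 (C.ext x 1)
    (by simpa using ext_mem' (C := C) (X := X) (Y := T) hx (C.one_mem T)) (by omega)
  rw [act_tens_ext_one (H := H) π hc] at h1
  exact ext_one_eq_zero hc.deg h1

/-- (B) for all `X × T` gives the algebraic part of (D) for `X`. -/
lemma satDalg_of_prod {π : ℕ → C.A (X.prod X)} (hπ : IsCK H X π)
    (h : ∀ (T : 𝒱.Obj) (c : C.A T), IsPointedCurve C T c →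
      SatB C (prodDec C π (curveCK C T c))) : SatDalg C π := by
  intro j x hx
  rw [algPower] at hx
  induction hx using Submodule.span_induction with
  | mem x hx =>
    obtain ⟨T, w, Γ, hw, hΓ, rfl⟩ := hx
    obtain ⟨hT, hw1, hw0⟩ := curveCycle_one hw
    obtain ⟨c, hc⟩ := exists_pointed (C := C) T hT
    have h1 := (satB_prodDec_iff hπ (isCK_curve (H := H) hc)).1 (h T c hc) j (2 * j) 1 (tp C Γ)
      (tp_mem C hΓ) (by omega)
    have h2 := act_tp_tens (π (2 * j)) (curveCK C T c 1) (tp C Γ) w
    rw [h1, tp_zero, C.act_zero, tp_tp, tp_rho1, act_rho1_w hc hw1 hw0, zero_smul, sub_zero] at h2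
    exact h2.symm
  | zero => exact TheoryData.act_map_zero _ _
  | add x y _ _ h1 h2 => rw [act_map_add, h1, h2, add_zero]
  | smul q x _ h => rw [act_map_smul, h, smul_zero]

/-! ### From `X` to the product -/

/-- Vertical classes are killed by `π i ⊗ ρ` if `i > 2 (j - 1)`. -/
lemma act_tens_vertical {π : ℕ → C.A (X.prod X)} (hB : SatB C π) (ρ : C.A (T.prod T)) {j i : ℕ}
    (hi : 2 * j < i + 2) {z : C.A (X.prod T)} (hz : z ∈ vertical C X T j) :
    C.act (tens C (π i) ρ) z = 0 := by
  rw [vertical] at hz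
  induction hz using Submodule.span_induction with
  | mem x hx =>
    obtain ⟨y, w, hy, hw, rfl⟩ := hx
    rw [act_tens_ext C (π i) ρ (fun f c => ch_comm C _ _)]
    have h3 : C.act (π i) y = 0 := by
      rcases Nat.eq_zero_or_pos j with hj | hj
      · subst hj
        have hy' : y ∈ C.gr X (((0 : ℕ) : ℤ) - 1) := hy
        rw [C.gr_neg X _ (by simp)] at hy'
        rw [(Submodule.mem_bot _).1 hy', TheoryData.act_map_zero]
      · refine hB (j - 1) i y ?_ (by omega)
        have : ((j - 1 : ℕ) : ℤ) = (j : ℤ) - 1 := by omega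
        rw [this]
        exact hy
    rw [h3, TheoryData.ext_zero_left]
  | zero => exact TheoryData.act_map_zero _ _
  | add x y _ _ h1 h2 => rw [act_map_add, h1, h2, add_zero]
  | smul q x _ h => rw [act_map_smul, h, smul_zero]

/-- A class on `X × T` of the form `(π i ⊗ ρ m)_* z` which vanishes on the fibres vanishes. -/
lemma act_tens_eq_zero {π : ℕ → C.A (X.prod X)} (hG : FibrewiseZero C) (hπ : IsCK H X π)
    (hB : SatB C π) {ρ : ℕ → C.A (T.prod T)} (hρ : IsCK H T ρ) (hT : T.dim = 1) {j i m : ℕ}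
    {z : C.A (X.prod T)} (hz : C.Deg j z) (hi : 2 * j < i + 2)
    (h : ∀ w : C.A T, C.Deg 1 w →
      C.act (π i) (C.act (tp C z) (C.act (tp C (ρ m)) w)) = 0) :
    C.act (tens C (π i) (ρ m)) z = 0 := by
  have hdeg : tens C (π i) (ρ m) ∈ C.gr ((X.prod T).prod (X.prod T)) (X.prod T).dim := by
    have := tens_mem C (hπ.deg i) (hρ.deg m)
    rw [dim_prod]
    push_cast
    exact this
  have hz' : C.act (tens C (π i) (ρ m)) z ∈ C.gr (X.prod T) j := act_mem0 C hdeg hz
  have h1 := hG X T j _ hT hz' (fun w hw => by rw [act_tp_tens]; exact h w hw)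
  have h2 : C.act (tens C (π i) (ρ m)) (C.act (tens C (π i) (ρ m)) z) =
      C.act (tens C (π i) (ρ m)) z := by
    rw [← C.act_comp, tens_comp', hπ.idem, hρ.idem]
  rw [← h2]
  exact act_tens_vertical (H := H) hB _ hi h1

/-- (B) and the algebraic part of (D) for `X` give (B) for `X × T`. -/
lemma satB_prod {π : ℕ → C.A (X.prod X)} (hG : FibrewiseZero C) (hπ : IsCK H X π)
    (hB : SatB C π) (hD : SatDalg C π) {c : C.A T} (hc : IsPointedCurve C T c) :
    SatB C (prodDec C π (curveCK C T c)) := by
  have hρ := isCK_curve (H := H) hc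
  rw [satB_prodDec_iff hπ hρ]
  intro j i m z hz hj
  have hmem : ∀ w : C.A T, C.Deg 1 w → C.act (tp C z) w ∈ C.gr X j := by
    intro w hw
    have := act_mem_curve hc.dim hz hw
    rwa [add_sub_cancel_right] at this
  rcases Nat.lt_or_ge m 3 with hm | hm
  · have hm' : m = 0 ∨ m = 1 ∨ m = 2 := by omega
    apply act_tens_eq_zero hG hπ hB hρ hc.dim hz (by omega)
    intro w hw
    rcases hm' with rfl | rfl | rfl
    · obtain ⟨q, hq⟩ := exists_hasDegree (C := C) (x := w) (by rw [hc.dim]; exact hw)
      rw [tp_rho0, act_rho2_w hc hq, act_map_smul, act_map_smul,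
        hB j i _ (hmem c hc.mem) (by omega), smul_zero]
    · obtain ⟨h1, h2⟩ := rho1_w_mem hc hw
      rw [tp_rho1]
      rcases Nat.lt_or_ge (2 * j) i with hi | hi
      · exact hB j i _ (hmem _ h1) hi
      · obtain rfl : i = 2 * j := by omega
        apply hD
        exact Submodule.subset_span ⟨T, _, tp C z, CurveCycle.one T _ hc.dim h1 h2,
          tp_mem C hz, rfl⟩
    · rw [tp_rho2, act_rho0_w hc hw, TheoryData.act_map_zero, TheoryData.act_map_zero]
  · rw [rho3 C T c m hm, tens_zero_right, C.act_zero]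

/-- Vertical classes restrict to zero on the fibres. -/
lemma vertical_fibre {c : C.A T} (hc : IsPointedCurve C T c) {j : ℕ} {z : C.A (X.prod T)}
    (hz : z ∈ vertical C X T j) : C.act (tp C z) c = 0 := by
  rw [vertical] at hz
  induction hz using Submodule.span_induction with
  | mem x hx =>
    obtain ⟨y, w, hy, hw, rfl⟩ := hx
    rw [tp_ext, act_ext' (C := C) (v := w) (x := c) (α := y) (q := 0)
      (by rw [mul_self_zero hc.dim hw hc.mem]; exact hasDegree_zero), zero_smul]
  | zero => rw [tp_zero, C.act_zero]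
  | add x y _ _ h1 h2 => rw [tp_add, C.act_add, h1, h2, add_zero]
  | smul q x _ h =>
    rw [tp_smul, ← actB_apply, map_smul, LinearMap.smul_apply, actB_apply, h, smul_zero]

lemma fibre_ext_one {c : C.A T} (hc : IsPointedCurve C T c) (x : C.A X) :
    C.act (tp C (C.ext x (1 : C.A T))) c = x := by
  rw [tp_ext, act_ext' (C := C) (v := (1 : C.A T)) (x := c) (α := x) (q := 1)
    (by rw [one_mul]; exact hc.deg), one_smul]

lemma tens_dg_eq {c : C.A T} (Γ : C.A (X.prod X)) : tens C Γ (dg C T) =
    tens C Γ (curveCK C T c 0) + tens C Γ (curveCK C T c 1) + tens C Γ (curveCK C T c 2) := by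
  rw [← tensL_apply, ← tensL_apply, ← tensL_apply, ← tensL_apply, ← map_add, ← map_add, rho0,
    rho1, rho2]
  congr 1
  abel

lemma comp_dg_tens {π : ℕ → C.A (X.prod X)} (hπ : IsCK H X π) (i : ℕ) (ρ : C.A (T.prod T)) :
    C.comp (tens C (π i) (dg C T)) (tens C (π i) ρ) = tens C (π i) ρ := by
  rw [tens_comp', hπ.idem, dg_comp]

/-- **(B) for the products with all curves, in terms of the generic fibres.** -/
theorem productsB_iff_genericB {π : ℕ → C.A (X.prod X)} (hT : ∃ T : 𝒱.Obj, T.dim = 1)
    (hπ : IsCK H X π) : ProductsB C π ↔ GenericB C π := by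
  constructor
  · intro h T c hc j z hz
    have h1 := (satB_prodDec_iff hπ (isCK_curve (H := H) hc)).1 (h T c hc) j
    constructor
    · intro i hi
      rw [tens_dg_eq (H := H) (c := c), C.act_add, C.act_add, h1 i 0 z hz (by omega),
        h1 i 1 z hz (by omega), h1 i 2 z hz (by omega), add_zero, add_zero]
      exact Submodule.zero_mem _
    · rw [tens_dg_eq (H := H) (c := c), C.act_add, C.act_add, h1 _ 1 z hz (by omega),
        h1 _ 2 z hz (by omega), add_zero, add_zero, rho0, act_tens_ext_right, sub_self]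
      exact Submodule.zero_mem _
  · intro h
    have hB : SatB C π := by
      obtain ⟨T, hT⟩ := hT
      obtain ⟨c, hc⟩ := exists_pointed (C := C) T hT
      intro j i x hx hi
      have h1 := (h T c hc j (C.ext x 1)
        (by simpa using ext_mem' (C := C) (X := X) (Y := T) hx (C.one_mem T))).1 i hi
      rw [act_tens_ext C (π i) _ (fun f c => ch_comm C _ _), act_dg] at h1
      have h2 := vertical_fibre (H := H) hc h1
      rwa [fibre_ext_one (H := H) hc] at h2
    intro T c hc
    have hρ := isCK_curve (H := H) hc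
    rw [satB_prodDec_iff hπ hρ]
    intro j i m z hz hj
    have hmem : ∀ w : C.A T, C.Deg 1 w → C.act (tp C z) w ∈ C.gr X j := by
      intro w hw
      have := act_mem_curve hc.dim hz hw
      rwa [add_sub_cancel_right] at this
    rcases Nat.lt_or_ge m 3 with hm | hm
    · have hm' : m = 0 ∨ m = 1 ∨ m = 2 := by omega
      rcases hm' with rfl | rfl | rfl
      · rw [rho0, act_tens_ext_right, hB j i _ (hmem c hc.mem) (by omega),
          TheoryData.ext_zero_left]
      · obtain ⟨h1, h2⟩ := h T c hc j z hz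
        rw [← comp_dg_tens hπ, C.act_comp]
        rcases Nat.lt_or_ge (2 * j) i with hi | hi
        · exact act_tens_vertical (H := H) hB _ (by omega) (h1 i hi)
        · obtain rfl : i = 2 * j := by omega
          have h3 := act_tens_vertical (H := H) hB (curveCK C T c 1) (i := 2 * j) (by omega) h2
          rw [act_map_sub, act_tens_ext C (π (2 * j)) _ (fun f c => ch_comm C _ _),
            act_rho1_one hc, TheoryData.ext_zero_right, sub_zero] at h3
          exact h3
      · rw [rho2, act_tens_ext_right]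
        have h4 : C.act (tp C z) 1 ∈ C.gr X ((j : ℤ) - 1) := by
          have := act_mem_curve hc.dim hz (C.one_mem T)
          rwa [add_zero] at this
        have h3 : C.act (π i) (C.act (tp C z) 1) = 0 := by
          rcases Nat.eq_zero_or_pos j with hj0 | hj0
          · subst hj0
            rw [C.gr_neg X _ (by simp)] at h4
            rw [(Submodule.mem_bot _).1 h4, TheoryData.act_map_zero]
          · refine hB (j - 1) i _ ?_ (by omega)
            have : ((j - 1 : ℕ) : ℤ) = (j : ℤ) - 1 := by omega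
            rw [this]
            exact h4
        rw [h3, TheoryData.ext_zero_left]
    · rw [rho3 C T c m hm, tens_zero_right, C.act_zero]

/-- (B) for the products with all curves gives (B) and the algebraic part of (D). -/
theorem of_productsB {π : ℕ → C.A (X.prod X)} (hT : ∃ T : 𝒱.Obj, T.dim = 1)
    (hπ : IsCK H X π) (h : ProductsB C π) : SatB C π ∧ SatDalg C π := by
  obtain ⟨T, hT⟩ := hT
  obtain ⟨c, hc⟩ := exists_pointed (C := C) T hT
  exact ⟨satB_of_prod hπ hc (h T c hc), satDalg_of_prod hπ h⟩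

/-! ### Products of curves -/

lemma CurveProd.isCK {r : ℕ} {X : 𝒱.Obj} {π : ℕ → C.A (X.prod X)} (h : CurveProd C r X π) :
    IsCK H X π := by
  induction h with
  | one T c h => exact isCK_curve h
  | mul r X π T c hX h ih => exact ih.prod (isCK_curve h)

omit hH in
lemma satB_curve {c : C.A T} (hc : IsPointedCurve C T c) : SatB C (curveCK C T c) := by
  intro j i x hx hj
  rcases Nat.lt_or_ge i 3 with hi | hi
  · obtain rfl : j = 0 := by omega
    obtain ⟨q, rfl⟩ := hC.gr_zero T x hx
    rw [act_map_smul]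
    have hi' : i = 1 ∨ i = 2 := by omega
    rcases hi' with rfl | rfl
    · rw [act_rho1_one hc, smul_zero]
    · rw [act_rho2_one hc, smul_zero]
  · rw [rho3 C T c i hi, C.act_zero]

/-- The algebraic part of (D) for `X × T` gives it for `X`. -/
lemma satDalg_descend {π : ℕ → C.A (X.prod X)} (hπ : IsCK H X π) {c : C.A T}
    (hc : IsPointedCurve C T c) (h : SatDalg C (prodDec C π (curveCK C T c))) : SatDalg C π := by
  intro j x hx
  have h1 := h j (C.ext x 1) (ext_one_algPower hx)
  have h2 := (act_prodDec_iff hπ (isCK_curve (H := H) hc) _ _).1 h1 (2 * j) 0 (by omega)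
  rw [act_tens_ext_one (H := H) π hc] at h2
  exact ext_one_eq_zero hc.deg h2

/-- (B) for the products of `r + 1` curves gives the algebraic part of (D) for those of `r`. -/
theorem curvesDalg_of_curvesB {r : ℕ} (h : CurvesB C (r + 1)) : CurvesDalg C r :=
  fun X π hX => satDalg_of_prod (H := H) hX.isCK
    fun T c hc => h _ _ (CurveProd.mul r X π T c hX hc)

/-- The converse over a universal domain. -/
theorem curvesB_of_curvesDalg (hG : FibrewiseZero C) (hT : ∃ T : 𝒱.Obj, T.dim = 1) {r : ℕ} (hr : 1 ≤ r)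
    (h : CurvesDalg C r) : CurvesB C (r + 1) := by
  obtain ⟨T₀, hT₀⟩ := hT
  obtain ⟨c₀, hc₀⟩ := exists_pointed (C := C) T₀ hT₀
  induction r, hr using Nat.le_induction with
  | base =>
    intro Y σ hY
    cases hY with
    | mul _ X π T c hX hc =>
      refine satB_prod (H := H) hG hX.isCK ?_ (h X π hX) hc
      cases hX with
      | one T' c' hc' => exact satB_curve hc'
      | mul r X π T c hX h => cases hX
  | succ r hr ih =>
    intro Y σ hY
    cases hY with
    | mul _ X π T c hX hc =>
      refine satB_prod (H := H) hG hX.isCK ?_ (h X π hX) hc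
      refine ih (fun X' π' hX' => ?_) X π hX
      exact satDalg_descend (H := H) hX'.isCK hc₀
        (h _ _ (CurveProd.mul r X' π' T₀ c₀ hX' hc₀))

end Pool.Agent.Y107
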