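import Pool.Agent.Y107.CurveMain

/-!
# Products with curves and the powers of algebraic equivalence
-/

open CategoryTheory AlgebraicGeometry

universe u v w

namespace Pool.Agent.Y107

open Pool.Agent.H914 Pool.Agent.H914.VarClass Pool.Agent.H914.VarClass.Obj Pool.Agent.W492.BB
  Pool.Agent.W550.Corr Pool.Agent.TH133

set_option linter.unusedSectionVars false

variable {k : Type u} [Field k] {𝒱 : VarClass k} {C : TheoryData.{u, v, 0} 𝒱 ℚ}
  [hC : IsChowProj C] {X Y T : 𝒱.Obj}

/-- `π i` acts as zero on `A^s CH^j(X)` for `i > 2 j - s`. -/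
def SatPow (C : TheoryData.{u, v, 0} 𝒱 ℚ) {X : 𝒱.Obj} (π : ℕ → C.A (X.prod X)) (s : ℕ) : Prop :=
  ∀ (j i : ℕ) (x : C.A X), x ∈ algPower C X s j → 2 * j < i + s → C.act (π i) x = 0

/-- `(T × Y) × X ⟶ Y × (X × T)` -/
noncomputable def kA (T Y X : 𝒱.Obj) : (T.prod Y).prod X ⟶ Y.prod (X.prod T) :=
  Obj.lift (fst (T.prod Y) X ≫ snd T Y) (Obj.lift (snd (T.prod Y) X) (fst (T.prod Y) X ≫ fst T Y))

/-- `Y × (X × T) ⟶ (T × Y) × X` -/
noncomputable def kB (T Y X : 𝒱.Obj) : Y.prod (X.prod T) ⟶ (T.prod Y).prod X :=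
  Obj.lift (Obj.lift (snd Y (X.prod T) ≫ snd X T) (fst Y (X.prod T))) (snd Y (X.prod T) ≫ fst X T)

lemma kA_kB (T Y X : 𝒱.Obj) : kA T Y X ≫ kB T Y X = 𝟙 _ := by
  apply prod_ext
  · apply prod_ext <;> simp [kA, kB, comp_lift]
  · simp [kA, kB, comp_lift]

lemma kB_kA (T Y X : 𝒱.Obj) : kB T Y X ≫ kA T Y X = 𝟙 _ := by
  apply prod_ext
  · simp [kA, kB, comp_lift]
  · apply prod_ext <;> simp [kA, kB, comp_lift]

include hC

/-- Evaluation of a family of correspondences. -/
lemma act_tp_act (Γ : C.A (Y.prod (X.prod T))) (y : C.A Y) (w : C.A T) :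
    C.act (tp C (C.act Γ y)) w = C.act (C.pull (kA T Y X) Γ) (C.ext w y) := by
  have e1 : kA T Y X ≫ snd Y (X.prod T) ≫ fst X T = snd (T.prod Y) X := by simp [kA]
  have e2 : kA T Y X ≫ fst Y (X.prod T) = fst (T.prod Y) X ≫ snd T Y := by simp [kA]
  have e3 : kA T Y X ≫ snd Y (X.prod T) ≫ snd X T = fst (T.prod Y) X ≫ fst T Y := by simp [kA]
  rw [act_tp, C.act_apply Γ y, ← C.proj_right, ← C.push_comp, ← C.pull_comp,
    push_model C (kA T Y X) (kB T Y X) (kA_kB T Y X) (kB_kA T Y X), e1,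
    map_mul (C.pull (kA T Y X)), map_mul (C.pull (kA T Y X)),
    ← C.pull_comp, ← C.pull_comp, e2, e3, C.act_apply, TheoryData.ext,
    map_mul (C.pull (fst (T.prod Y) X)), ← C.pull_comp,
    ← C.pull_comp, mul_assoc, ch_comm C (C.pull (fst (T.prod Y) X ≫ snd T Y) y)]

lemma act_tp_algPower {s j : ℕ} {z : C.A (X.prod T)} (hz : z ∈ algPower C (X.prod T) s j)
    {w : C.A T} (hT : T.dim = 1) (hw : C.Deg 1 w) (hd : HasDegree C w 0) :
    C.act (tp C z) w ∈ algPower C X (s + 1) j := by
  rw [algPower] at hz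
  induction hz using Submodule.span_induction with
  | mem x hx =>
    obtain ⟨Y, y, Γ, hy, hΓ, rfl⟩ := hx
    rw [act_tp_act]
    exact Submodule.subset_span ⟨_, _, _, CurveCycle.cons s T Y w y hT hw hd hy,
      C.pull_mem _ hΓ, rfl⟩
  | zero => rw [tp_zero, C.act_zero]; exact Submodule.zero_mem _
  | add x y _ _ h1 h2 => rw [tp_add, C.act_add]; exact Submodule.add_mem _ h1 h2
  | smul q x _ h =>
    rw [tp_smul, ← actB_apply, map_smul, LinearMap.smul_apply, actB_apply]
    exact Submodule.smul_mem _ _ h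

lemma graph_fst_mem (X T : 𝒱.Obj) : C.graph (fst X T) ∈ C.gr ((X.prod T).prod X) X.dim := by
  have h := C.push_mem (Obj.lift (𝟙 (X.prod T)) (fst X T)) (C.one_mem (X.prod T))
  have e1 : (0 : ℤ) + 1 * ((((X.prod T).prod X).dim : ℤ) - ((X.prod T).dim : ℤ)) = X.dim := by
    rw [dim_prod (X.prod T) X]; push_cast; ring
  rwa [e1] at h

lemma mulCorr_mem {i : ℤ} {a : C.A X} (ha : a ∈ C.gr X i) :
    C.mulCorr a ∈ C.gr (X.prod X) (X.dim + i) := by
  have h := C.push_mem (Obj.lift (𝟙 X) (𝟙 X)) ha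
  have e1 : i + 1 * (((X.prod X).dim : ℤ) - (X.dim : ℤ)) = X.dim + i := by
    rw [dim_prod]; push_cast; ring
  rwa [e1] at h

/-- Restriction to a fibre. -/
lemma fibre_algPower {s j : ℕ} {z : C.A (X.prod T)} (hz : z ∈ algPower C (X.prod T) s j)
    {c : C.A T} (hc : IsPointedCurve C T c) : C.act (tp C z) c ∈ algPower C X s j := by
  have h1 : C.act (tp C z) c =
      C.act (C.comp (C.mulCorr (C.pull (snd X T) c)) (C.graph (fst X T))) z := by
    rw [C.act_comp, C.act_mulCorr, C.act_graph, act_tp, ch_comm C]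
  rw [h1]
  refine act_algPower (j := j) (j' := j) ?_ hz
  have h2 := mulCorr_mem (C := C) (C.pull_mem (snd X T) hc.mem)
  have h3 : C.graph (fst X T) ∈ C.gr ((X.prod T).prod X) ((X.prod T).dim + (-1)) := by
    have := graph_fst_mem (C := C) X T
    rw [dim_prod, hc.dim]
    push_cast
    rwa [show (X.dim : ℤ) + 1 + -1 = X.dim by ring]
  have := comp_mem C h2 h3
  rwa [show (1 : ℤ) + -1 = (j : ℤ) - j by ring] at this

/-- Push-forward along the projection. -/
lemma push_algPower {s j : ℕ} {z : C.A (X.prod T)}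
    (hz : z ∈ algPower C (X.prod T) s (j + 1)) (hT : T.dim = 1) :
    C.act (tp C z) 1 ∈ algPower C X s j := by
  have h1 : C.act (tp C z) 1 = C.act (C.graph (fst X T)) z := by
    rw [C.act_graph, act_tp, map_one, mul_one]
  rw [h1]
  refine act_algPower (j := j + 1) (j' := j) ?_ hz
  have := graph_fst_mem (C := C) X T
  rw [dim_prod, hT]
  push_cast
  rwa [show (X.dim : ℤ) + 1 + ((j : ℤ) - (j + 1)) = X.dim by ring]

variable {K : Type w} [Field K] {H : WeilTheoryData.{u, v, w} C K} [hH : IsWeilProj H]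

include hH

lemma algPower_le_ckFil_iff {π : ℕ → C.A (X.prod X)} (hπ : IsCK H X π) (s : ℕ) :
    (∀ j, algPower C X s j ≤ ckFil C π j s) ↔ SatPow C π s := by
  constructor
  · intro h j i x hx hi
    have h1 := h j hx
    rw [hπ.mem_ckFil] at h1
    exact h1.2 i (by omega)
  · intro h j x hx
    rw [hπ.mem_ckFil]
    exact ⟨algPower_le X s j hx, fun i hi => h j i x hx (by omega)⟩

/-- The statement for `X × T` gives the statement for `X`. -/
lemma satPow_descend {π : ℕ → C.A (X.prod X)} (hπ : IsCK H X π) {c : C.A T}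
    (hc : IsPointedCurve C T c) {s : ℕ} (h : SatPow C (prodDec C π (curveCK C T c)) s) :
    SatPow C π s := by
  intro j i x hx hj
  have h1 := h j i (C.ext x 1) (ext_one_algPower hx) hj
  have h2 := (act_prodDec_iff hπ (isCK_curve (H := H) hc) _ _).1 h1 i 0 (by omega)
  rw [act_tens_ext_one (H := H) π hc] at h2
  exact ext_one_eq_zero hc.deg h2

/-- The statement for the `s`-th power and all `X × T` gives the statement for the next power. -/
lemma satPow_succ {π : ℕ → C.A (X.prod X)} (hπ : IsCK H X π) {s : ℕ} (hs : 1 ≤ s)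
    (h : ∀ (T : 𝒱.Obj) (c : C.A T), IsPointedCurve C T c →
      SatPow C (prodDec C π (curveCK C T c)) s) : SatPow C π (s + 1) := by
  intro j i x hx hj
  rw [algPower] at hx
  induction hx using Submodule.span_induction with
  | mem x hx =>
    obtain ⟨Y', y', Γ₀, hy', hΓ, rfl⟩ := hx
    cases hy' with
    | one => omega
    | cons s T Y w y hT hw hd hy =>
      obtain ⟨c, hc⟩ := exists_pointed (C := C) T hT
      have h0 : C.pull (kA T Y X) (C.pull (kB T Y X) Γ₀) = Γ₀ := by
        rw [← C.pull_comp, kA_kB, C.pull_id]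
      have hz : C.act (C.pull (kB T Y X) Γ₀) y ∈ algPower C (X.prod T) s j :=
        Submodule.subset_span ⟨Y, y, _, hy, C.pull_mem _ hΓ, rfl⟩
      have h1 := h T c hc j (i + 1) _ hz (by omega)
      have h2 := (act_prodDec_iff hπ (isCK_curve (H := H) hc) _ _).1 h1 i 1 rfl
      have h3 := act_tp_tens (π i) (curveCK C T c 1) (C.act (C.pull (kB T Y X) Γ₀) y) w
      rw [h2, tp_zero, C.act_zero, tp_rho1, act_rho1_w hc hw hd, zero_smul, sub_zero, act_tp_act,
        h0] at h3
      exact h3.symm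
  | zero => exact TheoryData.act_map_zero _ _
  | add x y _ _ h1 h2 => rw [act_map_add, h1, h2, add_zero]
  | smul q x _ h => rw [act_map_smul, h, smul_zero]

lemma satPow_one_iff {π : ℕ → C.A (X.prod X)} (hB : SatB C π) : SatPow C π 1 ↔ SatDalg C π := by
  constructor
  · intro h j x hx
    exact h j (2 * j) x hx (by omega)
  · intro h j i x hx hi
    rcases Nat.lt_or_ge (2 * j) i with h1 | h1
    · exact hB j i x (algPower_le X 1 j hx) h1
    · obtain rfl : i = 2 * j := by omega
      exact h j x hx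

lemma satB_of_bTimes (hT : ∃ T : 𝒱.Obj, T.dim = 1) (r : ℕ) : ∀ {X : 𝒱.Obj}
    {π : ℕ → C.A (X.prod X)}, IsCK H X π → BTimes C r X π → SatB C π := by
  induction r with
  | zero => exact fun _ h => h
  | succ r ih =>
    intro X π hπ h
    obtain ⟨T, hT⟩ := hT
    obtain ⟨c, hc⟩ := exists_pointed (C := C) T hT
    exact satB_of_prod hπ hc (ih (hπ.prod (isCK_curve hc)) (h T c hc))

/-- **(B) for the products with `r` curves and the powers of algebraic equivalence.** -/
theorem satPow_of_bTimes (hT : ∃ T : 𝒱.Obj, T.dim = 1) (r : ℕ) : ∀ {X : 𝒱.Obj}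
    {π : ℕ → C.A (X.prod X)}, IsCK H X π → BTimes C r X π → ∀ s, 1 ≤ s → s ≤ r →
      SatPow C π s := by
  induction r with
  | zero => intro X π _ _ s h1 h2; omega
  | succ r ih =>
    intro X π hπ h s h1 h2
    rcases Nat.lt_or_ge s 2 with hs | hs
    · obtain rfl : s = 1 := by omega
      rw [satPow_one_iff (H := H) (satB_of_bTimes hT (r + 1) hπ h)]
      exact satDalg_of_prod hπ fun T c hc =>
        satB_of_bTimes hT r (hπ.prod (isCK_curve hc)) (h T c hc)
    · obtain ⟨s, rfl⟩ := Nat.exists_eq_add_of_le (show 1 ≤ s by omega)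
      rw [add_comm 1 s]
      exact satPow_succ hπ (by omega) fun T c hc =>
        ih (hπ.prod (isCK_curve hc)) (h T c hc) s (by omega) (by omega)

/-- The first power for `X × T`, over a universal domain. -/
lemma satPow_one_prod (hG : FibrewiseZero C) {π : ℕ → C.A (X.prod X)} (hπ : IsCK H X π)
    (hB : SatB C π) (h1 : SatPow C π 1) (h2 : SatPow C π 2) {c : C.A T}
    (hc : IsPointedCurve C T c) : SatPow C (prodDec C π (curveCK C T c)) 1 := by
  have hρ := isCK_curve (H := H) hc
  intro j n z hz hj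
  rw [act_prodDec_iff hπ hρ]
  rintro i m rfl
  have hzj : z ∈ C.gr (X.prod T) j := algPower_le _ _ _ hz
  rcases Nat.lt_or_ge m 3 with hm | hm
  · have hm' : m = 0 ∨ m = 1 ∨ m = 2 := by omega
    rcases hm' with rfl | rfl | rfl
    · rw [rho0, act_tens_ext_right, h1 j i _ (fibre_algPower hz hc) (by omega),
        TheoryData.ext_zero_left]
    · apply act_tens_eq_zero hG hπ hB hρ hc.dim hzj (by omega)
      intro w hw
      obtain ⟨h3, h4⟩ := rho1_w_mem hc hw
      rw [tp_rho1]
      exact h2 j i _ (act_tp_algPower hz hc.dim h3 h4) (by omega)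
    · rw [rho2, act_tens_ext_right]
      have h3 : C.act (π i) (C.act (tp C z) 1) = 0 := by
        rcases j with _ | j
        · have h4 := act_mem_curve hc.dim hzj (C.one_mem T)
          rw [C.gr_neg X _ (by simp)] at h4
          rw [(Submodule.mem_bot _).1 h4, TheoryData.act_map_zero]
        · exact h1 j i _ (push_algPower hz hc.dim) (by omega)
      rw [h3, TheoryData.ext_zero_left]
  · rw [rho3 C T c m hm, tens_zero_right, C.act_zero]

/-- **(B) for the products with two curves, over a universal domain.** -/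
theorem bTimes_two_iff (hG : FibrewiseZero C) (hT : ∃ T : 𝒱.Obj, T.dim = 1)
    {π : ℕ → C.A (X.prod X)} (hπ : IsCK H X π) :
    BTimes C 2 X π ↔ SatB C π ∧ SatPow C π 1 ∧ SatPow C π 2 := by
  constructor
  · intro h
    exact ⟨satB_of_bTimes hT 2 hπ h, satPow_of_bTimes hT 2 hπ h 1 le_rfl (by omega),
      satPow_of_bTimes hT 2 hπ h 2 (by omega) le_rfl⟩
  · rintro ⟨hB, h1, h2⟩ T c hc T' c' hc'
    have h3 : SatB C (prodDec C π (curveCK C T c)) :=
      satB_prod (H := H) hG hπ hB ((satPow_one_iff (H := H) hB).1 h1) hc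
    exact satB_prod (H := H) hG (hπ.prod (isCK_curve hc)) h3
      ((satPow_one_iff (H := H) h3).1 (satPow_one_prod hG hπ hB h1 h2 hc)) hc'

end Pool.Agent.Y107
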