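import Pool.Agent.Y107.SDMain

/-!
# The intersection with a divisor class
-/

open CategoryTheory AlgebraicGeometry

universe u v w

namespace Pool.Agent.Y107

open Pool.Agent.H914 Pool.Agent.H914.VarClass Pool.Agent.H914.VarClass.Obj Pool.Agent.W492.BB
  Pool.Agent.W550.Corr Pool.Agent.TH133

set_option linter.unusedSectionVars false

variable {k : Type u} [Field k] {𝒱 : VarClass k}

section chow

variable {C : TheoryData.{u, v, 0} 𝒱 ℚ} [hC : IsChowProj C] {X Y Z : 𝒱.Obj}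

include hC

lemma mulCorr_comp (D : C.A X) (Γ : C.A (X.prod Y)) :
    C.comp (C.mulCorr D) Γ = C.pull (fst X Y) D * Γ := by
  rw [TheoryData.comp, TheoryData.mulCorr, C.base_fst, ← C.proj_left, ← C.push_comp,
    ← C.pull_comp]
  have e1 : prodMap (Obj.lift (𝟙 X) (𝟙 X)) (𝟙 Y) ≫ t13 X X Y = 𝟙 _ := by
    apply prod_ext <;> simp [t13]
  have e2 : prodMap (Obj.lift (𝟙 X) (𝟙 X)) (𝟙 Y) ≫ t23 X X Y = 𝟙 _ := by
    apply prod_ext <;> simp [t23]
  rw [e1, e2, C.push_id, C.pull_id, ch_comm C]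

lemma tp_mulCorr (D : C.A X) : tp C (C.mulCorr D) = C.mulCorr D := by
  rw [tp_eq_push, TheoryData.mulCorr, ← C.push_comp]
  have e1 : Obj.lift (𝟙 X) (𝟙 X) ≫ sw X X = Obj.lift (𝟙 X) (𝟙 X) := by
    apply prod_ext <;> simp [sw, comp_lift]
  rw [e1]

lemma comp_mulCorr (D : C.A Y) (Γ : C.A (X.prod Y)) :
    C.comp Γ (C.mulCorr D) = C.pull (snd X Y) D * Γ := by
  have h1 : tp C (C.comp Γ (C.mulCorr D)) = C.pull (fst Y X) D * tp C Γ := by
    rw [tp_comp C (ch_comm C), tp_mulCorr, mulCorr_comp]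
  have h2 := congrArg (tp C) h1
  rw [tp_tp] at h2
  rw [h2]
  have e1 : sw X Y ≫ fst Y X = snd X Y := lift_fst _ _
  have h3 : tp C (C.pull (fst Y X) D * tp C Γ) =
      C.pull (sw X Y) (C.pull (fst Y X) D) * tp C (tp C Γ) := map_mul _ _ _
  rw [h3, tp_tp, ← C.pull_comp, e1]

lemma mulCorr_pow (D : C.A X) (n : ℕ) : corPow C (C.mulCorr D) n = C.mulCorr (D ^ n) := by
  induction n with
  | zero => rw [pow_zero]; rfl
  | succ n ih =>
    have h1 : corPow C (C.mulCorr D) (n + 1) = C.comp (corPow C (C.mulCorr D) n) (C.mulCorr D) :=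
      rfl
    rw [h1, ih, comp_mulCorr, TheoryData.mulCorr, TheoryData.mulCorr, ← C.proj_left,
      ← C.pull_comp, lift_snd, C.pull_id, pow_succ']

lemma ext_one_right (D : C.A X) : C.ext D (1 : C.A Y) = C.pull (fst X Y) D := by
  rw [TheoryData.ext, map_one, mul_one]

lemma ext_one_left (D : C.A Y) : C.ext (1 : C.A X) D = C.pull (snd X Y) D := by
  rw [TheoryData.ext, map_one, one_mul]

lemma brk_mulCorr (D : C.A X) (z : C.A (X.prod X)) :
    brk C (C.mulCorr D) z = (C.ext 1 D - C.ext D 1) * z := by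
  rw [brk, comp_mulCorr, mulCorr_comp, ext_one_right, ext_one_left, sub_mul]

/-- The equation for the intersection with a divisor class. -/
theorem inSquare_mulCorr (D : C.A X) : InSquare C (C.mulCorr D) ↔
    ∃ z, C.Deg ((X.dim : ℤ) - 1) z ∧ (C.ext D 1 - C.ext 1 D) ^ 2 * z = C.mulCorr D := by
  have h1 : ∀ z, brk C (C.mulCorr D) (brk C (C.mulCorr D) z) =
      (C.ext D 1 - C.ext 1 D) ^ 2 * z := by
    intro z
    rw [brk_mulCorr, brk_mulCorr, ← mul_assoc]
    congr 1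
    rw [pow_two, ← neg_sub (C.ext D 1) (C.ext 1 D), neg_mul_neg]
  constructor
  · rintro ⟨z, hz, h⟩
    exact ⟨z, hz, by rw [← h1, h]⟩
  · rintro ⟨z, hz, h⟩
    exact ⟨z, hz, by rw [h1, h]⟩

/-- The regularity of the powers for the intersection with a divisor class. -/
theorem powersRegular_mulCorr (D : C.A X) : PowersRegular C (C.mulCorr D) ↔
    ∀ c : ℕ, ∃ y, C.Deg ((X.dim : ℤ) - c) y ∧ C.ext (D ^ c) (D ^ c) * y = C.mulCorr (D ^ c) := by
  have h1 : ∀ (c : ℕ) (y : C.A (X.prod X)), C.comp (C.comp (corPow C (C.mulCorr D) c) y)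
      (corPow C (C.mulCorr D) c) = C.ext (D ^ c) (D ^ c) * y := by
    intro c y
    rw [mulCorr_pow, comp_mulCorr, mulCorr_comp, TheoryData.ext, ← mul_assoc,
      ch_comm C (C.pull (snd X X) (D ^ c))]
  constructor
  · intro h c
    obtain ⟨y, hy, h2⟩ := h c
    exact ⟨y, hy, by rw [← h1, h2, mulCorr_pow]⟩
  · intro h c
    obtain ⟨y, hy, h2⟩ := h c
    exact ⟨y, hy, by rw [h1, h2, mulCorr_pow]⟩

/-- The equation descends along `b ∘ z ∘ a`. -/
theorem inSquare_descend {LX : C.A (X.prod X)} {LY : C.A (Y.prod Y)} {a : C.A (X.prod Y)}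
    {b : C.A (Y.prod X)} {e : ℤ} (ha : a ∈ C.gr (X.prod Y) ((X.dim : ℤ) + e))
    (hb : b ∈ C.gr (Y.prod X) ((Y.dim : ℤ) + -e)) (hab : C.comp a b = dg C X)
    (hLa : C.comp LX a = C.comp a LY) (hLb : C.comp b LX = C.comp LY b)
    (h : InSquare C LY) : InSquare C LX := by
  obtain ⟨z, hz, h1⟩ := h
  have hbr : ∀ z, brk C LX (C.comp (C.comp a z) b) = C.comp (C.comp a (brk C LY z)) b := by
    intro z
    rw [brk, brk, comp_sub, sub_comp, comp_assoc C (C.comp a z) b LX, hLb,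
      ← comp_assoc C (C.comp a z) LY b, comp_assoc C a z LY, ← comp_assoc C LX (C.comp a z) b,
      ← comp_assoc C LX a z, hLa, comp_assoc C a LY z]
  refine ⟨C.comp (C.comp a z) b, ?_, ?_⟩
  · have hz' : z ∈ C.gr (Y.prod Y) ((Y.dim : ℤ) + -1) := hz
    have := comp_mem C (comp_mem C ha hz') hb
    rwa [show (X.dim : ℤ) + (e + -1 + -e) = X.dim - 1 by ring] at this
  · rw [hbr, hbr, h1, ← hLa, comp_assoc C LX a b, hab, comp_dg]

lemma corPow_comp {LX : C.A (X.prod X)} {LY : C.A (Y.prod Y)} {a : C.A (X.prod Y)}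
    (hLa : C.comp LX a = C.comp a LY) (n : ℕ) :
    C.comp (corPow C LX n) a = C.comp a (corPow C LY n) := by
  induction n with
  | zero =>
    change C.comp (dg C X) a = C.comp a (dg C Y)
    rw [dg_comp, comp_dg]
  | succ n ih =>
    change C.comp (C.comp (corPow C LX n) LX) a = C.comp a (C.comp (corPow C LY n) LY)
    rw [comp_assoc, hLa, ← comp_assoc, ih, comp_assoc]

lemma cograph_mem (f : Y ⟶ X) : C.cograph f ∈ C.gr (X.prod Y) X.dim := by
  have h := C.push_mem (Obj.lift f (𝟙 Y)) (C.one_mem Y)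
  have e1 : (0 : ℤ) + 1 * (((X.prod Y).dim : ℤ) - (Y.dim : ℤ)) = X.dim := by
    rw [dim_prod]; push_cast; ring
  rwa [e1] at h

lemma graph_mem' (f : Y ⟶ X) : C.graph f ∈ C.gr (Y.prod X) X.dim := by
  have h := C.push_mem (Obj.lift (𝟙 Y) f) (C.one_mem Y)
  have e1 : (0 : ℤ) + 1 * (((Y.prod X).dim : ℤ) - (Y.dim : ℤ)) = X.dim := by
    rw [dim_prod]; push_cast; ring
  rwa [e1] at h

lemma mulCorr_cograph (f : Y ⟶ X) (D : C.A X) :
    C.comp (C.mulCorr D) (C.cograph f) = C.comp (C.cograph f) (C.mulCorr (C.pull f D)) := by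
  rw [mulCorr_comp, comp_mulCorr, TheoryData.cograph, ← C.proj_left, ← C.proj_left,
    ← C.pull_comp, ← C.pull_comp, lift_fst, lift_snd, C.pull_id]

lemma graph_mulCorr (f : Y ⟶ X) (D : C.A X) :
    C.comp (C.graph f) (C.mulCorr D) = C.comp (C.mulCorr (C.pull f D)) (C.graph f) := by
  rw [mulCorr_comp, comp_mulCorr, TheoryData.graph, ← C.proj_left, ← C.proj_left,
    ← C.pull_comp, ← C.pull_comp, lift_fst, lift_snd, C.pull_id]

lemma cograph_graph (f : Y ⟶ X) : C.comp (C.cograph f) (C.graph f) = C.mulCorr (C.push f 1) := by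
  have e1 : Obj.lift f (𝟙 Y) ≫ prodMap (𝟙 X) f = f ≫ Obj.lift (𝟙 X) (𝟙 X) := by
    apply prod_ext <;> simp
  rw [comp_eq_extR, extR_graph, TheoryData.cograph, ← C.push_comp, e1, C.push_comp]
  rfl

end chow

section weil

variable {C : TheoryData.{u, v, 0} 𝒱 ℚ} [hC : IsChowProj C] {K : Type w} [Field K]
  {H : WeilTheoryData.{u, v, w} C K} [hH : IsWeilProj H] {X Y : 𝒱.Obj}

include hC hH

/-- Motivic hard Lefschetz implies hard Lefschetz. -/
lemma hardLefschetz_of_motivic {L : C.A (X.prod X)} {π : ℕ → C.A (X.prod X)} (hπ : IsCK H X π)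
    (hM : MotivicLefschetz C L π) : HardLefschetzCor H X L := by
  intro r hr
  obtain ⟨g, hg, h1, h2⟩ := hM.iso (X.dim - r) (by omega)
  rw [show X.dim - (X.dim - r) = r by omega] at h1 h2
  have hg' : g ∈ C.gr (X.prod X) ((X.dim : ℤ) + -r) := by
    have : g ∈ C.gr (X.prod X) ((X.dim - r : ℕ) : ℤ) := hg
    rwa [show ((X.dim - r : ℕ) : ℤ) = (X.dim : ℤ) + -r by omega] at this
  constructor
  · intro a ha h
    have ha' : H.Deg ((X.dim - r : ℕ) : ℤ) a := by
      rwa [show ((X.dim - r : ℕ) : ℤ) = (X.dim : ℤ) - r by omega]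
    have h3 := congrArg (fun y => H.act (H.cl y) a) h1
    simp only [actH_comp] at h3
    rw [hπ.act_self _ a ha', h, TheoryData.act_map_zero] at h3
    exact h3.symm
  · intro b hb
    have hb' : H.Deg ((2 * X.dim - (X.dim - r) : ℕ) : ℤ) b := by
      rwa [show ((2 * X.dim - (X.dim - r) : ℕ) : ℤ) = (X.dim : ℤ) + r by omega]
    have h3 := congrArg (fun y => H.act (H.cl y) b) h2
    simp only [actH_comp] at h3
    rw [hπ.act_self _ b hb'] at h3
    refine ⟨H.act (H.cl g) b, ?_, h3⟩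
    have := actH_mem H hg' hb
    rwa [show (X.dim : ℤ) + r + 2 * -r = X.dim - r by ring] at this

/-- Hard Lefschetz descends. -/
lemma hardLefschetz_descend {LX : C.A (X.prod X)} {LY : C.A (Y.prod Y)} {a : C.A (X.prod Y)}
    {b : C.A (Y.prod X)} {e : ℤ} (he : 2 * e = (Y.dim : ℤ) - X.dim)
    (ha : a ∈ C.gr (X.prod Y) ((X.dim : ℤ) + e))
    (hb : b ∈ C.gr (Y.prod X) ((Y.dim : ℤ) + -e)) (hab : C.comp a b = dg C X)
    (hLa : C.comp LX a = C.comp a LY) (hLb : C.comp b LX = C.comp LY b)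
    (h : HardLefschetzCor H Y LY) : HardLefschetzCor H X LX := by
  intro r hr
  have hpa := corPow_comp hLa r
  have hpb := corPow_comp hLb.symm r
  have hba : ∀ x : H.A X, H.act (H.cl b) (H.act (H.cl a) x) = x := by
    intro x
    rw [← actH_comp, hab, actH_dg]
  have ham : ∀ {m : ℤ} {x : H.A X}, x ∈ H.gr X m → H.act (H.cl a) x ∈ H.gr Y (m + 2 * e) :=
    fun hx => actH_mem H ha hx
  have hbm : ∀ {m : ℤ} {y : H.A Y}, y ∈ H.gr Y m → H.act (H.cl b) y ∈ H.gr X (m + 2 * -e) :=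
    fun hy => actH_mem H hb hy
  constructor
  · intro x hx h0
    have hx1 : H.act (H.cl a) x ∈ H.gr Y ((Y.dim : ℤ) - r) := by
      have := ham hx
      rwa [show (X.dim : ℤ) - r + 2 * e = Y.dim - r by rw [he]; ring] at this
    have hx2 : H.act (H.cl a) x = 0 := by
      rcases le_or_gt r Y.dim with hrY | hrY
      · refine (h r hrY).1 _ hx1 ?_
        rw [← actH_comp, ← hpa, actH_comp, h0, TheoryData.act_map_zero]
      · rw [H.gr_neg Y _ (by omega)] at hx1
        exact (Submodule.mem_bot _).1 hx1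
    rw [← hba x, hx2, TheoryData.act_map_zero]
  · intro y hy
    have hy1 : H.act (H.cl a) y ∈ H.gr Y ((Y.dim : ℤ) + r) := by
      have := ham hy
      rwa [show (X.dim : ℤ) + r + 2 * e = Y.dim + r by rw [he]; ring] at this
    rcases le_or_gt r Y.dim with hrY | hrY
    · obtain ⟨c, hc, hc2⟩ := (h r hrY).2 _ hy1
      refine ⟨H.act (H.cl b) c, ?_, ?_⟩
      · have := hbm hc
        rwa [show (Y.dim : ℤ) - r + 2 * -e = X.dim - r by
          rw [mul_neg, he]; ring] at this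
      · rw [← actH_comp, ← hpb, actH_comp, hc2, hba]
    · rw [gr_top H (by omega)] at hy1
      have hy2 : H.act (H.cl a) y = 0 := (Submodule.mem_bot _).1 hy1
      refine ⟨0, (H.gr X _).zero_mem, ?_⟩
      rw [TheoryData.act_map_zero, ← hba y, hy2, TheoryData.act_map_zero]

/-- The four equivalent conditions. -/
theorem inSquare_iff_all {L : C.A (X.prod X)} (hL : C.Deg ((X.dim : ℤ) + 1) L)
    (hsym : tp C L = L) (hHL : HardLefschetzCor H X L) :
    (InSquare C L ↔ PowersRegular C L) ∧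
    (InSquare C L ↔ ∃ π, IsCK H X π ∧ MotivicLefschetz C L π) ∧
    (InSquare C L ↔ ∃ π, IsCK H X π ∧ IsSelfDual C π ∧ MotivicLefschetz C L π) := by
  have i1 : InSquare C L → ∃ π, IsCK H X π ∧ IsSelfDual C π ∧ MotivicLefschetz C L π :=
    fun h => exists_selfDual_of_inSquare (C := C) (X := X) hL hsym hHL h
  have i2 : (∃ π, IsCK H X π ∧ IsSelfDual C π ∧ MotivicLefschetz C L π) →
      ∃ π, IsCK H X π ∧ MotivicLefschetz C L π := fun ⟨π, h1, _, h2⟩ => ⟨π, h1, h2⟩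
  have i3 : (∃ π, IsCK H X π ∧ MotivicLefschetz C L π) → PowersRegular C L :=
    fun ⟨π, h1, h2⟩ => powersRegular_of_motivicLefschetz (C := C) (X := X) (H := H) hL h1 h2
  have i4 : PowersRegular C L → InSquare C L :=
    fun h => inSquare_of_powersRegular (C := C) (X := X) hL h
  exact ⟨⟨fun h => i3 (i2 (i1 h)), i4⟩, ⟨fun h => i2 (i1 h), fun h => i4 (i3 h)⟩,
    ⟨i1, fun h => i4 (i3 (i2 h))⟩⟩

/-- The equivariant form. -/
theorem exists_equivariant {L : C.A (X.prod X)} (hL : C.Deg ((X.dim : ℤ) + 1) L)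
    (hsym : tp C L = L) (hHL : HardLefschetzCor H X L) (hS : InSquare C L)
    (G : Type) [Group G] [Finite G] (ρ : G → C.A (X.prod X)) (hρ : GroupCor C ρ)
    (hρL : ∀ g, C.comp L (ρ g) = C.comp (ρ g) L) :
    ∃ π, IsCK H X π ∧ IsSelfDual C π ∧ MotivicLefschetz C L π ∧
      ∀ g n, C.comp (π n) (ρ g) = C.comp (ρ g) (π n) := by
  have h0 : ∀ g, (ρ g : Cor C X) ∈ crg C X 0 := fun g => crg_zero_iff.2 (hρ.deg g)
  obtain ⟨P, h1, h2, h3, h4⟩ := exists_equivariant_of_inSquare (C := C) (X := X) (H := H) hL hsym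
    hHL hS (G := G) ρ h0 hρ.one hρ.mul hρ.transpose hρL
  exact ⟨P, h1, h2, h3, h4⟩

/-- **Descent of self-dual Lefschetz decompositions.** -/
theorem exists_selfDual_of_factor {LX : C.A (X.prod X)} {LY : C.A (Y.prod Y)}
    {a : C.A (X.prod Y)} {b : C.A (Y.prod X)} {e : ℤ} (he : 2 * e = (Y.dim : ℤ) - X.dim)
    (hLX : C.Deg ((X.dim : ℤ) + 1) LX) (hLY : C.Deg ((Y.dim : ℤ) + 1) LY) (hsym : tp C LX = LX)
    (ha : C.Deg ((X.dim : ℤ) + e) a) (hb : C.Deg ((Y.dim : ℤ) - e) b)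
    (hab : C.comp a b = dg C X)
    (hLa : C.comp LX a = C.comp a LY) (hLb : C.comp b LX = C.comp LY b)
    (h : ∃ π, IsCK H Y π ∧ MotivicLefschetz C LY π) :
    ∃ π, IsCK H X π ∧ IsSelfDual C π ∧ MotivicLefschetz C LX π := by
  obtain ⟨π, h1, h2⟩ := h
  have hb' : b ∈ C.gr (Y.prod X) ((Y.dim : ℤ) + -e) := hb
  have h3 : InSquare C LY := inSquare_of_powersRegular (C := C) (X := Y) hLY
    (powersRegular_of_motivicLefschetz (C := C) (X := Y) (H := H) hLY h1 h2)
  have h4 := inSquare_descend ha hb' hab hLa hLb h3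
  have h5 := hardLefschetz_descend he ha hb' hab hLa hLb (hardLefschetz_of_motivic h1 h2)
  exact exists_selfDual_of_inSquare (C := C) (X := X) hLX hsym h5 h4

/-- Descent along a generically finite morphism. -/
theorem exists_selfDual_of_cover (f : Y ⟶ X) (hd : Y.dim = X.dim) {N : ℚ} (hN : N ≠ 0)
    (hf : C.push f 1 = N • 1) {D : C.A X} (hD : C.Deg 1 D)
    (h : ∃ π, IsCK H Y π ∧ MotivicLefschetz C (C.mulCorr (C.pull f D)) π) :
    ∃ π, IsCK H X π ∧ IsSelfDual C π ∧ MotivicLefschetz C (C.mulCorr D) π := by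
  have hmem : ∀ {Z : 𝒱.Obj} {D : C.A Z}, D ∈ C.gr Z 1 →
      C.mulCorr D ∈ C.gr (Z.prod Z) ((Z.dim : ℤ) + 1) := by
    intro Z D hD
    have h := C.push_mem (Obj.lift (𝟙 Z) (𝟙 Z)) hD
    have e1 : (1 : ℤ) + 1 * (((Z.prod Z).dim : ℤ) - (Z.dim : ℤ)) = Z.dim + 1 := by
      rw [dim_prod]; push_cast; ring
    rwa [e1] at h
  refine exists_selfDual_of_factor (C := C) (X := X) (Y := Y) (H := H) (e := 0)
    (LX := C.mulCorr D) (LY := C.mulCorr (C.pull f D)) (a := C.cograph f)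
    (b := N⁻¹ • C.graph f) (by rw [hd]; ring) (hmem hD) (hmem (C.pull_mem f hD))
    (tp_mulCorr D) ?_ ?_ ?_ (mulCorr_cograph f D) ?_ h
  · rw [add_zero]
    exact cograph_mem f
  · rw [sub_zero, hd]
    exact Submodule.smul_mem _ _ (graph_mem' f)
  · have h1 : C.comp (C.cograph f) (N⁻¹ • C.graph f) = N⁻¹ • C.comp (C.cograph f) (C.graph f) :=
      map_smul (compL C (C.cograph f)) _ _
    have h2 : C.mulCorr (N • (1 : C.A X)) = N • dg C X := map_smul (C.push _) _ _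
    rw [h1, cograph_graph, hf, h2, smul_smul, inv_mul_cancel₀ hN, one_smul]
  · have h1 : ∀ Γ : C.A (X.prod X), C.comp (N⁻¹ • C.graph f) Γ = N⁻¹ • C.comp (C.graph f) Γ :=
      fun Γ => LinearMap.map_smul₂ (compL C) _ _ _
    have h2 : ∀ Γ : C.A (Y.prod Y), C.comp Γ (N⁻¹ • C.graph f) = N⁻¹ • C.comp Γ (C.graph f) :=
      fun Γ => map_smul (compL C Γ) _ _
    rw [h1, h2, graph_mulCorr]

end weil

end Pool.Agent.Y107
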