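import Pool.Agent.TH133.Defs

/-!
# Self-dual Chow-Kunneth decompositions and motivic hard Lefschetz: definitions
-/

open CategoryTheory AlgebraicGeometry

universe u v w

namespace Pool.Agent.Y107

open Pool.Agent.H914 Pool.Agent.H914.VarClass Pool.Agent.H914.VarClass.Obj Pool.Agent.W492.BB
  Pool.Agent.W550.Corr Pool.Agent.TH133

variable {k : Type u} [Field k] {𝒱 : VarClass k}

section chow

variable (C : TheoryData.{u, v, 0} 𝒱 ℚ) {X : 𝒱.Obj}

/-- The power `L ∘ ⋯ ∘ L` (`n` factors) of the correspondence `L`. -/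
noncomputable def corPow (L : C.A (X.prod X)) : ℕ → C.A (X.prod X)
  | 0 => dg C X
  | n + 1 => C.comp (corPow L n) L

/-- The commutator `L ∘ z - z ∘ L`. -/
noncomputable def brk (L z : C.A (X.prod X)) : C.A (X.prod X) := C.comp z L - C.comp L z

/-- `L = [L, [L, z]]` for some `z ∈ CH^(d-1)(X × X)`, `d = dim X`. -/
def InSquare (L : C.A (X.prod X)) : Prop :=
  ∃ z : C.A (X.prod X), C.Deg ((X.dim : ℤ) - 1) z ∧ brk C L (brk C L z) = L

/-- For all `c` there is `y ∈ CH^(d-c)(X × X)` with `L^c ∘ y ∘ L^c = L^c`, `d = dim X`. -/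
def PowersRegular (L : C.A (X.prod X)) : Prop :=
  ∀ c : ℕ, ∃ y : C.A (X.prod X), C.Deg ((X.dim : ℤ) - c) y ∧
    C.comp (C.comp (corPow C L c) y) (corPow C L c) = corPow C L c

/-- Motivic hard Lefschetz for the decomposition `π` of `X` and the correspondence `L` of degree one:
`L ∘ π n = π (n + 2) ∘ L`, and for `n ≤ d = dim X` the morphism of Chow motives
`L^(d-n) : h^n(X) → h^(2d-n)(X)(d-n)` is an isomorphism: there is `g ∈ CH^n(X × X)` with
`g ∘ L^(d-n) ∘ π n = π n` and `L^(d-n) ∘ g ∘ π (2d-n) = π (2d-n)`. -/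
structure MotivicLefschetz (L : C.A (X.prod X)) (π : ℕ → C.A (X.prod X)) : Prop where
  homogeneous : ∀ n, C.comp (π n) L = C.comp L (π (n + 2))
  iso : ∀ n ≤ X.dim, ∃ g : C.A (X.prod X), C.Deg n g ∧
    C.comp (C.comp (π n) (corPow C L (X.dim - n))) g = π n ∧
    C.comp (C.comp (π (2 * X.dim - n)) g) (corPow C L (X.dim - n)) = π (2 * X.dim - n)

/-- `(D × 1 - 1 × D)^2 z = Δ_* D` for some `z ∈ CH^(d-1)(X × X)`, `d = dim X`. -/
def DivisorEquation (D : C.A X) : Prop :=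
  ∃ z : C.A (X.prod X), C.Deg ((X.dim : ℤ) - 1) z ∧
    (C.ext D 1 - C.ext 1 D) ^ 2 * z = C.mulCorr D

/-- For all `c` the cycle `Δ_* (D^c)` is a multiple `(D^c × D^c) y` with `y ∈ CH^(d-c)(X × X)`,
`d = dim X`. -/
def DiagonalMultiples (D : C.A X) : Prop :=
  ∀ c : ℕ, ∃ y : C.A (X.prod X), C.Deg ((X.dim : ℤ) - c) y ∧
    C.ext (D ^ c) (D ^ c) * y = C.mulCorr (D ^ c)

/-- A group `G` of self-correspondences `ρ g` of degree zero of `X`, with `ρ (g g') = ρ g ∘ ρ g'`,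
such that the transpose of `ρ g` is `ρ (g⁻¹)` (for instance the graphs of the elements of a group of
automorphisms of `X`, or `1` and `1 - 2 p` for a projector `p` equal to its transpose). -/
structure GroupCor {G : Type} [Group G] (ρ : G → C.A (X.prod X)) : Prop where
  deg : ∀ g, C.Deg X.dim (ρ g)
  one : ρ 1 = dg C X
  mul : ∀ g g', ρ (g * g') = C.comp (ρ g') (ρ g)
  transpose : ∀ g, tp C (ρ g) = ρ g⁻¹

/-- `(X, LX)` is a direct factor of a twist of `(Y, LY)`: there are correspondences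
`a : h(X) → h(Y)(e)` and `b : h(Y)(e) → h(X)` with `2 e = dim Y - dim X` and `b ∘ a = 1` which commute
with `LX` and `LY`. -/
def LefschetzFactor {Y : 𝒱.Obj} (LX : C.A (X.prod X)) (LY : C.A (Y.prod Y)) : Prop :=
  ∃ (e : ℤ) (a : C.A (X.prod Y)) (b : C.A (Y.prod X)), 2 * e = (Y.dim : ℤ) - X.dim ∧
    C.Deg ((X.dim : ℤ) + e) a ∧ C.Deg ((Y.dim : ℤ) - e) b ∧ C.comp a b = dg C X ∧
    C.comp LX a = C.comp a LY ∧ C.comp b LX = C.comp LY b

end chow

/-- The correspondence `L` of degree one satisfies hard Lefschetz on the cohomology of `X`: for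
`r ≤ d = dim X` the map `L^r : H^(d-r)(X) → H^(d+r)(X)` is bijective. -/
def HardLefschetzCor {C : TheoryData.{u, v, 0} 𝒱 ℚ} {K : Type w} [Field K]
    (H : WeilTheoryData.{u, v, w} C K) (X : 𝒱.Obj) (L : C.A (X.prod X)) : Prop :=
  ∀ r : ℕ, r ≤ X.dim →
    (∀ a : H.A X, H.Deg ((X.dim : ℤ) - r) a → H.act (H.cl (corPow C L r)) a = 0 → a = 0) ∧
    ∀ b : H.A X, H.Deg ((X.dim : ℤ) + r) b → ∃ a : H.A X, H.Deg ((X.dim : ℤ) - r) a ∧
      H.act (H.cl (corPow C L r)) a = b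

/-- The family `π` is a self-dual Chow-Kunneth decomposition of `X` satisfying motivic hard Lefschetz
for `L`. -/
structure SelfDualLefschetz {C : TheoryData.{u, v, 0} 𝒱 ℚ} {K : Type w} [Field K]
    (H : WeilTheoryData.{u, v, w} C K) {X : 𝒱.Obj} (L : C.A (X.prod X))
    (π : ℕ → C.A (X.prod X)) : Prop where
  ck : IsCK H X π
  selfDual : IsSelfDual C π
  lefschetz : MotivicLefschetz C L π

end Pool.Agent.Y107
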