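import Mathlib

/-!
# Homogeneous components
-/

namespace Pool.Agent.Y107

open DirectSum

variable {V : Type*} [AddCommGroup V] [Module ℚ V] {M : ℤ → Submodule ℚ V}
  (hM : DirectSum.IsInternal M)

/-- The homogeneous component of degree `i`. -/
noncomputable def cmp (i : ℤ) : V →ₗ[ℚ] V :=
  letI := hM.chooseDecomposition
  (M i).subtype ∘ₗ DirectSum.component ℚ ℤ (fun i => M i) i ∘ₗ
    (DirectSum.decomposeLinearEquiv M).toLinearMap

lemma cmp_mem (i : ℤ) (x : V) : cmp hM i x ∈ M i := by
  unfold cmp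
  simp

lemma cmp_of_mem {i : ℤ} {x : V} (hx : x ∈ M i) : cmp hM i x = x := by
  letI := hM.chooseDecomposition
  unfold cmp
  simp only [LinearMap.comp_apply, Submodule.subtype_apply]
  change ((DirectSum.decompose M x) i : V) = x
  exact DirectSum.decompose_of_mem_same M hx

lemma cmp_of_ne {i j : ℤ} {x : V} (hx : x ∈ M i) (h : i ≠ j) : cmp hM j x = 0 := by
  letI := hM.chooseDecomposition
  unfold cmp
  simp only [LinearMap.comp_apply, Submodule.subtype_apply]
  change ((DirectSum.decompose M x) j : V) = 0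
  exact DirectSum.decompose_of_mem_ne M hx h

/-- Components of the image under a homogeneous map. -/
lemma cmp_map (φ : V →ₗ[ℚ] V) (s : ℤ) (hφ : ∀ i, ∀ x ∈ M i, φ x ∈ M (i + s)) (i : ℤ) (x : V) :
    cmp hM (i + s) (φ x) = φ (cmp hM i x) := by
  have hx : x ∈ ⨆ i, M i := by
    rw [hM.submodule_iSup_eq_top]
    trivial
  induction hx using Submodule.iSup_induction' with
  | mem j x hx =>
    by_cases h : j = i
    · subst h
      rw [cmp_of_mem hM hx, cmp_of_mem hM (hφ j x hx)]
    · rw [cmp_of_ne hM hx h, cmp_of_ne hM (hφ j x hx) (by omega), map_zero]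
  | zero => simp
  | add x y _ _ h1 h2 => simp only [map_add, h1, h2]

end Pool.Agent.Y107
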