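import Pool.Agent.H914R2.Sl2

/-!
# Nilpotent elements of associative algebras and `sl(2)`-triples
-/

open Finset

namespace Pool.Agent.Y107

open Pool.Agent.H914

section regular

variable {A : Type*} [Ring A] [Algebra ℚ A]

/-- For `x` killed by `a ^ (m + 1)` on both sides, there is an element `E` commuting with `a` such
that `a ^ m E = a ^ m x a ^ m` and `a E` lies in the image of `(ad a)²`. -/
lemma exists_commuting {a x : A} {m : ℕ} (h1 : a ^ (m + 1) * x = 0) (h2 : x * a ^ (m + 1) = 0) :
    ∃ E z : A, a * E = E * a ∧ a ^ m * E = a ^ m * x * a ^ m ∧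
      a * (a * z - z * a) - (a * z - z * a) * a = a * E := by
  let t : ℕ → A := fun j => a ^ j * x * a ^ (m + 1 - j)
  let s : ℕ → A := fun j => a ^ j * x * a ^ (m - j)
  have t0 : t 0 = 0 := by simp only [t, pow_zero, one_mul, Nat.sub_zero]; exact h2
  have tm : t (m + 1) = 0 := by simp only [t, h1, zero_mul]
  have as : ∀ j, a * s j = t (j + 1) := by
    intro j
    simp only [s, t, pow_succ', Nat.add_sub_add_right, mul_assoc]
  have sa : ∀ j ∈ range (m + 1), s j * a = t j := by
    intro j hj
    rw [mem_range] at hj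
    simp only [s, t]
    rw [mul_assoc, ← pow_succ, show m - j + 1 = m + 1 - j by omega]
  have hsum1 : ∑ j ∈ range (m + 1), t (j + 1) = ∑ j ∈ range m, t (j + 1) := by
    rw [sum_range_succ, tm, add_zero]
  -- `h = [a, z₀]`
  let z₀ : A := ∑ j ∈ range m, (((j : ℚ) + 1) * (m - j)) • (a ^ j * x * a ^ (m - 1 - j))
  let h : A := ∑ j ∈ range (m + 1), (2 * (j : ℚ) - m) • s j
  have hz : a * z₀ - z₀ * a = h := by
    have e1 : a * z₀ = ∑ j ∈ range m, (((j : ℚ) + 1) * (m - j)) • s (j + 1) := by
      simp only [z₀]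
      rw [mul_sum]
      refine sum_congr rfl fun j hj => ?_
      rw [mem_range] at hj
      rw [mul_smul_comm]
      simp only [s]
      rw [pow_succ', show m - (j + 1) = m - 1 - j by omega]
      simp only [mul_assoc]
    have e2 : z₀ * a = ∑ j ∈ range m, (((j : ℚ) + 1) * (m - j)) • s j := by
      simp only [z₀]
      rw [sum_mul]
      refine sum_congr rfl fun j hj => ?_
      rw [mem_range] at hj
      rw [smul_mul_assoc]
      simp only [s]
      rw [mul_assoc, ← pow_succ, show m - 1 - j + 1 = m - j by omega]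
    have e3 : ∑ j ∈ range m, (((j : ℚ) + 1) * (m - j)) • s (j + 1) =
        ∑ j ∈ range (m + 1), ((j : ℚ) * (m + 1 - j)) • s j := by
      rw [sum_range_succ' (fun j : ℕ => ((j : ℚ) * (m + 1 - j)) • s j)]
      simp only [Nat.cast_zero, zero_mul, zero_smul, add_zero]
      refine sum_congr rfl fun j _ => ?_
      congr 1
      push_cast
      ring
    have e4 : ∑ j ∈ range m, (((j : ℚ) + 1) * (m - j)) • s j =
        ∑ j ∈ range (m + 1), (((j : ℚ) + 1) * (m - j)) • s j := by
      rw [sum_range_succ, sub_self, mul_zero, zero_smul, add_zero]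
    rw [e1, e2, e3, e4, ← sum_sub_distrib]
    refine sum_congr rfl fun j _ => ?_
    rw [← sub_smul]
    congr 1
    ring
  have hh : a * h - h * a = (-2 : ℚ) • ∑ j ∈ range m, t (j + 1) := by
    have e1 : a * h = ∑ j ∈ range (m + 1), (2 * (j : ℚ) - m) • t (j + 1) := by
      simp only [h]
      rw [mul_sum]
      refine sum_congr rfl fun j _ => ?_
      rw [mul_smul_comm, as]
    have e2 : h * a = ∑ j ∈ range (m + 1), (2 * (j : ℚ) - m) • t j := by
      simp only [h]
      rw [sum_mul]
      refine sum_congr rfl fun j hj => ?_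
      rw [smul_mul_assoc, sa j hj]
    rw [e1, e2, sum_range_succ, tm, smul_zero, add_zero, sum_range_succ', t0, smul_zero, add_zero,
      ← sum_sub_distrib, smul_sum]
    refine sum_congr rfl fun j _ => ?_
    rw [← sub_smul]
    congr 1
    push_cast
    ring
  refine ⟨∑ j ∈ range (m + 1), s j, (-(1 / 2) : ℚ) • z₀, ?_, ?_, ?_⟩
  · have e1 : ∑ j ∈ range (m + 1), t j = ∑ j ∈ range m, t (j + 1) := by
      rw [sum_range_succ', t0, add_zero]
    rw [mul_sum, sum_mul, sum_congr rfl sa, sum_congr rfl fun j _ => as j, hsum1, e1]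
  · rw [mul_sum, sum_range_succ']
    have e1 : ∀ j ∈ range m, a ^ m * s (j + 1) = 0 := by
      intro j _
      simp only [s]
      rw [mul_assoc, ← mul_assoc, ← pow_add, show m + (j + 1) = j + (m + 1) by omega, pow_add,
        mul_assoc, ← mul_assoc (a ^ (m + 1)), h1, zero_mul, mul_zero]
    rw [sum_eq_zero e1, zero_add]
    simp only [s, pow_zero, one_mul, Nat.sub_zero]
    rw [mul_assoc]
  · rw [mul_smul_comm, smul_mul_assoc, ← smul_sub, hz, mul_smul_comm, smul_mul_assoc, ← smul_sub,
      hh, smul_smul, mul_sum, sum_congr rfl fun j _ => as j, hsum1]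
    norm_num

/-- **A nilpotent element all of whose powers are von Neumann regular lies in the image of
`(ad a)²`.** -/
theorem exists_of_regular {a : A} {N : ℕ} (ha : a ^ N = 0)
    (hreg : ∀ c, ∃ y, a ^ c * y * a ^ c = a ^ c) :
    ∃ z : A, a * (a * z - z * a) - (a * z - z * a) * a = a := by
  have key : ∀ m ≤ N, ∃ e z : A, a * e = e * a ∧ a ^ (N - m) * e = 0 ∧
      a * (a * z - z * a) - (a * z - z * a) * a = a * (1 - e) := by
    intro m
    induction m with
    | zero =>
      intro _
      refine ⟨1, 0, by simp, by simpa using ha, by simp⟩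
    | succ m ih =>
      intro hm
      obtain ⟨e, z, he, h1, h2⟩ := ih (by omega)
      obtain ⟨y, hy⟩ := hreg (N - (m + 1))
      set n := N - (m + 1) with hn
      have hn1 : N - m = n + 1 := by omega
      rw [hn1] at h1
      have hcomm : ∀ k, a ^ k * e = e * a ^ k := fun k => (Commute.pow_left he k)
      have hx1 : a ^ (n + 1) * (e * y * e) = 0 := by
        rw [← mul_assoc, ← mul_assoc, h1, zero_mul, zero_mul]
      have hx2 : (e * y * e) * a ^ (n + 1) = 0 := by
        rw [mul_assoc, ← hcomm, h1, mul_zero]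
      obtain ⟨E, z', h3, h4, h5⟩ := exists_commuting hx1 hx2
      have h6 : a ^ n * E = a ^ n * (e * e) := by
        rw [h4]
        calc a ^ n * (e * y * e) * a ^ n = (a ^ n * e) * y * (e * a ^ n) := by noncomm_ring
          _ = e * (a ^ n * y * a ^ n) * e := by
            rw [hcomm n, show e * a ^ n = a ^ n * e from (hcomm n).symm,
              show a ^ n * e = e * a ^ n from hcomm n]
            calc e * a ^ n * y * (e * a ^ n) = e * a ^ n * y * (a ^ n * e) := by rw [hcomm n]
              _ = e * (a ^ n * y * a ^ n) * e := by noncomm_ring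
          _ = e * a ^ n * e := by rw [hy]
          _ = a ^ n * (e * e) := by rw [← hcomm n, mul_assoc]
      refine ⟨e * e - E, z * (1 + e) + z', ?_, ?_, ?_⟩
      · rw [mul_sub, sub_mul, h3, ← mul_assoc, he, mul_assoc, he, mul_assoc]
      · rw [mul_sub, h6, sub_self]
      · have h7 : (1 + e) * a = a * (1 + e) := by rw [add_mul, mul_add, he]; simp
        have h8 : a * (a * (z * (1 + e)) - z * (1 + e) * a) -
            (a * (z * (1 + e)) - z * (1 + e) * a) * a =
            (a * (a * z - z * a) - (a * z - z * a) * a) * (1 + e) := by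
          have h10 : z * (1 + e) * a = z * a * (1 + e) := by rw [mul_assoc, h7, mul_assoc]
          have h11 : (a * (z * (1 + e)) - z * (1 + e) * a) = (a * z - z * a) * (1 + e) := by
            rw [h10, sub_mul, ← mul_assoc]
          have h12 : (a * z - z * a) * (1 + e) * a = (a * z - z * a) * a * (1 + e) := by
            rw [mul_assoc, h7, mul_assoc]
          rw [h11, h12]
          noncomm_ring
        have h9 : a * (a * (z * (1 + e) + z') - (z * (1 + e) + z') * a) -
            (a * (z * (1 + e) + z') - (z * (1 + e) + z') * a) * a =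
            (a * (a * (z * (1 + e)) - z * (1 + e) * a) -
            (a * (z * (1 + e)) - z * (1 + e) * a) * a) +
            (a * (a * z' - z' * a) - (a * z' - z' * a) * a) := by noncomm_ring
        rw [h9, h8, h2, h5]
        noncomm_ring
  obtain ⟨e, z, _, h1, h2⟩ := key N le_rfl
  rw [Nat.sub_self, pow_zero, one_mul] at h1
  exact ⟨z, by rw [h2, h1, sub_zero, mul_one]⟩

end regular

section morozov

variable {A : Type*} [Ring A]

lemma e_pow_h' {h e : A} (he : h * e - e * h = 2 * e) (k : ℕ) :
    e ^ k * h = (h - 2 * k) * e ^ k := by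
  induction k with
  | zero => simp
  | succ k ih =>
    have e_h : e * h = (h - 2) * e := by
      calc e * h = h * e - (h * e - e * h) := by noncomm_ring
        _ = (h - 2) * e := by rw [he]; noncomm_ring
    calc e ^ (k + 1) * h = e ^ k * (e * h) := by rw [pow_succ, mul_assoc]
      _ = e ^ k * h * e - 2 * (e ^ k * e) := by rw [e_h]; noncomm_ring
      _ = (h - 2 * (k + 1 : ℕ)) * e ^ (k + 1) := by
        rw [ih, ← pow_succ]
        have : (h - 2 * (k : A)) * e ^ k * e = (h - 2 * (k : A)) * e ^ (k + 1) := by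
          rw [pow_succ, mul_assoc]
        rw [this]
        push_cast
        noncomm_ring

lemma e_pow_f' {h e f : A} (ef : e * f - f * e = h) (he : h * e - e * h = 2 * e) (k : ℕ) :
    e ^ (k + 1) * f = f * e ^ (k + 1) + (k + 1 : ℕ) • ((h - k) * e ^ k) := by
  induction k with
  | zero =>
    simp only [zero_add, pow_one, one_smul, Nat.cast_zero, sub_zero, pow_zero, mul_one]
    rw [← ef]; noncomm_ring
  | succ k ih =>
    have e_h : e * h = (h - 2) * e := by
      calc e * h = h * e - (h * e - e * h) := by noncomm_ring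
        _ = (h - 2) * e := by rw [he]; noncomm_ring
    have h1 : e ^ (k + 1 + 1) * f = e * (e ^ (k + 1) * f) := by rw [pow_succ' e (k + 1), mul_assoc]
    have h2 : e * f = f * e + h := by rw [← ef]; noncomm_ring
    have hk : e * (k : A) = (k : A) * e := (Nat.cast_commute k e).symm
    have h3 : e * (f * e ^ (k + 1)) = f * e ^ (k + 1 + 1) + h * e ^ (k + 1) := by
      rw [← mul_assoc, h2, add_mul, mul_assoc, ← pow_succ']
    have h4 : e * ((h - k) * e ^ k) = (h - 2 - k) * e ^ (k + 1) := by
      calc e * ((h - k) * e ^ k) = (e * h - e * k) * e ^ k := by noncomm_ring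
        _ = ((h - 2) * e - k * e) * e ^ k := by rw [e_h, hk]
        _ = (h - 2 - k) * (e * e ^ k) := by noncomm_ring
        _ = _ := by rw [← pow_succ']
    rw [h1, ih, mul_add, h3, mul_smul_comm, h4]
    simp only [nsmul_eq_mul]
    push_cast
    have e1 : (h - (k + 1 : A)) * e ^ (k + 1) = h * e ^ (k + 1) - k * e ^ (k + 1) - e ^ (k + 1) := by
      noncomm_ring
    have e2 : (h - 2 - (k : A)) * e ^ (k + 1) =
        h * e ^ (k + 1) - e ^ (k + 1) - e ^ (k + 1) - k * e ^ (k + 1) := by
      noncomm_ring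
    rw [e1, e2]
    noncomm_ring

end morozov

section module

variable {V : Type*} [AddCommGroup V] [Module ℚ V]

lemma natCast_end_apply (n : ℕ) (v : V) : (n : Module.End ℚ V) v = (n : ℚ) • v := by
  rw [Module.End.natCast_apply, Nat.cast_smul_eq_nsmul]

/-- **Morozov's lemma, first step.** If `[e, f] = h`, `[h, e] = 2 e` and `e` is nilpotent, then `h + 2`
is surjective on the intersection of the kernel of `e` with a subspace stable under `h`. -/
lemma exists_add_two {e f h : Module.End ℚ V} (ef : e * f - f * e = h)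
    (he : h * e - e * h = 2 * e) {N : ℕ} (hN : e ^ N = 0) (S : Submodule ℚ V)
    (hS : ∀ v ∈ S, h v ∈ S) {u : V} (hu : u ∈ S) (heu : e u = 0) :
    ∃ y ∈ S, e y = 0 ∧ h y + (2 : ℚ) • y = u := by
  have hcomm : ∀ v, e (h v) = h (e v) - (2 : ℚ) • e v := by
    intro v
    have h1 := congrArg (fun φ : Module.End ℚ V => φ v) he
    simp only [LinearMap.sub_apply, Module.End.mul_apply] at h1
    have h2 : (2 : Module.End ℚ V) (e v) = (2 : ℚ) • e v := by
      have := natCast_end_apply (V := V) 2 (e v)
      simpa using this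
    rw [h2] at h1
    rw [← h1]
    abel
  have key : ∀ m ≤ N, ∀ u ∈ S, e u = 0 → (∃ v, u = (e ^ (N - m)) v) →
      ∃ y ∈ S, e y = 0 ∧ h y + (2 : ℚ) • y = u := by
    intro m
    induction m with
    | zero =>
      rintro _ u _ _ ⟨v, rfl⟩
      rw [Nat.sub_zero, hN]
      exact ⟨0, S.zero_mem, map_zero e, by simp⟩
    | succ m ih =>
      rintro hm u hu heu ⟨v, hv⟩
      set i := N - (m + 1) with hi
      have hi1 : N - m = i + 1 := by omega
      -- `(h - i) u` lies in the image of `e ^ (i + 1)`
      have h1 := congrArg (fun φ : Module.End ℚ V => φ v) (e_pow_f' ef he i)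
      simp only [Module.End.mul_apply, LinearMap.add_apply, LinearMap.smul_apply,
        LinearMap.sub_apply] at h1
      have h2 : (e ^ (i + 1)) v = 0 := by
        rw [pow_succ', Module.End.mul_apply, ← hv, heu]
      rw [h2, map_zero, zero_add, ← hv, natCast_end_apply, ← Nat.cast_smul_eq_nsmul ℚ] at h1
      have hne : ((i + 1 : ℕ) : ℚ) ≠ 0 := by exact_mod_cast Nat.succ_ne_zero i
      have h3 : h u - (i : ℚ) • u = (e ^ (N - m)) ((((i + 1 : ℕ) : ℚ)⁻¹) • f v) := by
        rw [hi1, map_smul, h1, smul_smul, inv_mul_cancel₀ hne, one_smul]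
      have h4 : e (h u - (i : ℚ) • u) = 0 := by
        rw [map_sub, map_smul, hcomm, heu, map_zero, smul_zero, sub_zero, smul_zero, sub_zero]
      obtain ⟨y, hy, hy1, hy2⟩ := ih (by omega) (h u - (i : ℚ) • u)
        (S.sub_mem (hS u hu) (S.smul_mem _ hu)) h4 ⟨_, h3⟩
      have hne2 : ((i : ℚ) + 2) ≠ 0 := by positivity
      refine ⟨((i : ℚ) + 2)⁻¹ • (u - y), S.smul_mem _ (S.sub_mem hu hy), ?_, ?_⟩
      · rw [map_smul, map_sub, heu, hy1, sub_zero, smul_zero]
      · have h5 : h (u - y) + (2 : ℚ) • (u - y) = ((i : ℚ) + 2) • u := by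
          rw [map_sub, smul_sub, add_smul]
          have : h y = h u - (i : ℚ) • u - (2 : ℚ) • y := by rw [← hy2]; abel
          rw [this]
          abel
        rw [map_smul, smul_comm (2 : ℚ), ← smul_add, h5, smul_smul, inv_mul_cancel₀ hne2, one_smul]
  refine key N le_rfl u hu heu ⟨u, ?_⟩
  rw [Nat.sub_self, pow_zero]
  rfl

end module

section ad

variable {A : Type*} [Ring A] [Algebra ℚ A]

/-- `ad a` -/
noncomputable def adQ (a : A) : Module.End ℚ A := LinearMap.mulLeft ℚ a - LinearMap.mulRight ℚ a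

lemma adQ_apply (a x : A) : adQ a x = a * x - x * a := rfl

lemma adQ_pow_eq_zero {a : A} {N : ℕ} (ha : a ^ N = 0) : (adQ a) ^ (N + N) = 0 := by
  have hc : Commute (LinearMap.mulLeft ℚ a) (LinearMap.mulRight ℚ a) :=
    LinearMap.commute_mulLeft_right a a
  have h1 : (LinearMap.mulLeft ℚ a) ^ N = 0 := by
    rw [LinearMap.pow_mulLeft, ha]
    exact LinearMap.mulLeft_zero_eq_zero ℚ A
  have h2 : (LinearMap.mulRight ℚ a) ^ N = 0 := by
    rw [LinearMap.pow_mulRight, ha]
    exact LinearMap.mulRight_zero_eq_zero ℚ A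
  have h3 : (-(LinearMap.mulRight ℚ a)) ^ N = 0 := by
    have e : -(LinearMap.mulRight ℚ a) = LinearMap.mulRight ℚ (-a) := by
      ext x
      simp
    rw [e, LinearMap.pow_mulRight, neg_pow, ha, mul_zero]
    exact LinearMap.mulRight_zero_eq_zero ℚ A
  rw [adQ, sub_eq_add_neg]
  have hc' : Commute (LinearMap.mulLeft ℚ a) (-(LinearMap.mulRight ℚ a)) := hc.neg_right
  exact hc'.add_pow_eq_zero_of_add_le_succ_of_pow_eq_zero h1 h3 (by omega)

/-- **Morozov's lemma** in an associative algebra over `ℚ`: if `a` is nilpotent, `h = [a, z]` and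
`[h, a] = 2 a`, then `(h, a, f)` is an `sl(2)`-triple for some `f` in any subspace containing `z`
and stable under `ad h`. -/
theorem morozov {a z h : A} {N : ℕ} (ha : a ^ N = 0) (hz : a * z - z * a = h)
    (hh : h * a - a * h = 2 * a) (S : Submodule ℚ A) (hzS : z ∈ S)
    (hS : ∀ x ∈ S, h * x - x * h ∈ S) : ∃ f ∈ S, Sl2 h a f := by
  have r1 : adQ a * adQ z - adQ z * adQ a = adQ h := by
    ext x
    simp only [LinearMap.sub_apply, Module.End.mul_apply, adQ_apply]
    rw [← hz]
    noncomm_ring
  have r2 : adQ h * adQ a - adQ a * adQ h = 2 * adQ a := by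
    ext x
    have h2 : (2 * adQ a) x = 2 * (a * x - x * a) := by
      rw [two_mul, LinearMap.add_apply, adQ_apply, two_mul]
    rw [h2]
    simp only [LinearMap.sub_apply, Module.End.mul_apply, adQ_apply]
    calc h * (a * x - x * a) - (a * x - x * a) * h - (a * (h * x - x * h) - (h * x - x * h) * a)
        = (h * a - a * h) * x - x * (h * a - a * h) := by noncomm_ring
      _ = 2 * (a * x - x * a) := by rw [hh]; noncomm_ring
  have hu1 : (h * z - z * h) + (2 : ℚ) • z ∈ S := S.add_mem (hS z hzS) (S.smul_mem _ hzS)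
  have e2 : ∀ x : A, (2 : ℚ) • x = 2 * x := fun x => by
    rw [Algebra.smul_def, map_ofNat]
  have hu2 : adQ a ((h * z - z * h) + (2 : ℚ) • z) = 0 := by
    rw [adQ_apply, e2]
    calc a * (h * z - z * h + 2 * z) - (h * z - z * h + 2 * z) * a
        = h * (a * z - z * a) - (a * z - z * a) * h - (h * a - a * h) * z + z * (h * a - a * h) +
          2 * (a * z - z * a) := by noncomm_ring
      _ = 0 := by rw [hh, hz]; rw [← hz]; noncomm_ring
  obtain ⟨y, hy, hy1, hy2⟩ := exists_add_two r1 r2 (adQ_pow_eq_zero ha) S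
    (fun v hv => by rw [adQ_apply]; exact hS v hv) hu1 hu2
  rw [adQ_apply] at hy1 hy2
  refine ⟨z - y, S.sub_mem hzS hy, ?_, hh, ?_⟩
  · rw [mul_sub, sub_mul]
    calc a * z - a * y - (z * a - y * a) = (a * z - z * a) - (a * y - y * a) := by noncomm_ring
      _ = h := by rw [hz, hy1, sub_zero]
  · rw [e2] at hy2
    rw [e2] at hy2
    calc h * (z - y) - (z - y) * h = (h * z - z * h) - (h * y - y * h) := by noncomm_ring
      _ = -(2 * (z - y)) := by
        have : h * y - y * h = h * z - z * h + 2 * z - 2 * y := by rw [← hy2]; noncomm_ring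
        rw [this]; noncomm_ring

end ad

end Pool.Agent.Y107
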