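import Pool.Agent.Y107.SDRing

/-!
# Self-dual Chow-Kunneth decompositions and motivic hard Lefschetz: the main theorem
-/

open CategoryTheory AlgebraicGeometry

universe u v w

namespace Pool.Agent.Y107

open Pool.Agent.H914 Pool.Agent.H914.VarClass Pool.Agent.H914.VarClass.Obj Pool.Agent.W492.BB
  Pool.Agent.W550.Corr Pool.Agent.TH133

set_option linter.unusedSectionVars false

variable {k : Type u} [Field k] {𝒱 : VarClass k}

variable {C : TheoryData.{u, v, 0} 𝒱 ℚ} [hC : IsChowProj C] {K : Type w} [Field K]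
  {H : WeilTheoryData.{u, v, w} C K} [hH : IsWeilProj H] {X : 𝒱.Obj}

include hC hH

variable (H) in
/-- The coefficients have characteristic zero. -/
lemma charZero_coeff (X : 𝒱.Obj) (n : ℕ) (hn : n ≠ 0) : (n : K) ≠ 0 := by
  intro h
  have h1 : ((n : ℚ) : ℚ) ≠ 0 := by exact_mod_cast hn
  have h2 : (algebraMap ℚ (C.A X) ((n : ℚ)⁻¹)) * (n : C.A X) = 1 := by
    rw [← map_natCast (algebraMap ℚ (C.A X)) n, ← map_mul, inv_mul_cancel₀ h1, map_one]
  have h3 := congrArg H.cl h2
  rw [map_mul, map_natCast, map_one] at h3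
  have h4 : ((n : ℕ) : H.A X) = algebraMap K (H.A X) (n : K) := by rw [map_natCast]
  rw [h4, h, map_zero, mul_zero] at h3
  exact hH.one_ne_zero X h3.symm

lemma actH_crg {a : Cor C X} {j : ℤ} (ha : a ∈ crg C X j) {m : ℤ} {x : H.A X}
    (hx : x ∈ H.gr X m) : actH C X H a x ∈ H.gr X (m + 2 * j) :=
  actH_mem H ha hx

section coh

variable {h e f : Cor C X} (ef : e * f - f * e = h) (he : h * e - e * h = 2 * e)
  (hem : e ∈ crg C X 1) (hfm : f ∈ crg C X (-1))
  (hHL : HardLefschetzCor H X (e : C.A (X.prod X)))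

lemma hl_inj {e : Cor C X} (hHL : HardLefschetzCor H X (e : C.A (X.prod X))) {r : ℕ}
    (hr : r ≤ X.dim) {a : H.A X} (ha : a ∈ H.gr X ((X.dim : ℤ) - r))
    (h : actH C X H (e ^ r) a = 0) : a = 0 := by
  refine (hHL r hr).1 a ha ?_
  rw [corPow_eq]
  exact h

lemma hl_surj {e : Cor C X} (hHL : HardLefschetzCor H X (e : C.A (X.prod X))) {r : ℕ}
    (hr : r ≤ X.dim) {b : H.A X} (hb : b ∈ H.gr X ((X.dim : ℤ) + r)) :
    ∃ a ∈ H.gr X ((X.dim : ℤ) - r), actH C X H (e ^ r) a = b := by
  obtain ⟨a, ha, h1⟩ := (hHL r hr).2 b hb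
  refine ⟨a, ha, ?_⟩
  rw [corPow_eq] at h1
  exact h1

include ef he hem hfm hHL

/-- `h` acts as `-r` on the primitive part of `H^(d-r)`. -/
lemma h_prim {r : ℕ} (hr : r ≤ X.dim) {v : H.A X} (hv : v ∈ H.gr X ((X.dim : ℤ) - r))
    (hp : actH C X H (e ^ (r + 1)) v = 0) : actH C X H h v = (-(r : K)) • v := by
  have h0 : h ∈ crg C X 0 := by
    rw [← ef]
    refine Submodule.sub_mem _ ?_ ?_
    · have := crg_mul hem hfm
      rwa [show (1 : ℤ) + -1 = 0 by norm_num] at this
    · have := crg_mul hfm hem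
      rwa [show (-1 : ℤ) + 1 = 0 by norm_num] at this
  -- `E^(r+1) F v = (r+1) (h - r) E^r v`
  have h1 := congrArg (fun y : Cor C X => actH C X H y v) (e_pow_f' ef he r)
  simp only [map_mul, map_add, map_sub, map_nsmul, map_natCast, map_pow, Module.End.mul_apply,
    LinearMap.add_apply, LinearMap.sub_apply, LinearMap.smul_apply] at h1
  rw [map_pow] at hp
  rw [hp, map_zero, zero_add] at h1
  -- `F v = 0`
  have hF : actH C X H f v = 0 := by
    have hFm : actH C X H f v ∈ H.gr X ((X.dim : ℤ) - (r + 2 : ℕ)) := by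
      have := actH_crg hfm hv
      rwa [show (X.dim : ℤ) - r + 2 * (-1) = X.dim - (r + 2 : ℕ) by push_cast; ring] at this
    rcases le_or_gt (r + 2) X.dim with hr2 | hr2
    · refine hl_inj hHL hr2 hFm ?_
      have h2 := congrArg (fun y : Cor C X => actH C X H y v) (e_pow_h' he (r + 1))
      simp only [map_mul, map_sub, map_ofNat, map_natCast, map_pow, Module.End.mul_apply,
        LinearMap.sub_apply] at h2
      have h3 : (actH C X H e ^ (r + 1)) (actH C X H h v) = 0 := by
        rw [h2, hp]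
        simp
      have h4 : e * h = (h - 2) * e := by
        calc e * h = h * e - (h * e - e * h) := by noncomm_ring
          _ = (h - 2) * e := by rw [he]; noncomm_ring
      have h5 : ∀ y : H.A X, actH C X H e (actH C X H h y) =
          actH C X H h (actH C X H e y) - (2 : Module.End K (H.A X)) (actH C X H e y) := by
        intro y
        have h6 := congrArg (fun z : Cor C X => actH C X H z y) h4
        simp only [map_mul, map_sub, map_ofNat, Module.End.mul_apply, LinearMap.sub_apply] at h6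
        exact h6
      rw [map_pow, show r + 2 = r + 1 + 1 by ring, pow_succ', Module.End.mul_apply, h1, map_nsmul,
        map_sub, h5]
      have h7 : actH C X H e ((actH C X H e ^ r) v) = 0 := by
        rw [← Module.End.mul_apply, ← pow_succ', hp]
      have h8 : actH C X H e ((r : Module.End K (H.A X)) ((actH C X H e ^ r) v)) = 0 := by
        have e1 : (r : Module.End K (H.A X)) ((actH C X H e ^ r) v) =
            (r : K) • (actH C X H e ^ r) v := by
          rw [Module.End.natCast_apply, Nat.cast_smul_eq_nsmul]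
        rw [e1, map_smul, h7, smul_zero]
      rw [h7, h8, map_zero, map_zero, sub_zero, sub_zero, smul_zero]
    · rw [H.gr_neg X _ (by push_cast; omega)] at hFm
      exact (Submodule.mem_bot _).1 hFm
  rw [hF, map_zero] at h1
  have h2 : actH C X H h ((actH C X H e ^ r) v) = (r : K) • (actH C X H e ^ r) v := by
    have e1 : (r : Module.End K (H.A X)) ((actH C X H e ^ r) v) =
        (r : K) • (actH C X H e ^ r) v := by
      rw [Module.End.natCast_apply, Nat.cast_smul_eq_nsmul]
    rw [e1, ← Nat.cast_smul_eq_nsmul K, eq_comm, smul_eq_zero] at h1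
    rcases h1 with h1 | h1
    · exact absurd h1 (charZero_coeff H X (r + 1) (Nat.succ_ne_zero r))
    · exact sub_eq_zero.1 h1
  have h3 := congrArg (fun y : Cor C X => actH C X H y v) (e_pow_h' he r)
  simp only [map_mul, map_sub, map_ofNat, map_natCast, map_pow, Module.End.mul_apply,
    LinearMap.sub_apply] at h3
  have h4 : (2 : Module.End K (H.A X)) ((r : Module.End K (H.A X)) ((actH C X H e ^ r) v)) =
      (2 * (r : K)) • (actH C X H e ^ r) v := by
    have e1 : ∀ (n : ℕ) (y : H.A X), (n : Module.End K (H.A X)) y = (n : K) • y := by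
      intro n y
      rw [Module.End.natCast_apply, Nat.cast_smul_eq_nsmul]
    rw [e1 r]
    have e2 := e1 2 ((r : K) • (actH C X H e ^ r) v)
    rw [Nat.cast_ofNat, Nat.cast_ofNat] at e2
    rw [e2, smul_smul]
  rw [h2, h4, ← sub_smul] at h3
  rw [← sub_eq_zero]
  have h5 : actH C X H h v - (-(r : K)) • v ∈ H.gr X ((X.dim : ℤ) - r) := by
    refine Submodule.sub_mem _ ?_ (Submodule.smul_mem _ _ hv)
    have := actH_crg h0 hv
    rwa [mul_zero, add_zero] at this
  refine hl_inj hHL hr h5 ?_
  rw [map_pow, map_sub, map_smul, h3, ← sub_smul]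
  rw [show (r : K) - 2 * r - -r = 0 by ring, zero_smul]

/-- `h` acts as `-r` on `H^(d-r)`. -/
lemma h_low : ∀ s r : ℕ, r + s = X.dim → ∀ a ∈ H.gr X ((X.dim : ℤ) - r),
    actH C X H h a = (-(r : K)) • a := by
  intro s
  induction s using Nat.strong_induction_on with
  | _ s ih =>
    intro r hrs a ha
    have h4 : h * e = e * h + 2 * e := by rw [← he]; noncomm_ring
    have h5 : ∀ y : H.A X, actH C X H h (actH C X H e y) =
        actH C X H e (actH C X H h y) + (2 : K) • (actH C X H e y) := by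
      intro y
      have h6 := congrArg (fun z : Cor C X => actH C X H z y) h4
      simp only [map_mul, map_add, map_ofNat, Module.End.mul_apply, LinearMap.add_apply] at h6
      rw [h6]
      congr 1
      have e1 : ∀ (n : ℕ) (y : H.A X), (n : Module.End K (H.A X)) y = (n : K) • y := by
        intro n y
        rw [Module.End.natCast_apply, Nat.cast_smul_eq_nsmul]
      have e2 := e1 2 (actH C X H e y)
      rw [Nat.cast_ofNat, Nat.cast_ofNat] at e2
      exact e2
    have hea : actH C X H (e ^ (r + 1)) a ∈ H.gr X ((X.dim : ℤ) + (r + 2 : ℕ)) := by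
      have h6 : e ^ (r + 1) ∈ crg C X (r + 1 : ℕ) := by
        have := crg_pow hem (r + 1)
        rwa [mul_one] at this
      have := actH_crg h6 ha
      rwa [show (X.dim : ℤ) - r + 2 * ((r + 1 : ℕ) : ℤ) = X.dim + (r + 2 : ℕ) by
        push_cast; ring] at this
    rcases Nat.lt_or_ge s 2 with hs | hs
    · refine h_prim ef he hem hfm hHL (by omega) ha ?_
      rw [gr_top H (by push_cast; omega)] at hea
      exact (Submodule.mem_bot _).1 hea
    · obtain ⟨b, hb, hb2⟩ := hl_surj hHL (show r + 2 ≤ X.dim by omega) hea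
      have hbh := ih (s - 2) (by omega) (r + 2) (by omega) b hb
      have heb : actH C X H e b ∈ H.gr X ((X.dim : ℤ) - r) := by
        have := actH_crg hem hb
        rwa [show (X.dim : ℤ) - ((r + 2 : ℕ) : ℤ) + 2 * 1 = X.dim - r by push_cast; ring] at this
      have hp : actH C X H (e ^ (r + 1)) (a - actH C X H e b) = 0 := by
        rw [map_sub, ← hb2, sub_eq_zero]
        have e1 : e ^ (r + 2) = e ^ (r + 1) * e := pow_succ e (r + 1)
        rw [e1, map_mul]
        rfl
      have h7 := h_prim ef he hem hfm hHL (by omega) (Submodule.sub_mem _ ha heb) hp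
      have h8 : actH C X H h (actH C X H e b) = (-(r : K)) • actH C X H e b := by
        rw [h5, hbh, map_smul, ← add_smul]
        congr 1
        push_cast
        ring
      rw [map_sub, h8, smul_sub, sub_left_inj] at h7
      exact h7

/-- **`h` acts as `m - d` on `H^m`.** -/
theorem h_act (m : ℤ) (a : H.A X) (ha : a ∈ H.gr X m) :
    actH C X H h a = ((m : K) - X.dim) • a := by
  by_cases ha0 : a = 0
  · rw [ha0, map_zero, smul_zero]
  have hm0 := nonneg_of_mem H ha ha0
  have hm1 : m ≤ 2 * X.dim := by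
    by_contra hcon
    rw [gr_top H (by omega)] at ha
    exact ha0 ((Submodule.mem_bot _).1 ha)
  rcases le_or_gt m X.dim with hm | hm
  · obtain ⟨r, hr⟩ := Int.eq_ofNat_of_zero_le (show 0 ≤ (X.dim : ℤ) - m by omega)
    obtain ⟨s, hs⟩ := Int.eq_ofNat_of_zero_le hm0
    have h1 : m = (X.dim : ℤ) - r := by omega
    have h2 := h_low ef he hem hfm hHL s r (by omega) a (h1 ▸ ha)
    rw [h2]
    congr 1
    rw [h1]
    push_cast
    ring
  · obtain ⟨r, hr⟩ := Int.eq_ofNat_of_zero_le (show 0 ≤ m - (X.dim : ℤ) by omega)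
    have h1 : m = (X.dim : ℤ) + r := by omega
    obtain ⟨b, hb, hb2⟩ := hl_surj hHL (show r ≤ X.dim by omega) (h1 ▸ ha)
    have h2 := h_low ef he hem hfm hHL (X.dim - r) r (by omega) b hb
    have h3 : h * e ^ r = e ^ r * h + (2 * r : ℕ) • e ^ r := by
      rw [e_pow_h' he r, nsmul_eq_mul]
      push_cast
      noncomm_ring
    have h4 := congrArg (fun z : Cor C X => actH C X H z b) h3
    simp only [map_add, map_nsmul, LinearMap.add_apply, LinearMap.smul_apply] at h4
    rw [map_mul, map_mul, Module.End.mul_apply, Module.End.mul_apply, h2, map_smul, hb2] at h4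
    rw [h4, ← Nat.cast_smul_eq_nsmul K, ← add_smul]
    congr 1
    rw [h1]
    push_cast
    ring

end coh

/-- (i) implies (iv), compatibly with a set `T` of correspondences commuting with `L` and a
solution of the equation. -/
theorem exists_selfDual_of_solution {L : Cor C X} (hL : L ∈ crg C X 1) (hsym : tpR C X L = L)
    (hHL : HardLefschetzCor H X (L : C.A (X.prod X))) {z₀ : Cor C X} (hz₀ : z₀ ∈ crg C X (-1))
    (hz₀' : L * (L * z₀ - z₀ * L) - (L * z₀ - z₀ * L) * L = L) (T : Set (Cor C X))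
    (hT : ∀ g ∈ T, tpR C X g ∈ T) (hTL : ∀ g ∈ T, g * L = L * g) (hTz : ∀ g ∈ T, g * z₀ = z₀ * g) :
    ∃ P : ℕ → Cor C X, IsCK H X P ∧ IsSelfDual C (X := X) P ∧ MotivicLefschetz C (X := X) L P ∧
      ∀ g ∈ T, ∀ n, g * P n = P n * g := by
  -- a symmetric solution
  set z : Cor C X := -(z₀ + tpR C X z₀) with hz
  set h : Cor C X := L * z - z * L with hh
  have hzm : z ∈ crg C X (-1) := by
    refine Submodule.neg_mem _ (Submodule.add_mem _ hz₀ ?_)
    have : tp C (X := X) (Y := X) z₀ ∈ C.gr (X.prod X) ((X.dim : ℤ) + -1) := tp_mem C hz₀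
    exact this
  have htz : tpR C X z = z := by rw [hz, map_neg, map_add, tpR_tpR, add_comm]
  have hth : tpR C X h = -h := by
    rw [hh, map_sub, tpR_mul, tpR_mul, htz, hsym]
    noncomm_ring
  have hbr : ∀ x : Cor C X, tpR C X (L * x - x * L) = -(L * tpR C X x - tpR C X x * L) := by
    intro x
    rw [map_sub, tpR_mul, tpR_mul, hsym]
    noncomm_ring
  have h1 : L * (L * tpR C X z₀ - tpR C X z₀ * L) - (L * tpR C X z₀ - tpR C X z₀ * L) * L = L := by
    have h2 := congrArg (tpR C X) hz₀'
    rw [hbr, hsym] at h2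
    have h3 : tpR C X ((L * z₀ - z₀ * L)) = -(L * tpR C X z₀ - tpR C X z₀ * L) := hbr z₀
    rw [h3] at h2
    calc L * (L * tpR C X z₀ - tpR C X z₀ * L) - (L * tpR C X z₀ - tpR C X z₀ * L) * L
        = -(L * -(L * tpR C X z₀ - tpR C X z₀ * L) - -(L * tpR C X z₀ - tpR C X z₀ * L) * L) := by
          noncomm_ring
      _ = L := h2
  have he : h * L - L * h = 2 * L := by
    calc h * L - L * h
        = (L * (L * z₀ - z₀ * L) - (L * z₀ - z₀ * L) * L) +
          (L * (L * tpR C X z₀ - tpR C X z₀ * L) - (L * tpR C X z₀ - tpR C X z₀ * L) * L) := by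
          rw [hh, hz]; noncomm_ring
      _ = 2 * L := by rw [hz₀', h1, two_mul]
  have hh0 : h ∈ crg C X 0 := by
    refine Submodule.sub_mem _ ?_ ?_
    · have := crg_mul hL hzm
      rwa [show (1 : ℤ) + -1 = 0 by norm_num] at this
    · have := crg_mul hzm hL
      rwa [show (-1 : ℤ) + 1 = 0 by norm_num] at this
  have hE : L ^ (X.dim + 1) = 0 := crg_top (crg_pow hL (X.dim + 1)) (by push_cast; omega)
  have hTz2 : ∀ g ∈ T, g * tpR C X z₀ = tpR C X z₀ * g := by
    intro g hg
    have h2 := congrArg (tpR C X) (hTz _ (hT g hg))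
    rw [tpR_mul, tpR_mul, tpR_tpR] at h2
    exact h2.symm
  have hTz3 : ∀ g ∈ T, g * z = z * g := by
    intro g hg
    rw [hz, mul_neg, neg_mul, mul_add, add_mul, hTz g hg, hTz2 g hg]
  have hTh : ∀ g ∈ T, g * h = h * g := by
    intro g hg
    rw [hh, mul_sub, sub_mul, ← mul_assoc, hTL g hg, mul_assoc L g, hTz3 g hg, ← mul_assoc g z,
      hTz3 g hg, mul_assoc z g, hTL g hg]
    simp only [mul_assoc]
  obtain ⟨f, hf, t⟩ := morozov hE rfl he (crg C X (-1)) hzm (fun x hx => by
    refine Submodule.sub_mem _ ?_ ?_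
    · have := crg_mul hh0 hx
      rwa [zero_add] at this
    · have := crg_mul hx hh0
      rwa [add_zero] at this)
  have hF : f ^ (X.dim + 1) = 0 := crg_bot (crg_pow hf (X.dim + 1)) (by push_cast; omega)
  have hact := h_act (H := H) t.ef he hL hf hHL
  have hhc : h ∈ cor0 C X := crg_zero_iff.1 hh0
  let P : ℕ → Cor C X := fun n => wp h (X.dim + 1) ((n : ℤ) - X.dim)
  have hPm : ∀ n, P n ∈ cor0 C X := by
    intro n
    simp only [P]
    unfold wp
    split_ifs
    · exact (Algebra.adjoin_le (Set.singleton_subset_iff.2 hhc) :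
        Algebra.adjoin ℚ {h} ≤ cor0 C X) (Polynomial.aeval_mem_adjoin_singleton ℚ h)
    · exact (cor0 C X).zero_mem
  have hwts : ∀ n : ℕ, ((n : ℤ) - X.dim) ∈ wts (X.dim + 1) ↔ n ≤ 2 * X.dim := by
    intro n
    unfold wts
    rw [Finset.mem_Ioo]
    push_cast
    constructor
    · intro h; omega
    · intro h; constructor <;> omega
  have hPout : ∀ n, 2 * X.dim < n → P n = 0 := by
    intro n hn
    simp only [P]
    unfold wp
    rw [if_neg]
    rw [hwts]
    omega
  have hPP : ∀ i j, P i * P j = if i = j then P i else 0 := by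
    intro i j
    simp only [P]
    rw [wp_mul t hE hF]
    by_cases hij : i = j
    · rw [if_pos (by omega), if_pos hij]
    · rw [if_neg (by omega), if_neg hij]
  have hPs : ∑ i ∈ Finset.range (2 * X.dim + 1), P i = 1 := by
    rw [← wp_sum t hE hF]
    refine Finset.sum_bij (fun (n : ℕ) _ => (n : ℤ) - X.dim) ?_ ?_ ?_ ?_
    · intro n hn
      rw [Finset.mem_range] at hn
      exact (hwts n).2 (by omega)
    · intro a _ b _ hab
      omega
    · intro j hj
      unfold wts at hj
      rw [Finset.mem_Ioo] at hj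
      push_cast at hj
      refine ⟨(j + X.dim).toNat, ?_, ?_⟩
      · rw [Finset.mem_range]; omega
      · omega
    · intro n _; rfl
  -- the action on the cohomology
  have hPact : ∀ (i : ℕ) (m : ℤ) (a : H.A X), a ∈ H.gr X m →
      actH C X H (P i) a = if m = i then a else 0 := by
    have hne : ∀ (i : ℕ) (m : ℤ) (a : H.A X), a ∈ H.gr X m → m ≠ i → actH C X H (P i) a = 0 := by
      intro i m a ha hmi
      have e1 : h * P i = (((i : ℤ) - X.dim : ℤ) : Cor C X) * P i := by
        simp only [P]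
        rw [h_wp t hE hF, Algebra.smul_def, map_intCast]
      have e2 : P i * h = h * P i := h_wp_comm _
      have h2 := congrArg (fun y : Cor C X => actH C X H y a) e2
      rw [e1] at h2
      simp only [map_mul, map_intCast, Module.End.mul_apply] at h2
      rw [hact m a ha, map_smul] at h2
      have e3 : ∀ (n : ℤ) (y : H.A X), (n : Module.End K (H.A X)) y = (n : K) • y := by
        intro n y
        rw [Module.End.intCast_apply, Int.cast_smul_eq_zsmul]
      rw [e3, ← sub_eq_zero, ← sub_smul, smul_eq_zero] at h2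
      rcases h2 with h2 | h2
      · exfalso
        have h3 : ((m - i : ℤ) : K) = 0 := by
          rw [← h2]
          push_cast
          ring
        obtain ⟨n, hn⟩ := (m - i).eq_nat_or_neg
        have hn0 : n ≠ 0 := by
          rintro rfl
          apply hmi
          rcases hn with hn | hn <;> omega
        have h4 : ((n : ℕ) : K) = 0 := by
          rcases hn with hn | hn
          · rw [hn, Int.cast_natCast] at h3
            exact h3
          · rw [hn, Int.cast_neg, Int.cast_natCast, neg_eq_zero] at h3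
            exact h3
        exact charZero_coeff H X n hn0 h4
      · exact h2
    intro i m a ha
    split_ifs with hmi
    · by_cases ha0 : a = 0
      · rw [ha0, map_zero]
      have hm1 : m ≤ 2 * X.dim := by
        by_contra hcon
        rw [gr_top H (by omega)] at ha
        exact ha0 ((Submodule.mem_bot _).1 ha)
      have h3 : actH C X H (∑ n ∈ Finset.range (2 * X.dim + 1), P n) a = a := by
        rw [hPs, map_one]; rfl
      rw [map_sum, LinearMap.sum_apply, Finset.sum_eq_single i] at h3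
      · exact h3
      · intro j _ hj
        refine hne j m a ha ?_
        intro h4
        apply hj
        omega
      · intro h4
        exfalso
        apply h4
        rw [Finset.mem_range]
        omega
    · exact hne i m a ha hmi
  have hPT : ∀ g ∈ T, ∀ n, g * P n = P n * g := by
    intro g hg n
    have h2 : Algebra.adjoin ℚ {h} ≤ Subalgebra.centralizer ℚ {g} := by
      refine Algebra.adjoin_le (Set.singleton_subset_iff.2 ?_)
      rw [SetLike.mem_coe, Subalgebra.mem_centralizer_iff]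
      intro g' hg'
      rw [Set.mem_singleton_iff] at hg'
      subst hg'
      exact hTh _ hg
    simp only [P]
    unfold wp
    split_ifs
    · have h3 := h2 (Polynomial.aeval_mem_adjoin_singleton ℚ h (p := Lagrange.basis
        (wts (X.dim + 1)) (fun j : ℤ => (j : ℚ)) ((n : ℤ) - X.dim)))
      rw [Subalgebra.mem_centralizer_iff] at h3
      exact h3 g rfl
    · rw [mul_zero, zero_mul]
  refine ⟨P, isCK_of hPm hPout hPP hPs hPact, ?_, ⟨?_, ?_⟩, hPT⟩
  · intro n hn
    change tpR C X (P n) = P (2 * X.dim - n)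
    simp only [P]
    rw [anti_wp t hE hF (tpR C X) tpR_mul tpR_one tpR_smul hth]
    congr 1
    omega
  · intro n
    change L * P n = P (n + 2) * L
    simp only [P]
    rw [e_wp t hE hF]
    congr 2
    push_cast
    ring
  · intro n hn
    obtain ⟨g, hg1, hg2, hg3⟩ := exists_lefschetz_inverse t hE hF (X.dim - n)
    set r := X.dim - n with hr
    have hLr : L ^ r ∈ crg C X r := by
      have := crg_pow hL r
      rwa [mul_one] at this
    have hn0 : P n = wp h (X.dim + 1) (-(r : ℤ)) := by
      simp only [P]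
      congr 1
      omega
    have hn1 : P (2 * X.dim - n) = wp h (X.dim + 1) (r : ℤ) := by
      simp only [P]
      congr 1
      omega
    have hP0 : ∀ n, P n ∈ crg C X 0 := fun n => crg_zero_iff.2 (hPm n)
    let φ : Cor C X →ₗ[ℚ] Cor C X := LinearMap.mulRight ℚ (L ^ r * P n)
    let ψ : Cor C X →ₗ[ℚ] Cor C X := LinearMap.mulLeft ℚ (L ^ r)
    have hφ : ∀ i, ∀ x ∈ crg C X i, φ x ∈ crg C X (i + r) := by
      intro i x hx
      have := crg_mul hx (crg_mul hLr (hP0 n))
      rwa [add_zero] at this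
    have hψ : ∀ i, ∀ x ∈ crg C X i, ψ x ∈ crg C X (i + r) := by
      intro i x hx
      have := crg_mul hLr hx
      rwa [add_comm] at this
    have k1 := cmpc_map φ r hφ (-r) g
    have k2 := cmpc_map ψ r hψ (-r) g
    have e1 : φ g = P n := by
      change g * (L ^ r * P n) = P n
      rw [hn0, ← mul_assoc, hg1]
    have e2 : ψ g = P (2 * X.dim - n) := by
      change L ^ r * g = _
      rw [hn1, hg2]
    rw [e1, neg_add_cancel, cmpc_of_mem (hP0 n)] at k1
    rw [e2, neg_add_cancel, cmpc_of_mem (hP0 _)] at k2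
    refine ⟨cmpc C X (-r) g, ?_, ?_, ?_⟩
    · have h9 := cmpc_mem (C := C) (-r : ℤ) g
      rw [mem_crg, show (X.dim : ℤ) + -(r : ℤ) = n by omega] at h9
      exact h9
    · rw [corPow_eq]
      exact k1.symm
    · rw [corPow_eq]
      have e3 : P (2 * X.dim - n) * P (2 * X.dim - n) = P (2 * X.dim - n) := by
        rw [hPP, if_pos rfl]
      have e4 : L ^ r * (cmpc C X (-r) g * P (2 * X.dim - n)) = P (2 * X.dim - n) := by
        have k3 : P (2 * X.dim - n) = L ^ r * cmpc C X (-r) g := k2
        rw [← mul_assoc, ← k3, e3]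
      exact e4

/-- (i) implies (iv). -/
theorem exists_selfDual_of_inSquare {L : Cor C X} (hL : L ∈ crg C X 1) (hsym : tpR C X L = L)
    (hHL : HardLefschetzCor H X (L : C.A (X.prod X))) (hS : InSquare C (X := X) L) :
    ∃ π, IsCK H X π ∧ IsSelfDual C π ∧ MotivicLefschetz C (X := X) L π := by
  rw [inSquare_iff] at hS
  obtain ⟨z₀, hz₀, hz₀'⟩ := hS
  obtain ⟨P, h1, h2, h3, _⟩ := exists_selfDual_of_solution hL hsym hHL hz₀ hz₀' ∅ (by simp)
    (by simp) (by simp)
  exact ⟨P, h1, h2, h3⟩

/-- (i) implies (v): the decomposition can be chosen equivariant for a finite group. -/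
theorem exists_equivariant_of_inSquare {L : Cor C X} (hL : L ∈ crg C X 1) (hsym : tpR C X L = L)
    (hHL : HardLefschetzCor H X (L : C.A (X.prod X))) (hS : InSquare C (X := X) L)
    {G : Type} [Group G] [Finite G] (ρ : G → Cor C X) (hρ0 : ∀ g, ρ g ∈ crg C X 0)
    (hρ1 : ρ 1 = 1) (hρm : ∀ g g', ρ (g * g') = ρ g * ρ g') (hρt : ∀ g, tpR C X (ρ g) = ρ g⁻¹)
    (hρL : ∀ g, ρ g * L = L * ρ g) :
    ∃ P : ℕ → Cor C X, IsCK H X P ∧ IsSelfDual C (X := X) P ∧ MotivicLefschetz C (X := X) L P ∧
      ∀ g n, ρ g * P n = P n * ρ g := by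
  rw [inSquare_iff] at hS
  obtain ⟨z₀, hz₀, hz₀'⟩ := hS
  have := Fintype.ofFinite G
  -- the average
  let φ : Cor C X →ₗ[ℚ] Cor C X := (Fintype.card G : ℚ)⁻¹ • ∑ g : G,
    (LinearMap.mulLeft ℚ (ρ g) * LinearMap.mulRight ℚ (ρ g⁻¹))
  have hφ : ∀ x, φ x = (Fintype.card G : ℚ)⁻¹ • ∑ g : G, ρ g * (x * ρ g⁻¹) := by
    intro x
    simp only [φ, LinearMap.smul_apply, LinearMap.sum_apply, Module.End.mul_apply,
      LinearMap.mulLeft_apply, LinearMap.mulRight_apply]
  have hinv : ∀ g : G, ρ g * ρ g⁻¹ = 1 := fun g => by rw [← hρm, mul_inv_cancel, hρ1]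
  have hinv' : ∀ g : G, ρ g⁻¹ * ρ g = 1 := fun g => by rw [← hρm, inv_mul_cancel, hρ1]
  have hcard : (Fintype.card G : ℚ) ≠ 0 := by
    exact_mod_cast Fintype.card_ne_zero
  have hφL : φ L = L := by
    rw [hφ]
    have h1 : ∀ g ∈ (Finset.univ : Finset G), ρ g * (L * ρ g⁻¹) = L := by
      intro g _
      rw [← mul_assoc, hρL, mul_assoc, hinv, mul_one]
    rw [Finset.sum_congr rfl h1, Finset.sum_const, Finset.card_univ, ← Nat.cast_smul_eq_nsmul ℚ,
      smul_smul, inv_mul_cancel₀ hcard, one_smul]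
  have hφl : ∀ x, φ (L * x) = L * φ x := by
    intro x
    rw [hφ, hφ, mul_smul_comm, Finset.mul_sum]
    congr 1
    refine Finset.sum_congr rfl fun g _ => ?_
    rw [mul_assoc L x, ← mul_assoc, hρL, mul_assoc]
  have hφr : ∀ x, φ (x * L) = φ x * L := by
    intro x
    rw [hφ, hφ, smul_mul_assoc, Finset.sum_mul]
    congr 1
    refine Finset.sum_congr rfl fun g _ => ?_
    rw [mul_assoc x L, ← hρL, mul_assoc (ρ g), mul_assoc x]
  have hφm : φ z₀ ∈ crg C X (-1) := by
    rw [hφ]
    refine Submodule.smul_mem _ _ (Submodule.sum_mem _ fun g _ => ?_)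
    have := crg_mul (hρ0 g) (crg_mul hz₀ (hρ0 g⁻¹))
    rwa [add_zero, zero_add] at this
  have hφz : L * (L * φ z₀ - φ z₀ * L) - (L * φ z₀ - φ z₀ * L) * L = L := by
    have h1 := congrArg φ hz₀'
    rw [map_sub, hφl, hφr, map_sub, hφl, hφr, hφL] at h1
    exact h1
  have hφc : ∀ g : G, ρ g * φ z₀ = φ z₀ * ρ g := by
    intro g
    rw [hφ, mul_smul_comm, smul_mul_assoc, Finset.mul_sum, Finset.sum_mul]
    congr 1
    refine Fintype.sum_equiv (Equiv.mulLeft g) _ _ fun g' => ?_
    rw [Equiv.coe_mulLeft, mul_inv_rev, hρm g g', hρm g'⁻¹ g⁻¹, mul_assoc (ρ g * ρ g'),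
      mul_assoc z₀, mul_assoc (ρ g'⁻¹), hinv', mul_one, mul_assoc (ρ g)]
  obtain ⟨P, h1, h2, h3, h4⟩ := exists_selfDual_of_solution hL hsym hHL hφm hφz (Set.range ρ)
    (by
      rintro _ ⟨g, rfl⟩
      exact ⟨g⁻¹, (hρt g).symm⟩)
    (by
      rintro _ ⟨g, rfl⟩
      exact hρL g)
    (by
      rintro _ ⟨g, rfl⟩
      exact hφc g)
  exact ⟨P, h1, h2, h3, fun g n => h4 _ ⟨g, rfl⟩ n⟩

end Pool.Agent.Y107
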