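import Pool.Agent.Y107.Sl2Idem
import Pool.Agent.Y107.Grad
import Pool.Agent.Y107.SDDefs
import Pool.Agent.TH133.SelfDual

/-!
# Self-dual Chow-Kunneth decompositions and motivic hard Lefschetz: the ring of correspondences
-/

open CategoryTheory AlgebraicGeometry

universe u v w

namespace Pool.Agent.Y107

open Pool.Agent.H914 Pool.Agent.H914.VarClass Pool.Agent.H914.VarClass.Obj Pool.Agent.W492.BB
  Pool.Agent.W550.Corr Pool.Agent.TH133

set_option linter.unusedSectionVars false

variable {k : Type u} [Field k] {𝒱 : VarClass k}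

section chow

variable {C : TheoryData.{u, v, 0} 𝒱 ℚ} [hC : IsChowProj C] {X : 𝒱.Obj}

include hC

omit hC in
/-- The correspondences given by cycles of codimension `j`. -/
noncomputable def corGr (C : TheoryData.{u, v, 0} 𝒱 ℚ) (X : 𝒱.Obj) (j : ℤ) :
    Submodule ℚ (Cor C X) := C.gr (X.prod X) j

variable (C X) in
lemma corGr_internal : DirectSum.IsInternal (corGr C X) := C.isInternal (X.prod X)

omit hC in
/-- The correspondences of degree `j`. -/
noncomputable def crg (C : TheoryData.{u, v, 0} 𝒱 ℚ) (X : 𝒱.Obj) (j : ℤ) :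
    Submodule ℚ (Cor C X) := corGr C X ((X.dim : ℤ) + j)

lemma mem_crg {a : Cor C X} {j : ℤ} :
    a ∈ crg C X j ↔ (a : C.A (X.prod X)) ∈ C.gr (X.prod X) ((X.dim : ℤ) + j) := Iff.rfl

lemma crg_mul {a b : Cor C X} {i j : ℤ} (ha : a ∈ crg C X i) (hb : b ∈ crg C X j) :
    a * b ∈ crg C X (i + j) := by
  have h := comp_mem C (X := X) (Y := X) (Z := X) hb ha
  rw [add_comm j i] at h
  exact h

lemma crg_one : (1 : Cor C X) ∈ crg C X 0 := by
  have h := dg_mem C X
  rw [mem_crg, add_zero]
  exact h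

lemma crg_pow {a : Cor C X} {i : ℤ} (ha : a ∈ crg C X i) (n : ℕ) : a ^ n ∈ crg C X (n * i) := by
  induction n with
  | zero => simpa using crg_one
  | succ n ih =>
    rw [pow_succ]
    have := crg_mul ih ha
    rwa [show (n : ℤ) * i + i = ((n + 1 : ℕ) : ℤ) * i by push_cast; ring] at this

lemma crg_zero_iff {a : Cor C X} : a ∈ crg C X 0 ↔ a ∈ cor0 C X := by
  rw [mem_crg, mem_cor0, add_zero]

lemma crg_top {a : Cor C X} {j : ℤ} (ha : a ∈ crg C X j) (h : (X.dim : ℤ) < j) : a = 0 :=
  hC.gr_top (X.prod X) _ a ha (by rw [dim_prod]; push_cast; omega)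

lemma crg_bot {a : Cor C X} {j : ℤ} (ha : a ∈ crg C X j) (h : j < -(X.dim : ℤ)) : a = 0 := by
  rw [mem_crg, C.gr_neg _ _ (by omega)] at ha
  exact (Submodule.mem_bot _).1 ha

lemma corPow_eq (L : Cor C X) (n : ℕ) : corPow C (X := X) L n = (L ^ n : Cor C X) := by
  induction n with
  | zero => rfl
  | succ n ih =>
    have h1 : ∀ M : Cor C X, corPow C (X := X) L n = M → corPow C (X := X) L (n + 1) = L * M := by
      intro M hM
      rw [← hM]
      rfl
    rw [h1 _ ih, pow_succ']

lemma brk_eq (L z : Cor C X) : brk C (X := X) L z = (L * z - z * L : Cor C X) := rfl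

lemma inSquare_iff (L : Cor C X) : InSquare C (X := X) L ↔
    ∃ z ∈ crg C X (-1), L * (L * z - z * L) - (L * z - z * L) * L = L := Iff.rfl

lemma powersRegular_iff (L : Cor C X) : PowersRegular C (X := X) L ↔
    ∀ c : ℕ, ∃ y ∈ crg C X (-c), L ^ c * y * L ^ c = L ^ c := by
  have e1 : ∀ (c : ℕ) (y : Cor C X), C.comp (X := X) (Y := X) (Z := X)
      (C.comp (X := X) (Y := X) (Z := X) (corPow C (X := X) L c) y) (corPow C (X := X) L c) =
      L ^ c * y * L ^ c := by
    intro c y
    rw [corPow_eq, mul_assoc]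
    rfl
  constructor
  · intro h c
    obtain ⟨y, hy, h1⟩ := h c
    refine ⟨y, hy, ?_⟩
    rw [← e1, h1, corPow_eq]
  · intro h c
    obtain ⟨y, hy, h1⟩ := h c
    refine ⟨y, hy, ?_⟩
    rw [e1, h1, corPow_eq]

variable (C X) in
/-- The homogeneous components of correspondences. -/
noncomputable def cmpc (i : ℤ) : Cor C X →ₗ[ℚ] Cor C X := cmp (corGr_internal C X) ((X.dim : ℤ) + i)

lemma cmpc_mem (i : ℤ) (x : Cor C X) : cmpc C X i x ∈ crg C X i :=
  cmp_mem (corGr_internal C X) _ x

lemma cmpc_of_mem {i : ℤ} {x : Cor C X} (hx : x ∈ crg C X i) : cmpc C X i x = x :=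
  cmp_of_mem (corGr_internal C X) hx

lemma cmpc_map (φ : Cor C X →ₗ[ℚ] Cor C X) (s : ℤ)
    (hφ : ∀ i, ∀ x ∈ crg C X i, φ x ∈ crg C X (i + s)) (i : ℤ) (x : Cor C X) :
    cmpc C X (i + s) (φ x) = φ (cmpc C X i x) := by
  have h := cmp_map (corGr_internal C X) φ s (fun j y hy => by
    have h1 : y ∈ crg C X (j - X.dim) := by
      rw [crg, show (X.dim : ℤ) + (j - X.dim) = j by ring]
      exact hy
    have h2 := hφ _ y h1
    rw [crg, show (X.dim : ℤ) + (j - X.dim + s) = j + s by ring] at h2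
    exact h2) ((X.dim : ℤ) + i) x
  rw [show (X.dim : ℤ) + i + s = X.dim + (i + s) by ring] at h
  exact h

/-- (ii) implies (i): a nilpotent correspondence with regular powers. -/
theorem inSquare_of_powersRegular {L : Cor C X} (hL : L ∈ crg C X 1)
    (h : PowersRegular C (X := X) L) : InSquare C (X := X) L := by
  rw [powersRegular_iff] at h
  rw [inSquare_iff]
  have hN : L ^ (X.dim + 1) = 0 := crg_top (crg_pow hL (X.dim + 1)) (by push_cast; omega)
  obtain ⟨z, hz⟩ := exists_of_regular hN (fun c => by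
    obtain ⟨y, _, hy⟩ := h c
    exact ⟨y, hy⟩)
  let φ : Cor C X →ₗ[ℚ] Cor C X := adQ L * adQ L
  have hφ : ∀ x, φ x = L * (L * x - x * L) - (L * x - x * L) * L := fun x => rfl
  have hφ2 : ∀ i, ∀ x ∈ crg C X i, φ x ∈ crg C X (i + 2) := by
    intro i x hx
    have h1 : L * x - x * L ∈ crg C X (i + 1) := by
      refine Submodule.sub_mem _ ?_ (crg_mul hx hL)
      have := crg_mul hL hx
      rwa [add_comm] at this
    rw [hφ, show i + 2 = i + 1 + 1 by ring]
    refine Submodule.sub_mem _ ?_ (crg_mul h1 hL)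
    have := crg_mul hL h1
    rwa [add_comm 1] at this
  refine ⟨cmpc C X (-1) z, cmpc_mem _ _, ?_⟩
  have h3 := cmpc_map φ 2 hφ2 (-1) z
  rw [hφ z, hz, show (-1 : ℤ) + 2 = 1 by norm_num, cmpc_of_mem hL, hφ] at h3
  exact h3.symm

variable {K : Type w} [Field K] {H : WeilTheoryData.{u, v, w} C K} [hH : IsWeilProj H]

include hH

/-- (iii) implies (ii). -/
theorem powersRegular_of_motivicLefschetz {L : Cor C X} (hL : L ∈ crg C X 1)
    {P : ℕ → Cor C X} (hP : IsCK H X P) (hM : MotivicLefschetz C (X := X) L P) :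
    PowersRegular C (X := X) L := by
  rw [powersRegular_iff]
  have h1 : ∀ n, L * P n = P (n + 2) * L := hM.homogeneous
  have h2 : ∀ (c n : ℕ), L ^ c * P n = P (n + 2 * c) * L ^ c := by
    intro c
    induction c with
    | zero => intro n; simp
    | succ c ih =>
      intro n
      rw [pow_succ', mul_assoc, ih, ← mul_assoc, h1, mul_assoc]
      rfl
  have h3 : ∀ n ≤ X.dim, ∃ g ∈ crg C X ((n : ℤ) - X.dim), g * L ^ (X.dim - n) * P n = P n ∧
      L ^ (X.dim - n) * g * P (2 * X.dim - n) = P (2 * X.dim - n) := by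
    intro n hn
    obtain ⟨g, hg, hg1, hg2⟩ := hM.iso n hn
    refine ⟨g, ?_, ?_, ?_⟩
    · rw [mem_crg, show (X.dim : ℤ) + ((n : ℤ) - X.dim) = n by ring]
      exact hg
    · rw [corPow_eq] at hg1
      rw [mul_assoc]
      exact hg1
    · rw [corPow_eq] at hg2
      rw [mul_assoc]
      exact hg2
  have hPP := fun i j => hP.mul_eq i j
  have hP0 : ∀ n, P n ∈ crg C X 0 := fun n => crg_zero_iff.2 (hP.deg n)
  have hL' : ∀ c : ℕ, L ^ c ∈ crg C X c := fun c => by
    have := crg_pow hL c
    rwa [mul_one] at this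
  -- the partial inverses
  have key : ∀ c n : ℕ, ∃ y ∈ crg C X (-c),
      L ^ c * (P n * y * P (n + 2 * c)) * L ^ c = L ^ c * P n := by
    intro c n
    rcases le_or_gt (n + c) X.dim with hnc | hnc
    · obtain ⟨g, hg, hg1, _⟩ := h3 n (by omega)
      refine ⟨g * L ^ (X.dim - n - c), ?_, ?_⟩
      · have := crg_mul hg (hL' (X.dim - n - c))
        rwa [show (n : ℤ) - X.dim + ((X.dim - n - c : ℕ) : ℤ) = -c by omega] at this
      · have e1 : P (n + 2 * c) * L ^ c = L ^ c * P n := (h2 c n).symm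
        calc L ^ c * (P n * (g * L ^ (X.dim - n - c)) * P (n + 2 * c)) * L ^ c
            = L ^ c * (P n * (g * (L ^ (X.dim - n - c) * (P (n + 2 * c) * L ^ c)))) := by
              simp only [mul_assoc]
          _ = L ^ c * (P n * (g * (L ^ (X.dim - n - c) * L ^ c) * P n)) := by
              rw [e1]; simp only [mul_assoc]
          _ = L ^ c * (P n * P n) := by
              rw [← pow_add, show X.dim - n - c + c = X.dim - n by omega, hg1]
          _ = L ^ c * P n := by rw [hPP, if_pos rfl]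
    · rcases le_or_gt (n + 2 * c) (2 * X.dim) with hn2 | hn2
      · obtain ⟨g, hg, _, hg2⟩ := h3 (2 * X.dim - (n + 2 * c)) (by omega)
        refine ⟨L ^ (n + c - X.dim) * g, ?_, ?_⟩
        · have := crg_mul (hL' (n + c - X.dim)) hg
          rwa [show ((n + c - X.dim : ℕ) : ℤ) + (((2 * X.dim - (n + 2 * c) : ℕ) : ℤ) - X.dim) = -c
            by omega] at this
        · have e0 : 2 * X.dim - (2 * X.dim - (n + 2 * c)) = n + 2 * c := by omega
          rw [e0] at hg2
          calc L ^ c * (P n * (L ^ (n + c - X.dim) * g) * P (n + 2 * c)) * L ^ c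
              = (L ^ c * P n) * (L ^ (n + c - X.dim) * g * P (n + 2 * c)) * L ^ c := by
                simp only [mul_assoc]
            _ = P (n + 2 * c) * (L ^ c * L ^ (n + c - X.dim) * g * P (n + 2 * c)) * L ^ c := by
                rw [h2]; simp only [mul_assoc]
            _ = P (n + 2 * c) * P (n + 2 * c) * L ^ c := by
                rw [← pow_add, show c + (n + c - X.dim) = X.dim - (2 * X.dim - (n + 2 * c)) by omega,
                  hg2]
            _ = L ^ c * P n := by rw [hPP, if_pos rfl, h2]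
      · refine ⟨0, Submodule.zero_mem _, ?_⟩
        have h4 : P (n + 2 * c) = 0 := hP.out _ hn2
        rw [h2, h4, mul_zero, mul_zero, zero_mul]
  intro c
  choose y hy hy2 using key c
  refine ⟨∑ n ∈ Finset.range (2 * X.dim + 1), P n * y n * P (n + 2 * c), ?_, ?_⟩
  · refine Submodule.sum_mem _ fun n _ => ?_
    have := crg_mul (crg_mul (hP0 n) (hy n)) (hP0 (n + 2 * c))
    rwa [zero_add, add_zero] at this
  · rw [Finset.mul_sum, Finset.sum_mul, Finset.sum_congr rfl fun n _ => hy2 n, ← Finset.mul_sum,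
      hP.sum_eq, mul_one]

end chow

end Pool.Agent.Y107
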