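import Pool.Agent.Y107.Sl2Mod

/-!
# The weight idempotents of an `sl(2)`-triple in an associative algebra
-/

open Finset

namespace Pool.Agent.Y107

open Pool.Agent.H914

variable {A : Type*} [Ring A] [Algebra ℚ A]

/-- The weights. -/
noncomputable def wts (N : ℕ) : Finset ℤ := Finset.Ioo (-(N : ℤ)) N

lemma wts_inj (N : ℕ) : Set.InjOn (fun j : ℤ => (j : ℚ)) (wts N) :=
  fun _ _ _ _ h => Int.cast_injective h

/-- The weight idempotents, as polynomials in `h`. -/
noncomputable def wp (h : A) (N : ℕ) (j : ℤ) : A :=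
  if j ∈ wts N then Polynomial.aeval h (Lagrange.basis (wts N) (fun j : ℤ => (j : ℚ)) j) else 0

section sl2

variable {h e f : A} (t : Sl2 h e f) {N : ℕ} (hE : e ^ N = 0) (hF : f ^ N = 0)

lemma lmul_apply (a x : A) : Algebra.lmul ℚ A a x = a * x := rfl

include t in
lemma lmul_sl2 : Sl2 (Algebra.lmul ℚ A h) (Algebra.lmul ℚ A e) (Algebra.lmul ℚ A f) where
  ef := by rw [← map_mul, ← map_mul, ← map_sub, t.ef]
  he := by
    rw [← map_mul, ← map_mul, ← map_sub, t.he, map_mul, map_ofNat]
  hf := by
    rw [← map_mul, ← map_mul, ← map_sub, t.hf, map_neg, map_mul, map_ofNat]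

lemma lmul_pow_zero {a : A} {N : ℕ} (ha : a ^ N = 0) : (Algebra.lmul ℚ A a) ^ N = 0 := by
  rw [← map_pow, ha, map_zero]

include t hE hF

/-- A polynomial vanishing at the weights vanishes at `h`. -/
lemma aeval_eq_zero {Q : Polynomial ℚ} (hQ : ∀ j ∈ wts N, Q.eval (j : ℚ) = 0) :
    Polynomial.aeval h Q = 0 := by
  have h1 := mem_iSup_wt (lmul_sl2 t) (lmul_pow_zero hE) (lmul_pow_zero hF) (1 : A)
  have h2 : (⨆ (j : ℤ) (_ : -(N : ℤ) < j ∧ j < N), wt (Algebra.lmul ℚ A h) (j : ℚ)) ≤
      LinearMap.ker (Polynomial.aeval (Algebra.lmul ℚ A h) Q) := by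
    refine iSup₂_le fun j hj v hv => ?_
    rw [LinearMap.mem_ker]
    have hgen : ∀ p : Polynomial ℚ,
        (Polynomial.aeval (Algebra.lmul ℚ A h) p) v = (p.eval (j : ℚ)) • v := by
      intro p
      induction p using Polynomial.induction_on' with
      | add p q hp hq => rw [map_add, LinearMap.add_apply, hp, hq, Polynomial.eval_add, add_smul]
      | monomial n a =>
        rw [Polynomial.aeval_monomial, Module.End.mul_apply, Module.algebraMap_end_apply,
          Polynomial.eval_monomial, mul_smul]
        congr 1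
        induction n with
        | zero => simp
        | succ n ih =>
          rw [pow_succ', Module.End.mul_apply, ih, map_smul, mem_wt.1 hv, smul_smul, pow_succ]
    rw [hgen, hQ j (by rw [wts, Finset.mem_Ioo]; exact hj), zero_smul]
  have h3 := h2 h1
  rw [LinearMap.mem_ker, Polynomial.aeval_algHom_apply, lmul_apply, mul_one] at h3
  exact h3

lemma aeval_congr {P Q : Polynomial ℚ} (hQ : ∀ j ∈ wts N, P.eval (j : ℚ) = Q.eval (j : ℚ)) :
    Polynomial.aeval h P = Polynomial.aeval h Q := by
  rw [← sub_eq_zero, ← map_sub]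
  exact aeval_eq_zero t hE hF fun j hj => by rw [Polynomial.eval_sub, hQ j hj, sub_self]

omit t hE hF in
lemma eval_basis' {N : ℕ} {i j : ℤ} (hi : i ∈ wts N) (hj : j ∈ wts N) :
    (Lagrange.basis (wts N) (fun j : ℤ => (j : ℚ)) i).eval (j : ℚ) = if i = j then 1 else 0 := by
  split_ifs with h
  · subst h
    exact Lagrange.eval_basis_self (wts_inj N) hi
  · exact Lagrange.eval_basis_of_ne h hj

lemma wp_mul (i j : ℤ) : wp h N i * wp h N j = if i = j then wp h N i else 0 := by
  unfold wp
  by_cases hi : i ∈ wts N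
  · by_cases hj : j ∈ wts N
    · rw [if_pos hi, if_pos hj, ← map_mul]
      split_ifs with h1
      · subst h1
        refine aeval_congr t hE hF fun l hl => ?_
        rw [Polynomial.eval_mul, eval_basis' hi hl]
        split_ifs <;> simp
      · refine aeval_eq_zero t hE hF fun l hl => ?_
        rw [Polynomial.eval_mul, eval_basis' hi hl, eval_basis' hj hl]
        split_ifs with h2 h3
        · exact absurd (h2.trans h3.symm) h1
        · simp
        · simp
        · simp
    · rw [if_neg hj, mul_zero]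
      split_ifs with h1
      · exact absurd (h1 ▸ hi) hj
      · rfl
  · rw [if_neg hi, zero_mul]
    split_ifs <;> rfl

lemma wp_sum : ∑ j ∈ wts N, wp h N j = 1 := by
  have h1 : ∑ j ∈ wts N, wp h N j = Polynomial.aeval h
      (∑ j ∈ wts N, Lagrange.basis (wts N) (fun j : ℤ => (j : ℚ)) j) := by
    rw [map_sum]
    refine sum_congr rfl fun j hj => ?_
    unfold wp
    rw [if_pos hj]
  rw [h1, ← map_one (Polynomial.aeval (R := ℚ) h)]
  refine aeval_congr t hE hF fun l hl => ?_
  rw [Polynomial.eval_finset_sum, sum_eq_single l]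
  · rw [eval_basis' hl hl, if_pos rfl, Polynomial.eval_one]
  · intro j hj hjl
    rw [eval_basis' hj hl, if_neg hjl]
  · intro h2
    exact absurd hl h2

lemma h_wp (j : ℤ) : h * wp h N j = (j : ℚ) • wp h N j := by
  unfold wp
  by_cases hj : j ∈ wts N
  · rw [if_pos hj]
    have e1 : h * Polynomial.aeval h (Lagrange.basis (wts N) (fun j : ℤ => (j : ℚ)) j) =
        Polynomial.aeval h (Polynomial.X * Lagrange.basis (wts N) (fun j : ℤ => (j : ℚ)) j) := by
      rw [map_mul, Polynomial.aeval_X]
    rw [e1, ← map_smul]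
    refine aeval_congr t hE hF fun l hl => ?_
    rw [Polynomial.eval_mul, Polynomial.eval_X, Polynomial.eval_smul, eval_basis' hj hl,
      smul_eq_mul]
    split_ifs with h1
    · rw [h1]
    · simp
  · rw [if_neg hj, mul_zero, smul_zero]

omit t hE hF in
lemma h_wp_comm (j : ℤ) : wp h N j * h = h * wp h N j := by
  unfold wp
  by_cases hj : j ∈ wts N
  · rw [if_pos hj]
    have e1 : ∀ p : Polynomial ℚ, Polynomial.aeval h p * h = h * Polynomial.aeval h p := by
      intro p
      have : Polynomial.aeval h (p * Polynomial.X) = Polynomial.aeval h (Polynomial.X * p) := by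
        rw [mul_comm]
      rw [map_mul, map_mul, Polynomial.aeval_X] at this
      exact this
    exact e1 _
  · rw [if_neg hj, mul_zero, zero_mul]

/-- `e` raises the weights by two. -/
lemma e_wp (j : ℤ) : e * wp h N j = wp h N (j + 2) * e := by
  have key : ∀ i l : ℤ, i ≠ l + 2 → wp h N i * e * wp h N l = 0 := by
    intro i l hil
    have h1 : wp h N i * (h * e - e * h) * wp h N l = ((i : ℚ) - l) • (wp h N i * e * wp h N l) := by
      have e1 : wp h N i * (h * e - e * h) * wp h N l =
          (wp h N i * h) * e * wp h N l - wp h N i * e * (h * wp h N l) := by noncomm_ring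
      rw [e1, h_wp_comm, h_wp t hE hF, h_wp t hE hF, smul_mul_assoc, smul_mul_assoc,
        mul_smul_comm, ← sub_smul]
    have h2 : wp h N i * (h * e - e * h) * wp h N l = (2 : ℚ) • (wp h N i * e * wp h N l) := by
      rw [t.he, Algebra.smul_def, map_ofNat]
      noncomm_ring
    have h3 : ((i : ℚ) - l - 2) • (wp h N i * e * wp h N l) = 0 := by
      rw [sub_smul, ← h1, h2, sub_self]
    rcases smul_eq_zero.1 h3 with h4 | h4
    · exfalso
      apply hil
      have h5 : (i : ℚ) = ((l + 2 : ℤ) : ℚ) := by
        push_cast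
        linarith
      exact_mod_cast h5
    · exact h4
  have h1 : e * wp h N j = wp h N (j + 2) * e * wp h N j := by
    calc e * wp h N j = (∑ i ∈ wts N, wp h N i) * e * wp h N j := by
          rw [wp_sum t hE hF, one_mul]
      _ = ∑ i ∈ wts N, wp h N i * e * wp h N j := by rw [sum_mul, sum_mul]
      _ = wp h N (j + 2) * e * wp h N j := by
        rw [sum_eq_single (j + 2)]
        · intro i _ hi
          exact key i j hi
        · intro h2
          unfold wp
          rw [if_neg h2, zero_mul, zero_mul]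
  have h2 : wp h N (j + 2) * e = wp h N (j + 2) * e * wp h N j := by
    calc wp h N (j + 2) * e = wp h N (j + 2) * e * (∑ i ∈ wts N, wp h N i) := by
          rw [wp_sum t hE hF, mul_one]
      _ = ∑ i ∈ wts N, wp h N (j + 2) * e * wp h N i := by rw [mul_sum]
      _ = wp h N (j + 2) * e * wp h N j := by
        rw [sum_eq_single j]
        · intro i _ hi
          refine key (j + 2) i fun h3 => hi ?_
          omega
        · intro h2
          have : wp h N j = 0 := by unfold wp; rw [if_neg h2]
          rw [this, mul_zero]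
  rw [h1, ← h2]

lemma e_pow_wp (r : ℕ) (j : ℤ) : e ^ r * wp h N j = wp h N (j + 2 * r) * e ^ r := by
  induction r with
  | zero => simp
  | succ r ih =>
    rw [pow_succ', mul_assoc, ih, ← mul_assoc, e_wp t hE hF, mul_assoc]
    congr 2
    push_cast
    ring

lemma wp_of_wt {x : A} {j : ℤ} (hx : h * x = (j : ℚ) • x) : wp h N j * x = x := by
  have hgen : ∀ p : Polynomial ℚ, Polynomial.aeval h p * x = (p.eval (j : ℚ)) • x := by
    intro p
    induction p using Polynomial.induction_on' with
    | add p q hp hq => rw [map_add, add_mul, hp, hq, Polynomial.eval_add, add_smul]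
    | monomial n a =>
      rw [Polynomial.aeval_monomial, Polynomial.eval_monomial, mul_assoc, mul_smul,
        ← Algebra.smul_def]
      congr 1
      induction n with
      | zero => simp
      | succ n ih =>
        rw [pow_succ', mul_assoc, ih, mul_smul_comm, hx, smul_smul, pow_succ]
  by_cases hj : j ∈ wts N
  · unfold wp
    rw [if_pos hj, hgen, eval_basis' hj hj, if_pos rfl, one_smul]
  · -- then `x = 0`
    have h1 : x = 0 := by
      have h2 : Polynomial.aeval h (∏ i ∈ wts N, (Polynomial.X - Polynomial.C (i : ℚ))) = 0 := by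
        refine aeval_eq_zero t hE hF fun l hl => ?_
        rw [Polynomial.eval_prod, prod_eq_zero_iff]
        exact ⟨l, hl, by simp⟩
      have h3 := hgen (∏ i ∈ wts N, (Polynomial.X - Polynomial.C (i : ℚ)))
      rw [h2, zero_mul, eq_comm, smul_eq_zero] at h3
      rcases h3 with h4 | h4
      · exfalso
        rw [Polynomial.eval_prod, prod_eq_zero_iff] at h4
        obtain ⟨i, hi, h5⟩ := h4
        rw [Polynomial.eval_sub, Polynomial.eval_X, Polynomial.eval_C, sub_eq_zero] at h5
        have : j = i := by exact_mod_cast h5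
        exact hj (this ▸ hi)
      · exact h4
    rw [h1, mul_zero]

/-- **Hard Lefschetz for the weight idempotents.** -/
theorem exists_lefschetz_inverse (r : ℕ) : ∃ g : A, g * e ^ r * wp h N (-(r : ℤ)) =
    wp h N (-(r : ℤ)) ∧ e ^ r * g = wp h N r ∧ g * wp h N r = g := by
  have t' := lmul_sl2 t
  have hE' := lmul_pow_zero hE
  have hF' := lmul_pow_zero hF
  have h1 : wp h N (r : ℤ) ∈ wt (Algebra.lmul ℚ A h) (r : ℚ) := by
    rw [mem_wt, lmul_apply, h_wp t hE hF]
    simp
  obtain ⟨x, hx, hx2⟩ := e_pow_surj t' hE' h1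
  rw [← map_pow, lmul_apply] at hx2
  rw [mem_wt, lmul_apply] at hx
  refine ⟨x * wp h N r, ?_, ?_, ?_⟩
  · set g := x * wp h N (r : ℤ) with hg
    have h2 : e ^ r * g = wp h N r := by
      rw [hg, ← mul_assoc, hx2, wp_mul t hE hF, if_pos rfl]
    have h3 : g * e ^ r * wp h N (-(r : ℤ)) - wp h N (-(r : ℤ)) ∈
        wt (Algebra.lmul ℚ A h) (-(r : ℚ)) := by
      rw [mem_wt, lmul_apply, mul_sub, h_wp t hE hF, smul_sub]
      have e1 : h * (g * e ^ r * wp h N (-(r : ℤ))) =
          (-(r : ℚ)) • (g * e ^ r * wp h N (-(r : ℤ))) := by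
        rw [hg, ← mul_assoc, ← mul_assoc, ← mul_assoc, hx]
        simp only [smul_mul_assoc]
      rw [e1]
      push_cast
      rfl
    have h4 : ((Algebra.lmul ℚ A e) ^ r) (g * e ^ r * wp h N (-(r : ℤ)) -
        wp h N (-(r : ℤ))) = 0 := by
      rw [← map_pow, lmul_apply, mul_sub, ← mul_assoc, ← mul_assoc, h2]
      have e1 := e_pow_wp t hE hF r (-(r : ℤ))
      rw [show -(r : ℤ) + 2 * r = r by ring] at e1
      rw [mul_assoc, e1, ← mul_assoc, wp_mul t hE hF, if_pos rfl, sub_self]
    exact sub_eq_zero.1 (e_pow_inj t' hE' hF' h3 h4)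
  · rw [← mul_assoc, hx2, wp_mul t hE hF, if_pos rfl]
  · rw [mul_assoc, wp_mul t hE hF, if_pos rfl]

/-- An anti-automorphism which changes the sign of `h` exchanges the idempotents. -/
theorem anti_wp (τ : A →+ A) (hτ : ∀ a b, τ (a * b) = τ b * τ a) (h1 : τ 1 = 1)
    (hq : ∀ (q : ℚ) a, τ (q • a) = q • τ a) (hh : τ h = -h) (j : ℤ) :
    τ (wp h N j) = wp h N (-j) := by
  have hgen : ∀ p : Polynomial ℚ, τ (Polynomial.aeval h p) =
      Polynomial.aeval h (p.comp (-Polynomial.X)) := by
    intro p
    induction p using Polynomial.induction_on' with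
    | add p q hp hq => rw [map_add, map_add, hp, hq, Polynomial.add_comp, map_add]
    | monomial n a =>
      have e1 : Polynomial.aeval h (Polynomial.monomial n a) = a • h ^ n := by
        rw [Polynomial.aeval_monomial, Algebra.smul_def]
      have e2 : ∀ n : ℕ, τ (h ^ n) = (-h) ^ n := by
        intro n
        induction n with
        | zero => simp [h1]
        | succ n ih => rw [pow_succ, hτ, ih, hh, pow_succ']
      rw [e1, hq, e2, Polynomial.monomial_comp, map_mul, map_pow, map_neg, Polynomial.aeval_X,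
        Polynomial.aeval_C, Algebra.smul_def]
  have hmem : ∀ l : ℤ, l ∈ wts N ↔ -l ∈ wts N := by
    intro l
    unfold wts
    rw [Finset.mem_Ioo, Finset.mem_Ioo]
    constructor <;> intro h <;> constructor <;> omega
  by_cases hj : j ∈ wts N
  · unfold wp
    rw [if_pos hj, if_pos ((hmem j).1 hj), hgen]
    refine aeval_congr t hE hF fun l hl => ?_
    rw [Polynomial.eval_comp, Polynomial.eval_neg, Polynomial.eval_X]
    have e1 : (-(l : ℚ)) = ((-l : ℤ) : ℚ) := by push_cast; rfl
    rw [e1, eval_basis' hj ((hmem l).1 hl), eval_basis' ((hmem j).1 hj) hl]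
    by_cases h2 : j = -l
    · rw [if_pos h2, if_pos (by omega)]
    · rw [if_neg h2, if_neg (by omega)]
  · unfold wp
    rw [if_neg hj, if_neg (fun h2 => hj ((hmem j).2 h2)), map_zero]

end sl2

end Pool.Agent.Y107
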