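import Pool.Agent.Y107.JM

/-!
# Modules over `sl(2)` with nilpotent `e` and `f`

The modules may have infinite dimension.
-/

open Finset

namespace Pool.Agent.Y107

open Pool.Agent.H914

variable {V : Type*} [AddCommGroup V] [Module ℚ V]

/-- The weight space. -/
def wt (h : Module.End ℚ V) (μ : ℚ) : Submodule ℚ V := LinearMap.ker (h - μ • (1 : Module.End ℚ V))

lemma mem_wt {h : Module.End ℚ V} {μ : ℚ} {v : V} : v ∈ wt h μ ↔ h v = μ • v := by
  rw [wt, LinearMap.mem_ker, LinearMap.sub_apply, LinearMap.smul_apply, Module.End.one_apply,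
    sub_eq_zero]

/-- If `v` in a subspace `U` stable under `h` is killed by `∏ (h - μ)`, it is a sum of weight vectors
in `U`. -/
lemma mem_iSup_of_prod (h : Module.End ℚ V) (U : Submodule ℚ V) (hU : ∀ v ∈ U, h v ∈ U)
    (s : Finset ℚ) : ∀ v ∈ U, (Polynomial.aeval h (∏ μ ∈ s, (Polynomial.X - Polynomial.C μ))) v = 0 →
      v ∈ ⨆ μ ∈ s, (wt h μ ⊓ U) := by
  classical
  have hstab : ∀ (p : Polynomial ℚ), ∀ v ∈ U, (Polynomial.aeval h p) v ∈ U := by
    intro p v hv
    induction p using Polynomial.induction_on' with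
    | add p q hp hq => rw [map_add, LinearMap.add_apply]; exact U.add_mem hp hq
    | monomial n a =>
      rw [Polynomial.aeval_monomial, Module.End.mul_apply, Module.algebraMap_end_apply]
      refine U.smul_mem _ ?_
      induction n with
      | zero => simpa using hv
      | succ n ih =>
        rw [pow_succ', Module.End.mul_apply]
        exact hU _ ih
  induction s using Finset.induction_on with
  | empty =>
    intro v _ hv
    rw [prod_empty, map_one, Module.End.one_apply] at hv
    rw [hv]
    exact Submodule.zero_mem _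
  | insert μ₀ s hμ ih =>
    intro v hv hv0
    set Q : Polynomial ℚ := ∏ μ ∈ s, (Polynomial.X - Polynomial.C μ) with hQ
    set u := (Polynomial.aeval h Q) v with hu
    have hc : Q.eval μ₀ ≠ 0 := by
      rw [hQ, Polynomial.eval_prod, prod_ne_zero_iff]
      intro μ hμs
      rw [Polynomial.eval_sub, Polynomial.eval_X, Polynomial.eval_C, sub_ne_zero]
      rintro rfl
      exact hμ hμs
    have hu1 : u ∈ wt h μ₀ := by
      rw [prod_insert hμ, map_mul, Module.End.mul_apply] at hv0
      rw [mem_wt, ← sub_eq_zero]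
      simpa [Algebra.smul_def, Module.algebraMap_end_apply] using hv0
    have hQu : (Polynomial.aeval h Q) u = (Q.eval μ₀) • u := by
      have hgen : ∀ p : Polynomial ℚ, (Polynomial.aeval h p) u = (p.eval μ₀) • u := by
        intro p
        induction p using Polynomial.induction_on' with
        | add p q hp hq => rw [map_add, LinearMap.add_apply, hp, hq, Polynomial.eval_add, add_smul]
        | monomial n a =>
          rw [Polynomial.aeval_monomial, Module.End.mul_apply, Module.algebraMap_end_apply,
            Polynomial.eval_monomial, mul_smul]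
          congr 1
          induction n with
          | zero => simp
          | succ n ih =>
            rw [pow_succ', Module.End.mul_apply, ih, map_smul, mem_wt.1 hu1, smul_smul, pow_succ]
      exact hgen Q
    have hw : v - (Q.eval μ₀)⁻¹ • u ∈ ⨆ μ ∈ s, (wt h μ ⊓ U) := by
      refine ih _ (U.sub_mem hv (U.smul_mem _ (hstab _ v hv))) ?_
      rw [map_sub, map_smul, hQu, smul_smul, inv_mul_cancel₀ hc, one_smul, ← hu, sub_self]
    have e1 : v = (v - (Q.eval μ₀)⁻¹ • u) + (Q.eval μ₀)⁻¹ • u := by abel
    rw [e1]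
    refine Submodule.add_mem _ ?_ ?_
    · exact (iSup₂_le fun μ hμ' => le_iSup₂_of_le (f := fun μ (_ : μ ∈ insert μ₀ s) => wt h μ ⊓ U)
        μ (mem_insert_of_mem hμ') le_rfl) hw
    · refine Submodule.mem_iSup_of_mem μ₀ (Submodule.mem_iSup_of_mem (mem_insert_self _ _) ?_)
      exact Submodule.smul_mem _ _ ⟨hu1, hstab _ v hv⟩

section sl2

variable {h e f : Module.End ℚ V} (t : Sl2 h e f)

include t

lemma h_e {μ : ℚ} {v : V} (hv : v ∈ wt h μ) : e v ∈ wt h (μ + 2) := by
  rw [mem_wt] at *
  have h1 := congrArg (fun φ : Module.End ℚ V => φ v) t.he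
  simp only [LinearMap.sub_apply, Module.End.mul_apply] at h1
  have h2 : (2 : Module.End ℚ V) (e v) = (2 : ℚ) • e v := by
    have := natCast_end_apply (V := V) 2 (e v)
    simpa using this
  rw [h2, hv, map_smul, sub_eq_iff_eq_add] at h1
  rw [h1, ← add_smul, add_comm]

lemma h_f {μ : ℚ} {v : V} (hv : v ∈ wt h μ) : f v ∈ wt h (μ - 2) := by
  rw [mem_wt] at *
  have h1 := congrArg (fun φ : Module.End ℚ V => φ v) t.hf
  simp only [LinearMap.sub_apply, Module.End.mul_apply, LinearMap.neg_apply] at h1
  have h2 : (2 : Module.End ℚ V) (f v) = (2 : ℚ) • f v := by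
    have := natCast_end_apply (V := V) 2 (f v)
    simpa using this
  rw [h2, hv, map_smul, sub_eq_iff_eq_add] at h1
  rw [h1, sub_smul]
  abel

lemma h_e_pow' {μ : ℚ} {v : V} (hv : v ∈ wt h μ) (k : ℕ) : (e ^ k) v ∈ wt h (μ + 2 * k) := by
  induction k with
  | zero => simpa using hv
  | succ k ih =>
    rw [pow_succ', Module.End.mul_apply]
    have := h_e t ih
    push_cast
    rwa [show μ + 2 * ((k : ℚ) + 1) = μ + 2 * k + 2 by ring]

lemma h_f_pow' {μ : ℚ} {v : V} (hv : v ∈ wt h μ) (k : ℕ) : (f ^ k) v ∈ wt h (μ - 2 * k) := by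
  induction k with
  | zero => simpa using hv
  | succ k ih =>
    rw [pow_succ', Module.End.mul_apply]
    have := h_f t ih
    push_cast
    rwa [show μ - 2 * ((k : ℚ) + 1) = μ - 2 * k - 2 by ring]

/-- `e f^(k+1) = f^(k+1) e + (k+1) (h + k) f^k` -/
lemma e_f_pow (k : ℕ) : e * f ^ (k + 1) = f ^ (k + 1) * e + (k + 1 : ℕ) • ((h + k) * f ^ k) := by
  have h1 := t.neg_swap.e_pow_f k
  have h2 : (-f) ^ (k + 1) = (-1) ^ (k + 1) * f ^ (k + 1) := neg_pow f (k + 1)
  have h3 : (-f) ^ k = (-1) ^ k * f ^ k := neg_pow f k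
  have h4 : ∀ (n : ℕ) (y : Module.End ℚ V), y * (-1) ^ n = (-1) ^ n * y := by
    intro n y
    rcases neg_one_pow_eq_or (Module.End ℚ V) n with h | h <;> rw [h] <;> simp
  have h5 : (-1 : Module.End ℚ V) ^ (k + 1) * (-1) ^ (k + 1) = 1 := by
    rw [← pow_add, ← two_mul, pow_mul]; simp
  rw [h2, h3] at h1
  have h6 : (-1 : Module.End ℚ V) ^ (k + 1) * (f ^ (k + 1) * e) =
      (-1) ^ (k + 1) * (e * f ^ (k + 1)) - (-1) ^ (k + 1) * ((k + 1 : ℕ) • ((h + k) * f ^ k)) := by
    have e1 : (-1 : Module.End ℚ V) ^ (k + 1) * f ^ (k + 1) * -e =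
        -((-1) ^ (k + 1) * (f ^ (k + 1) * e)) := by noncomm_ring
    have e2 : -e * ((-1 : Module.End ℚ V) ^ (k + 1) * f ^ (k + 1)) =
        -((-1) ^ (k + 1) * (e * f ^ (k + 1))) := by
      rw [← mul_assoc, h4, mul_assoc]; noncomm_ring
    have e3 : (k + 1 : ℕ) • ((-h - k) * ((-1 : Module.End ℚ V) ^ k * f ^ k)) =
        (-1) ^ (k + 1) * ((k + 1 : ℕ) • ((h + k) * f ^ k)) := by
      rw [mul_smul_comm]
      congr 1
      rw [← mul_assoc, h4, pow_succ]
      noncomm_ring
    rw [e1, e2, e3] at h1
    rw [← neg_inj, h1]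
    abel
  have h7 := congrArg (fun y => (-1 : Module.End ℚ V) ^ (k + 1) * y) h6
  simp only [mul_sub, ← mul_assoc, h5, one_mul] at h7
  rw [h7]
  abel

variable {N : ℕ}

/-- On the kernel of `e`, `e^k f^k` acts through a polynomial in `h`. -/
lemma e_pow_f_pow_of_ker {w : V} (hw : e w = 0) (k : ℕ) :
    (e ^ k) ((f ^ k) w) = (k.factorial : ℚ) • (Polynomial.aeval h
      (∏ μ ∈ (range k).image (fun i : ℕ => (i : ℚ)), (Polynomial.X - Polynomial.C μ))) w := by
  have hinj : Set.InjOn (fun i : ℕ => (i : ℚ)) (range k) := fun a _ b _ h => Nat.cast_injective h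
  have key : ∀ k : ℕ, ∀ w : V, e w = 0 → (e ^ k) ((f ^ k) w) =
      (k.factorial : ℚ) • (Polynomial.aeval h
        (∏ i ∈ range k, (Polynomial.X - Polynomial.C (i : ℚ)))) w := by
    intro k
    induction k with
    | zero => intro w _; simp
    | succ k ih =>
      intro w hw
      have h1 : e ((f ^ (k + 1)) w) = (((k + 1 : ℕ) : ℚ)) • (f ^ k) (h w - (k : ℚ) • w) := by
        have h2 := congrArg (fun φ : Module.End ℚ V => φ w) (e_f_pow t k)
        simp only [Module.End.mul_apply, LinearMap.add_apply, LinearMap.smul_apply, hw,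
          map_zero, zero_add] at h2
        rw [h2, natCast_end_apply, ← Nat.cast_smul_eq_nsmul ℚ]
        refine congrArg (fun y : V => ((k + 1 : ℕ) : ℚ) • y) ?_
        have h3 : h * f ^ k = f ^ k * h - 2 * (k : Module.End ℚ V) * f ^ k := by
          have h4 : ∀ k : ℕ, h * f ^ k = f ^ k * h - 2 * (k : Module.End ℚ V) * f ^ k := by
            intro k
            induction k with
            | zero => simp
            | succ k ih =>
              have h5 : h * f = f * h - 2 * f := by
                have := t.hf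
                calc h * f = (h * f - f * h) + f * h := by noncomm_ring
                  _ = f * h - 2 * f := by rw [this]; noncomm_ring
              calc h * f ^ (k + 1) = (h * f ^ k) * f := by rw [pow_succ]; noncomm_ring
                _ = f ^ k * (h * f) - 2 * (k : Module.End ℚ V) * (f ^ k * f) := by
                  rw [ih]; noncomm_ring
                _ = f ^ k * (f * h - 2 * f) - 2 * (k : Module.End ℚ V) * (f ^ k * f) := by rw [h5]
                _ = f ^ (k + 1) * h - 2 * ((k + 1 : ℕ) : Module.End ℚ V) * f ^ (k + 1) := by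
                  rw [pow_succ]; push_cast; noncomm_ring
          exact h4 k
        have h6 := congrArg (fun φ : Module.End ℚ V => φ w) h3
        simp only [Module.End.mul_apply, LinearMap.sub_apply, natCast_end_apply] at h6
        have h7 : (2 : Module.End ℚ V) ((k : ℚ) • (f ^ k) w) = (2 : ℚ) • ((k : ℚ) • (f ^ k) w) := by
          have := natCast_end_apply (V := V) 2 ((k : ℚ) • (f ^ k) w)
          simpa using this
        rw [h6, h7, map_sub, map_smul, two_smul]
        abel
      have h8 : e (h w - (k : ℚ) • w) = 0 := by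
        rw [map_sub, map_smul, hw, smul_zero, sub_zero]
        have h9 := congrArg (fun φ : Module.End ℚ V => φ w) t.he
        simp only [LinearMap.sub_apply, Module.End.mul_apply, hw, map_zero, zero_sub] at h9
        exact neg_eq_zero.1 h9
      rw [pow_succ, Module.End.mul_apply, h1, map_smul, ih _ h8, smul_smul, prod_range_succ,
        map_mul, Module.End.mul_apply, Nat.factorial_succ]
      congr 1
      · push_cast; ring
      · congr 1
        simp [Nat.cast_smul_eq_nsmul]
  rw [key k w hw, prod_image hinj]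

/-- Weights of highest weight vectors. -/
lemma weight_nat {w : V} (hN : f ^ N = 0) (hw : e w = 0) {μ : ℚ} (hμ : w ∈ wt h μ) (hw0 : w ≠ 0) :
    ∃ n < N, μ = (n : ℕ) := by
  have h1 := e_pow_f_pow_of_ker t hw N
  rw [hN, LinearMap.zero_apply, map_zero] at h1
  have hgen : ∀ p : Polynomial ℚ, (Polynomial.aeval h p) w = (p.eval μ) • w := by
    intro p
    induction p using Polynomial.induction_on' with
    | add p q hp hq => rw [map_add, LinearMap.add_apply, hp, hq, Polynomial.eval_add, add_smul]
    | monomial n a =>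
      rw [Polynomial.aeval_monomial, Module.End.mul_apply, Module.algebraMap_end_apply,
        Polynomial.eval_monomial, mul_smul]
      congr 1
      induction n with
      | zero => simp
      | succ n ih =>
        rw [pow_succ', Module.End.mul_apply, ih, map_smul, mem_wt.1 hμ, smul_smul, pow_succ]
  rw [hgen, smul_smul, eq_comm, smul_eq_zero] at h1
  rcases h1 with h1 | h1
  · rcases mul_eq_zero.1 h1 with h2 | h2
    · exact absurd h2 (by exact_mod_cast Nat.factorial_ne_zero N)
    · rw [Polynomial.eval_prod, prod_eq_zero_iff] at h2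
      obtain ⟨ν, hν, h3⟩ := h2
      rw [mem_image] at hν
      obtain ⟨n, hn, rfl⟩ := hν
      rw [mem_range] at hn
      rw [Polynomial.eval_sub, Polynomial.eval_X, Polynomial.eval_C, sub_eq_zero] at h3
      exact ⟨n, hn, h3⟩
  · exact absurd h1 hw0

/-- A highest weight vector in the image of `e ^ k` has weight at least `k`. -/
lemma weight_ge (hE : e ^ N = 0) {k n : ℕ} (hn : n < k) {w : V} (hw : e w = 0)
    (hμ : w ∈ wt h n) (hk : w ∈ LinearMap.range (e ^ k)) : w = 0 := by
  have key : ∀ m, k ≤ m → w ∈ LinearMap.range (e ^ m) := by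
    intro m hm
    induction m, hm using Nat.le_induction with
    | base => exact hk
    | succ m hm ih =>
      obtain ⟨v, hv⟩ := ih
      have h1 := congrArg (fun φ : Module.End ℚ V => φ v) (t.e_pow_f m)
      simp only [Module.End.mul_apply, LinearMap.add_apply, LinearMap.smul_apply,
        LinearMap.sub_apply] at h1
      have h2 : (e ^ (m + 1)) v = 0 := by
        rw [pow_succ', Module.End.mul_apply, hv, hw]
      rw [h2, map_zero, zero_add, hv, mem_wt.1 hμ, natCast_end_apply, ← Nat.cast_smul_eq_nsmul ℚ,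
        ← sub_smul, smul_smul] at h1
      have hne : (((m + 1 : ℕ) : ℚ) * ((n : ℚ) - m)) ≠ 0 := by
        apply mul_ne_zero
        · exact_mod_cast Nat.succ_ne_zero m
        · rw [sub_ne_zero]
          exact_mod_cast (by omega : n ≠ m)
      refine ⟨(((m + 1 : ℕ) : ℚ) * ((n : ℚ) - m))⁻¹ • f v, ?_⟩
      rw [map_smul, h1, smul_smul, inv_mul_cancel₀ hne, one_smul]
  obtain ⟨v, hv⟩ := key (k + N) (by omega)
  rw [pow_add, hE, mul_zero, LinearMap.zero_apply] at hv
  exact hv.symm

lemma e_pow_f_pow_wt {w : V} (hw : e w = 0) {μ : ℚ} (hμ : w ∈ wt h μ) (k : ℕ) :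
    (e ^ k) ((f ^ k) w) = ((k.factorial : ℚ) * ∏ i ∈ range k, (μ - i)) • w := by
  have hinj : Set.InjOn (fun i : ℕ => (i : ℚ)) (range k) := fun a _ b _ h => Nat.cast_injective h
  rw [e_pow_f_pow_of_ker t hw k]
  have hgen : ∀ p : Polynomial ℚ, (Polynomial.aeval h p) w = (p.eval μ) • w := by
    intro p
    induction p using Polynomial.induction_on' with
    | add p q hp hq => rw [map_add, LinearMap.add_apply, hp, hq, Polynomial.eval_add, add_smul]
    | monomial n a =>
      rw [Polynomial.aeval_monomial, Module.End.mul_apply, Module.algebraMap_end_apply,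
        Polynomial.eval_monomial, mul_smul]
      congr 1
      induction n with
      | zero => simp
      | succ n ih =>
        rw [pow_succ', Module.End.mul_apply, ih, map_smul, mem_wt.1 hμ, smul_smul, pow_succ]
  rw [hgen, smul_smul, prod_image hinj, Polynomial.eval_prod]
  congr 2
  refine prod_congr rfl fun i _ => ?_
  simp

/-- **The weight decomposition.** -/
theorem mem_iSup_wt (hE : e ^ N = 0) (hF : f ^ N = 0) (v : V) :
    v ∈ ⨆ (j : ℤ) (_ : -(N : ℤ) < j ∧ j < N), wt h (j : ℚ) := by
  have hker : ∀ w, e w = 0 → e (h w) = 0 := by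
    intro w hw
    have h9 := congrArg (fun φ : Module.End ℚ V => φ w) t.he
    simp only [LinearMap.sub_apply, Module.End.mul_apply, hw, map_zero, zero_sub] at h9
    exact neg_eq_zero.1 h9
  have hrange : ∀ (k : ℕ) (w : V), w ∈ LinearMap.range (e ^ k) → h w ∈ LinearMap.range (e ^ k) := by
    rintro k w ⟨v, rfl⟩
    have h1 := congrArg (fun φ : Module.End ℚ V => φ v) (t.e_pow_h k)
    simp only [Module.End.mul_apply, LinearMap.sub_apply, natCast_end_apply] at h1
    have h7 : (2 : Module.End ℚ V) ((k : ℚ) • (e ^ k) v) = (2 : ℚ) • ((k : ℚ) • (e ^ k) v) := by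
      have := natCast_end_apply (V := V) 2 ((k : ℚ) • (e ^ k) v)
      simpa using this
    rw [h7] at h1
    refine ⟨h v + (2 : ℚ) • (k : ℚ) • v, ?_⟩
    rw [map_add, h1, map_smul, map_smul]
    abel
  have key : ∀ k (v : V), (e ^ k) v = 0 →
      v ∈ ⨆ (j : ℤ) (_ : -(N : ℤ) < j ∧ j < N), wt h (j : ℚ) := by
    intro k
    induction k with
    | zero =>
      intro v hv
      rw [pow_zero, Module.End.one_apply] at hv
      rw [hv]
      exact Submodule.zero_mem _
    | succ k ih =>
      intro v hv
      set w := (e ^ k) v with hw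
      have hew : e w = 0 := by
        rw [hw, ← Module.End.mul_apply, ← pow_succ', hv]
      let U : Submodule ℚ V := LinearMap.ker e ⊓ LinearMap.range (e ^ k)
      have hU : ∀ v ∈ U, h v ∈ U := fun v hv => ⟨hker v hv.1, hrange k v hv.2⟩
      have hwU : w ∈ U := ⟨hew, v, rfl⟩
      have hP : (Polynomial.aeval h (∏ μ ∈ (range N).image (fun i : ℕ => (i : ℚ)),
          (Polynomial.X - Polynomial.C μ))) w = 0 := by
        have h1 := e_pow_f_pow_of_ker t hew N
        rw [hF, LinearMap.zero_apply, map_zero] at h1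
        rcases smul_eq_zero.1 h1.symm with h2 | h2
        · exact absurd h2 (by exact_mod_cast Nat.factorial_ne_zero N)
        · exact h2
      have h1 := mem_iSup_of_prod h U hU _ w hwU hP
      have h2 : ∃ x ∈ ⨆ (j : ℤ) (_ : -(N : ℤ) < j ∧ j < N), wt h (j : ℚ), (e ^ k) x = w := by
        have h3 : (⨆ μ ∈ (range N).image (fun i : ℕ => (i : ℚ)), (wt h μ ⊓ U)) ≤
            (⨆ (j : ℤ) (_ : -(N : ℤ) < j ∧ j < N), wt h (j : ℚ)).map (e ^ k) := by
          refine iSup₂_le fun μ hμ => ?_
          rw [mem_image] at hμ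
          obtain ⟨n, hn, rfl⟩ := hμ
          rw [mem_range] at hn
          rintro w' ⟨hw1, hw2, hw3⟩
          have hw2' : e w' = 0 := hw2
          rcases Nat.lt_or_ge n k with hnk | hnk
          · rw [weight_ge t hE hnk hw2' hw1 hw3]
            exact Submodule.zero_mem _
          · have h4 := e_pow_f_pow_wt t hw2' hw1 k
            have hne : ((k.factorial : ℚ) * ∏ i ∈ range k, ((n : ℚ) - i)) ≠ 0 := by
              apply mul_ne_zero
              · exact_mod_cast Nat.factorial_ne_zero k
              · rw [prod_ne_zero_iff]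
                intro i hi
                rw [mem_range] at hi
                rw [sub_ne_zero]
                exact_mod_cast (by omega : n ≠ i)
            refine ⟨((k.factorial : ℚ) * ∏ i ∈ range k, ((n : ℚ) - i))⁻¹ • (f ^ k) w', ?_, ?_⟩
            · refine Submodule.smul_mem _ _ ?_
              refine Submodule.mem_iSup_of_mem ((n : ℤ) - 2 * k) (Submodule.mem_iSup_of_mem
                (by omega) ?_)
              have := h_f_pow' t hw1 k
              push_cast
              exact this
            · rw [map_smul, h4, smul_smul, inv_mul_cancel₀ hne, one_smul]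
        exact h3 h1
      obtain ⟨x, hx, hx2⟩ := h2
      have h5 := ih (v - x) (by rw [map_sub, hx2, sub_self])
      have h6 := Submodule.add_mem _ h5 hx
      rwa [sub_add_cancel] at h6
  exact key N v (by rw [hE]; rfl)

/-- **Hard Lefschetz for `sl(2)`, injectivity.** -/
theorem e_pow_inj (hE : e ^ N = 0) (hF : f ^ N = 0) {r : ℕ} {v : V} (hv : v ∈ wt h (-(r : ℚ)))
    (h0 : (e ^ r) v = 0) : v = 0 := by
  have key : ∀ s ≤ r, (e ^ s) v = 0 → v = 0 := by
    intro s
    induction s with
    | zero => intro _ h1; simpa using h1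
    | succ s ih =>
      intro hs h1
      by_contra hv0
      have hw0 : (e ^ s) v ≠ 0 := fun h2 => hv0 (ih (by omega) h2)
      have hw : e ((e ^ s) v) = 0 := by rw [← Module.End.mul_apply, ← pow_succ', h1]
      have hμ := h_e_pow' t hv s
      obtain ⟨n, _, h3⟩ := weight_nat t hF hw hμ hw0
      have h4 : n + r = 2 * s := by
        have : (n : ℚ) + r = 2 * s := by rw [← h3]; ring
        exact_mod_cast this
      rw [h3] at hμ
      exact hw0 (weight_ge t hE (k := s) (by omega) hw hμ ⟨v, rfl⟩)
  exact key r le_rfl h0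

/-- **Hard Lefschetz for `sl(2)`, surjectivity.** -/
theorem e_pow_surj (hE : e ^ N = 0) {r : ℕ} {v : V} (hv : v ∈ wt h (r : ℚ)) :
    ∃ x ∈ wt h (-(r : ℚ)), (e ^ r) x = v := by
  have key : ∀ (k : ℕ) (v : V), v ∈ wt h (r : ℚ) → (e ^ k) v = 0 →
      ∃ x ∈ wt h (-(r : ℚ)), (e ^ r) x = v := by
    intro k
    induction k with
    | zero =>
      intro v _ h1
      rw [pow_zero, Module.End.one_apply] at h1
      exact ⟨0, Submodule.zero_mem _, by rw [map_zero, h1]⟩
    | succ k ih =>
      intro v hv h1
      set w := (e ^ k) v with hw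
      have hew : e w = 0 := by
        rw [hw, ← Module.End.mul_apply, ← pow_succ', h1]
      have hμ := h_e_pow' t hv k
      rw [← hw] at hμ
      have h2 := e_pow_f_pow_wt t hew hμ (k + r)
      have hne : (((k + r).factorial : ℚ) * ∏ i ∈ range (k + r), ((r : ℚ) + 2 * k - i)) ≠ 0 := by
        apply mul_ne_zero
        · exact_mod_cast Nat.factorial_ne_zero _
        · rw [prod_ne_zero_iff]
          intro i hi
          rw [mem_range] at hi
          rw [sub_ne_zero]
          exact_mod_cast (by omega : r + 2 * k ≠ i)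
      set c := (((k + r).factorial : ℚ) * ∏ i ∈ range (k + r), ((r : ℚ) + 2 * k - i)) with hc
      have hx0 : c⁻¹ • (f ^ (k + r)) w ∈ wt h (-(r : ℚ)) := by
        refine Submodule.smul_mem _ _ ?_
        have := h_f_pow' t hμ (k + r)
        push_cast at this
        rwa [show (r : ℚ) + 2 * k - 2 * (k + r) = -(r : ℚ) by ring] at this
      have h3 : (e ^ (k + r)) (c⁻¹ • (f ^ (k + r)) w) = w := by
        rw [map_smul, h2, smul_smul, inv_mul_cancel₀ hne, one_smul]
      have h4 : (e ^ r) (c⁻¹ • (f ^ (k + r)) w) ∈ wt h (r : ℚ) := by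
        have := h_e_pow' t hx0 r
        rwa [show -(r : ℚ) + 2 * r = r by ring] at this
      obtain ⟨x, hx, hx2⟩ := ih (v - (e ^ r) (c⁻¹ • (f ^ (k + r)) w)) (Submodule.sub_mem _ hv h4)
        (by
          rw [map_sub, ← Module.End.mul_apply, ← pow_add, h3, hw, sub_self])
      exact ⟨x + c⁻¹ • (f ^ (k + r)) w, Submodule.add_mem _ hx hx0, by
        rw [map_add, hx2, sub_add_cancel]⟩
  exact key N v hv (by rw [hE]; rfl)

end sl2

end Pool.Agent.Y107
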